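import Pool.Agent.KZ.BE.Defs

/-!
# KZ4, block BETA, module Form: the dimension at a position with points on lines

* `sl4_mem`, `mem_SF4`: as `sl_mem`, `mem_SF` in `Pool/Agent/V7/Top/Lin.lean`, for degree `4` and two
  blocks.
* `form`: the exponents of the form `sl φ z (δ_t + δ_t')`, `t < t'`, are the main ones, the other ones
  (at most `3 * 5 ^ (2 c) * (m + 1)`: values `≤ 4` on the blocks, and the last part is `0`, `δ_t` or `2 δ_t`) are
  dropped.  If `f` vanishes on the other ones, then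
  the condition `b = δ_t + δ_t'` at a point of `HasC` gives `f (sl φ z (δ_t + δ_t')) = 0` for `z ∉ R`, the
  condition `b = δ_(1 - i, b') + δ_t'` at a point `w_t + x • W l` (block `i`) gives
  `∑ a, W l a * f (sl φ (cel i a b') (δ_t + δ_t')) = 0`.  (cf. `fin_bound` in `V7/BE/Form.lean`)
-/

set_option autoImplicit false
set_option linter.unusedSectionVars false

namespace Pool.Agent.KZ.BE

open Finset Module Pool.Agent.H51.TB
open Pool.Agent.V7 (msk Ex blk)
open Pool.Agent.V7.Top (IsB SF sl)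

section

open MvPolynomial
open Pool.Agent.H54.V7
open Pool.Agent.H18.Ex (tcr)
open Pool.Agent.V7.Top (HasX sl_inl sl_inr sl_HasX Gam coeff_Gam Gam_apply zp zp_apply sum_split
  exists_HasX mem_SF_coeff)

variable {ν : Type} [Fintype ν] [DecidableEq ν] {c m : ℕ}

theorem sl4_mem {φ : (Fin 2 × Fin c) ⊕ Fin m ≃ ν} {β : ν → ℕ} (hβ : IsB φ β)
    (a : Fin 2 → Fin c) {α : Fin m → ℕ} (h : ∑ t, α t = 2) : sl φ a α ∈ Ex β 4 2 := by
  rw [Pool.Agent.V7.mem_Ex]
  constructor
  · rw [sum_split φ, (sl_HasX φ a α).sum]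
    simp only [sl_inr]
    omega
  · intro i hi
    refine ⟨φ (Sum.inl (⟨i, hi⟩, a ⟨i, hi⟩)), hβ.1 _, ?_⟩
    rw [sl_inl, if_pos rfl]
    exact one_ne_zero

private theorem coeff_sl4 {φ : (Fin 2 × Fin c) ⊕ Fin m ≃ ν} {β : ν → ℕ} (hβ : IsB φ β)
    (f : {e // e ∈ Ex β 4 2} → ℂ) (a : Fin 2 → Fin c) (α : Fin m →₀ ℕ) (h : ∑ t, α t = 2) :
    coeff α (Gam φ f a) = f ⟨sl φ a α, sl4_mem hβ a h⟩ := by
  rw [← coeff_Gam φ f a ⟨sl φ a α, sl4_mem hβ a h⟩ (sl_HasX φ a α)]
  congr 1
  ext t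
  rw [zp_apply]
  exact (sl_inr φ a α t).symm

private theorem coeff_ne4 {φ : (Fin 2 × Fin c) ⊕ Fin m ≃ ν} {β : ν → ℕ}
    (f : {e // e ∈ Ex β 4 2} → ℂ) (a : Fin 2 → Fin c) (α : Fin m →₀ ℕ) (h : ∑ t, α t ≠ 2) :
    coeff α (Gam φ f a) = 0 := by
  rw [Gam_apply, coeff_sum]
  refine sum_eq_zero fun e _ => ?_
  split_ifs with h1
  · rw [coeff_monomial, if_neg]
    intro h2
    apply h
    have h3 := (Pool.Agent.V7.mem_Ex.1 e.2).1
    rw [sum_split φ, h1.sum] at h3
    have h4 : ∑ t, α t = ∑ t, e.1 (φ (Sum.inr t)) :=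
      sum_congr rfl fun t _ => by rw [← h2, zp_apply]
    rw [h4]
    omega
  · exact coeff_zero _

theorem mem_SF4 {φ : (Fin 2 × Fin c) ⊕ Fin m ≃ ν} {β : ν → ℕ} (hβ : IsB φ β)
    (V : Submodule ℂ ({e // e ∈ Ex β 4 2} → ℂ)) (F : Submodule ℂ ((Fin 2 → Fin c) → ℂ))
    (f : {e // e ∈ Ex β 4 2} → ℂ) :
    f ∈ SF φ V F ↔ f ∈ V ∧ ∀ (α : Fin m → ℕ) (h : ∑ t, α t = 2),
      (fun a => f ⟨sl φ a α, sl4_mem hβ a h⟩) ∈ F := by
  rw [mem_SF_coeff]
  refine and_congr_right fun _ => ?_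
  constructor
  · intro h1 α h
    have h2 := h1 (Finsupp.equivFunOnFinite.symm α)
    have h3 : (fun a => coeff (Finsupp.equivFunOnFinite.symm α) (Gam φ f a)) =
        fun a => f ⟨sl φ a α, sl4_mem hβ a h⟩ := by
      funext a
      exact coeff_sl4 hβ f a (Finsupp.equivFunOnFinite.symm α) h
    rwa [h3] at h2
  · intro h1 α
    by_cases h : ∑ t, α t = 2
    · have h3 : (fun a => coeff α (Gam φ f a)) = fun a => f ⟨sl φ a α, sl4_mem hβ a h⟩ := by
        funext a
        exact coeff_sl4 hβ f a α h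
      rw [h3]
      exact h1 α h
    · have h3 : (fun a => coeff α (Gam φ f a)) = 0 := by
        funext a
        exact coeff_ne4 f a α h
      rw [h3]
      exact F.zero_mem

/-! ### The main exponents -/

/-- The exponent of `w_t w_t'`. -/
private def al (t t' : Fin m) : Fin m → ℕ :=
  fun x => (if x = t then 1 else 0) + if x = t' then 1 else 0

private theorem al_symm (t t' : Fin m) : al t t' = al t' t := by
  funext x
  unfold al
  rw [add_comm]

private theorem sum_al (t t' : Fin m) : ∑ x, al t t' x = 2 := by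
  unfold al
  rw [sum_add_distrib]
  simp

/-- The exponents with at least two last variables. -/
private def Mn (φ : (Fin 2 × Fin c) ⊕ Fin m ≃ ν) (e : ν → ℕ) : Prop :=
  ∃ t t' : Fin m, t < t' ∧ e (φ (Sum.inr t)) ≠ 0 ∧ e (φ (Sum.inr t')) ≠ 0

private theorem Mn_eq {φ : (Fin 2 × Fin c) ⊕ Fin m ≃ ν} {β : ν → ℕ} (hβ : IsB φ β) {e : ν → ℕ}
    (he : e ∈ Ex β 4 2) (h : Mn φ e) :
    ∃ (a : Fin 2 → Fin c) (t t' : Fin m), t < t' ∧ e = sl φ a (al t t') := by
  obtain ⟨t, t', htt, h1, h2⟩ := h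
  have hne : t ≠ t' := ne_of_lt htt
  have hle : ∀ x, al t t' x ≤ e (φ (Sum.inr x)) := by
    intro x
    unfold al
    by_cases hx : x = t
    · subst hx
      rw [if_pos rfl, if_neg hne]
      omega
    · rw [if_neg hx]
      by_cases hx' : x = t'
      · subst hx'
        rw [if_pos rfl]
        omega
      · rw [if_neg hx']
        omega
  have hsum := (Pool.Agent.V7.mem_Ex.1 he).1
  rw [sum_split φ] at hsum
  have h3 : 2 ≤ ∑ x, e (φ (Sum.inr x)) := by
    have h0 := sum_le_sum fun x (_ : x ∈ univ) => hle x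
    rwa [sum_al] at h0
  obtain ⟨a, ha⟩ := exists_HasX hβ he (by omega)
  have h4 := ha.sum
  have h5 : ∑ x, al t t' x = ∑ x, e (φ (Sum.inr x)) := by
    rw [sum_al]
    omega
  have h6 := (sum_eq_sum_iff_of_le fun x _ => hle x).1 h5
  refine ⟨a, t, t', htt, ?_⟩
  funext s
  obtain ⟨y, rfl⟩ := φ.surjective s
  rcases y with x | x
  · rw [sl_inl]
    exact ha x
  · rw [sl_inr]
    exact (h6 x (mem_univ x)).symm

private theorem sl_al_inj {φ : (Fin 2 × Fin c) ⊕ Fin m ≃ ν} {a a' : Fin 2 → Fin c}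
    {α : Fin m → ℕ} (h : sl φ a α = sl φ a' α) : a = a' := by
  funext i
  have h1 := congrFun h (φ (Sum.inl (i, a i)))
  rw [sl_inl, sl_inl, if_pos rfl] at h1
  by_contra hne
  rw [if_neg hne] at h1
  exact one_ne_zero h1

private theorem prod_split (φ : (Fin 2 × Fin c) ⊕ Fin m ≃ ν) (F : ν → ℂ) :
    ∏ s, F s = (∏ x, F (φ (Sum.inl x))) * ∏ t, F (φ (Sum.inr t)) := by
  rw [← φ.prod_comp, Fintype.prod_sum_type]

/-! ### The points on lines -/

/-- The point `w_t + u` with `u` in the block `i`. -/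
private noncomputable def lp (φ : (Fin 2 × Fin c) ⊕ Fin m ≃ ν) (i : Fin 2) (t : Fin m)
    (u : Fin c → ℂ) : ν → ℂ :=
  fun s => Sum.elim (fun x : Fin 2 × Fin c => if x.1 = i then u x.2 else 0)
    (fun t' => if t' = t then 1 else 0) (φ.symm s)

private theorem lp_inl (φ : (Fin 2 × Fin c) ⊕ Fin m ≃ ν) (i : Fin 2) (t : Fin m) (u : Fin c → ℂ)
    (x : Fin 2 × Fin c) : lp φ i t u (φ (Sum.inl x)) = if x.1 = i then u x.2 else 0 := by
  simp [lp]

private theorem lp_inr (φ : (Fin 2 × Fin c) ⊕ Fin m ≃ ν) (i : Fin 2) (t : Fin m) (u : Fin c → ℂ)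
    (t' : Fin m) : lp φ i t u (φ (Sum.inr t')) = if t' = t then 1 else 0 := by
  simp [lp]

/-- The multi-index of the derivative with respect to the variable `(j, r)` and `w_t`. -/
private def bb (φ : (Fin 2 × Fin c) ⊕ Fin m ≃ ν) (j : Fin 2) (r : Fin c) (t : Fin m) : ν → ℕ :=
  fun s => Sum.elim (fun x : Fin 2 × Fin c => if x = (j, r) then 1 else 0)
    (fun x => if x = t then 1 else 0) (φ.symm s)

private theorem bb_inl (φ : (Fin 2 × Fin c) ⊕ Fin m ≃ ν) (j : Fin 2) (r : Fin c) (t : Fin m)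
    (x : Fin 2 × Fin c) : bb φ j r t (φ (Sum.inl x)) = if x = (j, r) then 1 else 0 := by
  simp [bb]

private theorem bb_inr (φ : (Fin 2 × Fin c) ⊕ Fin m ≃ ν) (j : Fin 2) (r : Fin c) (t : Fin m)
    (x : Fin m) : bb φ j r t (φ (Sum.inr x)) = if x = t then 1 else 0 := by
  simp [bb]

private theorem sum_bb (φ : (Fin 2 × Fin c) ⊕ Fin m ≃ ν) (j : Fin 2) (r : Fin c) (t : Fin m) :
    ∑ s, bb φ j r t s = 2 := by
  rw [sum_split φ]
  simp only [bb_inl, bb_inr]
  simp

/-- The value of the condition. -/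
private theorem tcr_val (φ : (Fin 2 × Fin c) ⊕ Fin m ≃ ν) {i j : Fin 2} (hij : j ≠ i)
    {t t' : Fin m} (ht : t ≠ t') (u : Fin c → ℂ) (a : Fin 2 → Fin c) (r : Fin c) :
    tcr (lp φ i t u) (sl φ (Function.update a i r) (al t t')) (bb φ j (a j) t') = u r := by
  unfold tcr
  rw [prod_split φ]
  have h1 : ∀ x : Fin 2 × Fin c, (((sl φ (Function.update a i r) (al t t')
      (φ (Sum.inl x))).choose (bb φ j (a j) t' (φ (Sum.inl x))) : ℕ) : ℂ) *
        lp φ i t u (φ (Sum.inl x)) ^ (sl φ (Function.update a i r) (al t t') (φ (Sum.inl x)) -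
          bb φ j (a j) t' (φ (Sum.inl x))) = if x = (i, r) then u r else 1 := by
    rintro ⟨i', r'⟩
    rw [sl_inl, bb_inl, lp_inl]
    simp only
    by_cases hi : i' = i
    · subst hi
      rw [Function.update_self, if_neg (fun h => hij (Prod.ext_iff.1 h).1.symm), if_pos rfl]
      by_cases hr : r' = r
      · subst hr
        simp
      · rw [if_neg hr, if_neg (fun h => hr (Prod.ext_iff.1 h).2)]
        simp
    · have hj : i' = j := by omega
      subst hj
      have he : ¬ ((i', r') : Fin 2 × Fin c) = (i, r) := fun h => hi (Prod.ext_iff.1 h).1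
      rw [Function.update_of_ne hi, if_neg hi, if_neg he]
      by_cases hr : r' = a i'
      · subst hr
        simp
      · rw [if_neg hr, if_neg (fun h => hr (Prod.ext_iff.1 h).2)]
        simp
  have h2 : ∀ x : Fin m, (((sl φ (Function.update a i r) (al t t') (φ (Sum.inr x))).choose
      (bb φ j (a j) t' (φ (Sum.inr x))) : ℕ) : ℂ) * lp φ i t u (φ (Sum.inr x)) ^
        (sl φ (Function.update a i r) (al t t') (φ (Sum.inr x)) -
          bb φ j (a j) t' (φ (Sum.inr x))) = 1 := by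
    intro x
    rw [sl_inr, bb_inr, lp_inr]
    unfold al
    by_cases hx : x = t
    · subst hx
      rw [if_pos rfl, if_neg ht]
      simp
    · rw [if_neg hx, if_neg hx]
      by_cases hx' : x = t'
      · subst hx'
        simp
      · rw [if_neg hx']
        simp
  rw [prod_congr rfl fun x _ => h1 x, prod_congr rfl fun x _ => h2 x, prod_const_one, mul_one,
    prod_ite_eq' univ (i, r), if_pos (mem_univ _)]

/-- The condition of a triple point on a line. -/
private theorem line_cond {φ : (Fin 2 × Fin c) ⊕ Fin m ≃ ν} {β : ν → ℕ} (hβ : IsB φ β)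
    {f : {e // e ∈ Ex β 4 2} → ℂ} (h0 : ∀ e, ¬ Mn φ e.1 → f e = 0) {i : Fin 2} {t : Fin m}
    {u : Fin c → ℂ} (hf : Fat (fun e : {e // e ∈ Ex β 4 2} => e.1) 3 (lp φ i t u) f) {t' : Fin m}
    (ht : t ≠ t') (a : Fin 2 → Fin c) :
    ∑ r, u r * f ⟨sl φ (Function.update a i r) (al t t'), sl4_mem hβ _ (sum_al t t')⟩ = 0 := by
  obtain ⟨j, hij⟩ : ∃ j : Fin 2, j ≠ i := exists_ne i
  rw [← hf (bb φ j (a j) t') (by rw [sum_bb]; norm_num)]
  refine Fintype.sum_of_injective
    (fun r => (⟨sl φ (Function.update a i r) (al t t'), sl4_mem hβ _ (sum_al t t')⟩ :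
      {e // e ∈ Ex β 4 2})) ?_ _ _ ?_ ?_
  · intro r r' h
    have h1 := sl_al_inj (congrArg Subtype.val h)
    have h2 := congrFun h1 i
    rwa [Function.update_self, Function.update_self] at h2
  · intro e he
    by_contra hne
    have hM : Mn φ e.1 := by
      by_contra h
      exact hne (by simp only [h0 e h, zero_mul])
    obtain ⟨a', t₁, t₂, h12, he'⟩ := Mn_eq hβ e.2 hM
    have htc : tcr (lp φ i t u) e.1 (bb φ j (a j) t') ≠ 0 := by
      intro h
      exact hne (by simp only [h, mul_zero])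
    unfold tcr at htc
    rw [prod_ne_zero_iff] at htc
    have hj : a' j = a j := by
      have h1 := htc (φ (Sum.inl (j, a j))) (mem_univ _)
      rw [he', sl_inl, bb_inl, if_pos rfl] at h1
      by_contra h2
      rw [if_neg (fun h => h2 h.symm)] at h1
      simp at h1
    have h3 : ∀ x, x ≠ t → x ≠ t' → al t₁ t₂ x = 0 := by
      intro x hx hx'
      have h1 := htc (φ (Sum.inr x)) (mem_univ _)
      rw [he', sl_inr, bb_inr, lp_inr, if_neg hx, if_neg hx'] at h1
      by_contra h2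
      simp [h2] at h1
    have h4 : al t₁ t₂ t' ≠ 0 := by
      intro h2
      have h1 := htc (φ (Sum.inr t')) (mem_univ _)
      rw [he', sl_inr, bb_inr, if_pos rfl, h2] at h1
      simp at h1
    have h5 : al t₁ t₂ t₁ ≠ 0 := by unfold al; simp
    have h6 : al t₁ t₂ t₂ ≠ 0 := by unfold al; simp
    have h7 : t₁ = t ∨ t₁ = t' := by
      by_contra h
      push Not at h
      exact h5 (h3 _ h.1 h.2)
    have h8 : t₂ = t ∨ t₂ = t' := by
      by_contra h
      push Not at h
      exact h6 (h3 _ h.1 h.2)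
    have h9 : al t₁ t₂ = al t t' := by
      rcases h7 with rfl | rfl <;> rcases h8 with rfl | rfl
      · exact absurd h12 (lt_irrefl _)
      · rfl
      · exact al_symm _ _
      · exact absurd h12 (lt_irrefl _)
    apply he
    refine ⟨a' i, Subtype.ext ?_⟩
    show sl φ (Function.update a i (a' i)) (al t t') = e.1
    rw [he', h9]
    congr 1
    funext x
    by_cases hx : x = i
    · subst hx
      rw [Function.update_self]
    · rw [Function.update_of_ne hx]
      have : x = j := by omega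
      subst this
      exact hj.symm
  · intro r
    show u r * f _ = f _ * tcr (lp φ i t u) (sl φ (Function.update a i r) (al t t'))
      (bb φ j (a j) t')
    rw [tcr_val φ hij ht, mul_comm]

/-! ### The points at cells -/

/-- The multi-index of the derivative with respect to the variables `w_t`, `w_t'`. -/
private def bc (φ : (Fin 2 × Fin c) ⊕ Fin m ≃ ν) (t t' : Fin m) : ν → ℕ :=
  fun s => Sum.elim (fun _ : Fin 2 × Fin c => 0) (al t t') (φ.symm s)

private theorem bc_inl (φ : (Fin 2 × Fin c) ⊕ Fin m ≃ ν) (t t' : Fin m) (x : Fin 2 × Fin c) :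
    bc φ t t' (φ (Sum.inl x)) = 0 := by
  simp [bc]

private theorem bc_inr (φ : (Fin 2 × Fin c) ⊕ Fin m ≃ ν) (t t' : Fin m) (x : Fin m) :
    bc φ t t' (φ (Sum.inr x)) = al t t' x := by
  simp [bc]

private theorem sum_bc (φ : (Fin 2 × Fin c) ⊕ Fin m ≃ ν) (t t' : Fin m) :
    ∑ s, bc φ t t' s = 2 := by
  rw [sum_split φ]
  simp only [bc_inl, bc_inr, sum_const_zero, zero_add]
  exact sum_al t t'

/-- The condition of a triple point at a cell. -/
private theorem cell_cond {φ : (Fin 2 × Fin c) ⊕ Fin m ≃ ν} {β : ν → ℕ} (hβ : IsB φ β)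
    {f : {e // e ∈ Ex β 4 2} → ℂ} {z : Fin 2 → Fin c} {P : ν → ℂ}
    (hP : ∀ x, P (φ (Sum.inl x)) ≠ 0 ↔ x.2 = z x.1) (hP' : ∀ x, P (φ (Sum.inr x)) = 0)
    (hf : Fat (fun e : {e // e ∈ Ex β 4 2} => e.1) 3 P f) {t t' : Fin m} (ht : t < t') :
    f ⟨sl φ z (al t t'), sl4_mem hβ _ (sum_al t t')⟩ = 0 := by
  have h1 := hf (bc φ t t') (by rw [sum_bc]; norm_num)
  rw [Fintype.sum_eq_single ⟨sl φ z (al t t'), sl4_mem hβ _ (sum_al t t')⟩] at h1
  · rcases mul_eq_zero.1 h1 with h2 | h2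
    · exact h2
    · exfalso
      unfold tcr at h2
      rw [prod_eq_zero_iff] at h2
      obtain ⟨s, -, hs⟩ := h2
      obtain ⟨y, rfl⟩ := φ.surjective s
      rcases y with x | x
      · simp only [sl_inl, bc_inl, Nat.choose_zero_right, Nat.cast_one, one_mul,
          Nat.sub_zero] at hs
        by_cases hx : x.2 = z x.1
        · rw [if_pos hx, pow_one] at hs
          exact (hP x).2 hx hs
        · rw [if_neg hx, pow_zero] at hs
          exact one_ne_zero hs
      · simp only [sl_inr, bc_inr, Nat.choose_self, Nat.cast_one, one_mul, Nat.sub_self,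
          pow_zero] at hs
        exact one_ne_zero hs
  · intro e he
    by_contra hne
    apply he
    have htc : tcr P e.1 (bc φ t t') ≠ 0 := by
      intro h
      exact hne (by simp only [h, mul_zero])
    unfold tcr at htc
    rw [prod_ne_zero_iff] at htc
    have h2 : ∀ x, e.1 (φ (Sum.inr x)) = al t t' x := by
      intro x
      have h3 := htc (φ (Sum.inr x)) (mem_univ _)
      rw [bc_inr, hP'] at h3
      apply le_antisymm
      · by_contra h4
        apply h3
        rw [zero_pow (by omega), mul_zero]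
      · by_contra h4
        apply h3
        rw [Nat.choose_eq_zero_of_lt (by omega), Nat.cast_zero, zero_mul]
    have h3 : Mn φ e.1 := by
      refine ⟨t, t', ht, ?_, ?_⟩
      · rw [h2]
        unfold al
        simp
      · rw [h2]
        unfold al
        simp
    have hsum := (Pool.Agent.V7.mem_Ex.1 e.2).1
    rw [sum_split φ] at hsum
    have h5 : ∑ x, e.1 (φ (Sum.inr x)) = 2 := by
      rw [sum_congr rfl fun x _ => h2 x, sum_al]
    obtain ⟨a, ha⟩ := exists_HasX hβ e.2 (by omega)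
    have h6 : a = z := by
      funext i
      have h7 := htc (φ (Sum.inl (i, a i))) (mem_univ _)
      rw [bc_inl, ha (i, a i), if_pos rfl, Nat.choose_zero_right, Nat.sub_zero, pow_one,
        Nat.cast_one, one_mul] at h7
      exact (hP (i, a i)).1 h7
    subst h6
    apply Subtype.ext
    funext s
    obtain ⟨y, rfl⟩ := φ.surjective s
    rcases y with x | x
    · show e.1 (φ (Sum.inl x)) = sl φ a (al t t') (φ (Sum.inl x))
      rw [sl_inl]
      exact ha x
    · show e.1 (φ (Sum.inr x)) = sl φ a (al t t') (φ (Sum.inr x))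
      rw [sl_inr]
      exact h2 x

/-! ### The other exponents -/

private theorem last_le {φ : (Fin 2 × Fin c) ⊕ Fin m ≃ ν} {β : ν → ℕ} (hβ : IsB φ β)
    (e : {e // e ∈ Ex β 4 2}) (t : Fin m) : e.1 (φ (Sum.inr t)) ≤ 2 := by
  have hsum := (Pool.Agent.V7.mem_Ex.1 e.2).1
  rw [sum_split φ, Fintype.sum_prod_type, Fin.sum_univ_two] at hsum
  have h1 : ∀ i : Fin 2, 1 ≤ ∑ r, e.1 (φ (Sum.inl (i, r))) := by
    intro i
    obtain ⟨s, hs, hs'⟩ := (Pool.Agent.V7.mem_Ex.1 e.2).2 i i.2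
    obtain ⟨x, rfl⟩ := φ.surjective s
    rcases x with ⟨i', r⟩ | t
    · have h2 := hβ.1 (i', r)
      rw [hs] at h2
      have h3 : i = i' := Fin.ext h2
      subst h3
      have h4 := single_le_sum (f := fun r => e.1 (φ (Sum.inl (i, r))))
        (fun _ _ => Nat.zero_le _) (mem_univ r)
      have h5 : e.1 (φ (Sum.inl (i, r))) ≠ 0 := hs'
      have h6 : e.1 (φ (Sum.inl (i, r))) ≤ ∑ r, e.1 (φ (Sum.inl (i, r))) := h4
      omega
    · have h2 := hβ.2 t
      have := i.2
      omega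
  have h2 := h1 0
  have h3 := h1 1
  have h4 : e.1 (φ (Sum.inr t)) ≤ ∑ t, e.1 (φ (Sum.inr t)) :=
    single_le_sum (f := fun t => e.1 (φ (Sum.inr t))) (fun _ _ => Nat.zero_le _) (mem_univ t)
  omega

open Classical in
/-- The number of the other exponents. -/
private theorem card_not_Mn {φ : (Fin 2 × Fin c) ⊕ Fin m ≃ ν} {β : ν → ℕ} (hβ : IsB φ β) :
    Fintype.card {e : {e // e ∈ Ex β 4 2} // ¬ Mn φ e.1} ≤ 3 * 5 ^ (2 * c) * (m + 1) := by
  have hlt : ∀ (e : {e // e ∈ Ex β 4 2}) (s : ν), e.1 s < 5 := by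
    intro e s
    have h1 := (Pool.Agent.V7.mem_Ex.1 e.2).1
    have h2 := single_le_sum (f := e.1) (fun _ _ => Nat.zero_le _) (mem_univ s)
    omega
  have hlt3 : ∀ (e : {e // e ∈ Ex β 4 2}) (t : Fin m), e.1 (φ (Sum.inr t)) < 3 := by
    intro e t
    have := last_le hβ e t
    omega
  let g : {e : {e // e ∈ Ex β 4 2} // ¬ Mn φ e.1} →
      Option (Fin m) × ((Fin 2 × Fin c → Fin 5) × Fin 3) := fun e =>
    if h : ∃ t, e.1.1 (φ (Sum.inr t)) ≠ 0 then
      (some h.choose, fun x => ⟨e.1.1 (φ (Sum.inl x)), hlt _ _⟩,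
        ⟨e.1.1 (φ (Sum.inr h.choose)), hlt3 _ _⟩)
    else (none, fun x => ⟨e.1.1 (φ (Sum.inl x)), hlt _ _⟩, 0)
  have hone : ∀ (e : {e : {e // e ∈ Ex β 4 2} // ¬ Mn φ e.1}) (t t' : Fin m),
      e.1.1 (φ (Sum.inr t)) ≠ 0 → t' ≠ t → e.1.1 (φ (Sum.inr t')) = 0 := by
    intro e t t' h1 hne
    by_contra h2
    rcases lt_or_gt_of_ne hne with h | h
    · exact e.2 ⟨t', t, h, h2, h1⟩
    · exact e.2 ⟨t, t', h, h1, h2⟩
  have hg : Function.Injective g := by
    intro e e' hee
    have key : ∀ s, e.1.1 s = e'.1.1 s := by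
      intro s
      obtain ⟨y, rfl⟩ := φ.surjective s
      by_cases h : ∃ t, e.1.1 (φ (Sum.inr t)) ≠ 0
      · by_cases h' : ∃ t, e'.1.1 (φ (Sum.inr t)) ≠ 0
        · simp only [g, dif_pos h, dif_pos h', Prod.mk.injEq, Option.some.injEq] at hee
          obtain ⟨h1, h2, h3⟩ := hee
          rcases y with x | x
          · exact congrArg Fin.val (congrFun h2 x)
          · by_cases hx : x = h.choose
            · rw [hx]
              have h4 := congrArg Fin.val h3
              simp only at h4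
              rw [h4, h1]
            · rw [hone e _ x h.choose_spec hx, hone e' _ x h'.choose_spec (by rwa [← h1])]
        · simp [g, dif_pos h, dif_neg h'] at hee
      · by_cases h' : ∃ t, e'.1.1 (φ (Sum.inr t)) ≠ 0
        · simp [g, dif_neg h, dif_pos h'] at hee
        · simp only [g, dif_neg h, dif_neg h', Prod.mk.injEq] at hee
          obtain ⟨-, h2, -⟩ := hee
          rcases y with x | x
          · exact congrArg Fin.val (congrFun h2 x)
          · push Not at h h'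
            rw [h x, h' x]
    exact Subtype.ext (Subtype.ext (funext key))
  refine (Fintype.card_le_of_injective g hg).trans (le_of_eq ?_)
  rw [Fintype.card_prod, Fintype.card_prod, Fintype.card_option, Fintype.card_fun,
    Fintype.card_prod, Fintype.card_fin, Fintype.card_fin, Fintype.card_fin, Fintype.card_fin,
    Fintype.card_fin]
  ring

end

open Pool.Agent.H54.V7 in
theorem form {n m c : ℕ} (φ : (Fin 2 × Fin c) ⊕ Fin m ≃ Fin n) (hφ : IsB φ (blk c n))
    {κ : Type} (rest : κ → Kd) (p₁ : κ → Fin n × Fin 3 → ℂ) (R : Finset (Fin 2 → Fin c))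
    (hC : HasC φ (blk c n) rest p₁ R) (τ : Fin m → Ty) (W : Fin m → ℕ → Fin c → ℂ)
    (hL : ∀ t, HasL φ (blk c n) rest p₁ t (τ t) (W t))
    (F : Submodule ℂ ((Fin 2 → Fin c) → ℂ)) :
    finrank ℂ (SF φ ((LS (blk c n) 2).V rest p₁) F) ≤
      3 * 5 ^ (2 * c) * (m + 1) + ∑ t, ∑ t' ∈ Ioi t, dm (F ⊓ CS R) (τ t) (τ t') (W t) (W t') := by
  classical
  have hPt : ∀ f ∈ (LS (blk c n) 2).V rest p₁, ∀ P, HasPt (blk c n) rest p₁ P →
      Fat (fun e : {e // e ∈ Ex (blk c n) 4 2} => e.1) 3 P f := by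
    rintro f hf P ⟨i, x, hx, rfl⟩
    have h1 := (mem_LSA _ _ _ _ _).1 hf i x
    rwa [hx] at h1
  have hline : ∀ f ∈ (LS (blk c n) 2).V rest p₁, (∀ e, ¬ Mn φ e.1 → f e = 0) →
      ∀ t t', t ≠ t' → ∀ l < (τ t).2, ∀ a : Fin 2 → Fin c,
        ∑ r, W t l r * f ⟨sl φ (Function.update a (τ t).1 r) (al t t'),
          sl4_mem hφ _ (sum_al t t')⟩ = 0 := by
    intro f hf h0 t t' ht l hl a
    obtain ⟨x, hx, h1⟩ := hL t l hl
    have h2 := hPt f hf _ h1
    have h3 : vec φ (Pi.single (τ t).1 (x • W t l)) (Pi.single t 1) = lp φ (τ t).1 t (x • W t l) := by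
      funext s
      obtain ⟨y, rfl⟩ := φ.surjective s
      rcases y with ⟨i, r⟩ | y
      · rw [vec_inl, lp_inl]
        by_cases hi : i = (τ t).1
        · subst hi
          rw [if_pos rfl, Pi.single_eq_same]
        · rw [if_neg hi, Pi.single_eq_of_ne hi]
          rfl
      · rw [vec_inr, lp_inr]
        by_cases hy : y = t
        · subst hy
          rw [if_pos rfl, Pi.single_eq_same]
        · rw [if_neg hy, Pi.single_eq_of_ne hy]
    rw [h3] at h2
    have h4 := line_cond hφ h0 h2 ht a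
    have h5 : x * ∑ r, W t l r * f ⟨sl φ (Function.update a (τ t).1 r) (al t t'),
          sl4_mem hφ _ (sum_al t t')⟩ = 0 := by
      rw [← h4, mul_sum]
      refine sum_congr rfl fun r _ => ?_
      rw [Pi.smul_apply, smul_eq_mul]
      ring
    exact (mul_eq_zero.1 h5).resolve_left hx
  set V := SF φ ((LS (blk c n) 2).V rest p₁) F with hV
  let ρ : V →ₗ[ℂ] ({e : {e // e ∈ Ex (blk c n) 4 2} // ¬ Mn φ e.1} → ℂ) :=
    (LinearMap.funLeft ℂ ℂ Subtype.val) ∘ₗ V.subtype
  have h1 := ρ.finrank_range_add_finrank_ker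
  have h2 : finrank ℂ (LinearMap.range ρ) ≤
      Fintype.card {e : {e // e ∈ Ex (blk c n) 4 2} // ¬ Mn φ e.1} :=
    (Submodule.finrank_le _).trans (Module.finrank_fintype_fun_eq_card ℂ).le
  have h2' := h2.trans (card_not_Mn hφ)
  have hker : ∀ x : LinearMap.ker ρ, ∀ e, ¬ Mn φ e.1 →
      ((x : V) : {e // e ∈ Ex (blk c n) 4 2} → ℂ) e = 0 := by
    intro x e he
    have h3 : ρ x.1 = 0 := x.2
    exact congrFun h3 ⟨e, he⟩
  let L : (p : Σ t : Fin m, {t' // t' ∈ Ioi t}) → ({e // e ∈ Ex (blk c n) 4 2} → ℂ) →ₗ[ℂ]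
      ((Fin 2 → Fin c) → ℂ) := fun p =>
    LinearMap.funLeft ℂ ℂ fun a => ⟨sl φ a (al p.1 p.2.1), sl4_mem hφ a (sum_al p.1 p.2.1)⟩
  have hmem : ∀ (p : Σ t : Fin m, {t' // t' ∈ Ioi t}) (x : LinearMap.ker ρ),
      (L p ∘ₗ V.subtype ∘ₗ (LinearMap.ker ρ).subtype) x ∈
        F ⊓ CS R ⊓ KU (τ p.1).1 (τ p.1).2 (W p.1) ⊓ KU (τ p.2.1).1 (τ p.2.1).2 (W p.2.1) := by
    rintro ⟨t, t', htt⟩ x
    rw [mem_Ioi] at htt
    have hx : ((x : V) : {e // e ∈ Ex (blk c n) 4 2} → ℂ) ∈
        SF φ ((LS (blk c n) 2).V rest p₁) F := (x : V).2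
    have hx2 := (mem_SF4 hφ _ F _).1 hx
    have hne : t ≠ t' := ne_of_lt htt
    refine ⟨⟨⟨hx2.2 (al t t') (sum_al t t'), ?_⟩, ?_⟩, ?_⟩
    · intro z hz
      obtain ⟨y, hy0, hy1, hP⟩ := hC z hz
      have hy : ∀ i, y i ≠ 0 := by
        intro i
        fin_cases i
        · exact hy0
        · exact hy1
      have h3 := hPt _ hx2.1 _ hP
      refine cell_cond hφ ?_ ?_ h3 htt
      · rintro ⟨i, r⟩
        rw [vec_inl]
        show (Pi.single (z i) (y i) : Fin c → ℂ) r ≠ 0 ↔ r = z i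
        constructor
        · intro h4
          by_contra h5
          exact h4 (Pi.single_eq_of_ne h5 _)
        · intro h4
          rw [h4, Pi.single_eq_same]
          exact hy i
      · intro s
        rw [vec_inr]
        rfl
    · intro l hl b
      exact hline _ hx2.1 (hker x) t t' hne l hl (fun _ => b)
    · intro l hl b
      rw [← hline _ hx2.1 (hker x) t' t hne.symm l hl (fun _ => b)]
      refine sum_congr rfl fun r _ => ?_
      congr 1
      show ((x : V) : {e // e ∈ Ex (blk c n) 4 2} → ℂ) ⟨sl φ (cel (τ t').1 r b) (al t t'), _⟩ = _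
      refine congrArg _ (Subtype.ext ?_)
      show sl φ (cel (τ t').1 r b) (al t t') = sl φ (cel (τ t').1 r b) (al t' t)
      rw [al_symm t t']
  let θ : LinearMap.ker ρ →ₗ[ℂ] ((p : Σ t : Fin m, {t' // t' ∈ Ioi t}) →
      (F ⊓ CS R ⊓ KU (τ p.1).1 (τ p.1).2 (W p.1) ⊓ KU (τ p.2.1).1 (τ p.2.1).2 (W p.2.1) :
        Submodule ℂ ((Fin 2 → Fin c) → ℂ))) :=
    LinearMap.pi fun p => LinearMap.codRestrict _
      (L p ∘ₗ V.subtype ∘ₗ (LinearMap.ker ρ).subtype) (hmem p)
  have hθ : Function.Injective θ := by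
    intro x y hxy
    apply Subtype.ext
    apply Subtype.ext
    funext e
    show ((x : V) : {e // e ∈ Ex (blk c n) 4 2} → ℂ) e =
      ((y : V) : {e // e ∈ Ex (blk c n) 4 2} → ℂ) e
    by_cases he : Mn φ e.1
    · obtain ⟨a, t, t', htt, he'⟩ := Mn_eq hφ e.2 he
      have h3 := congrArg Subtype.val (congrFun hxy ⟨t, t', mem_Ioi.2 htt⟩)
      have h4 := congrFun h3 a
      have h5 : e = ⟨sl φ a (al t t'), sl4_mem hφ a (sum_al t t')⟩ := Subtype.ext he'
      rw [h5]
      exact h4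
    · rw [hker x e he, hker y e he]
  have h3 := LinearMap.finrank_le_finrank_of_injective hθ
  rw [Module.finrank_pi_fintype, Fintype.sum_sigma] at h3
  have h4 : ∀ t : Fin m, ∑ t' : {t' // t' ∈ Ioi t},
      finrank ℂ (F ⊓ CS R ⊓ KU (τ t).1 (τ t).2 (W t) ⊓ KU (τ t'.1).1 (τ t'.1).2 (W t'.1) :
        Submodule ℂ ((Fin 2 → Fin c) → ℂ)) =
      ∑ t' ∈ Ioi t, dm (F ⊓ CS R) (τ t) (τ t') (W t) (W t') := by
    intro t
    exact Finset.sum_coe_sort (Ioi t) fun t' => dm (F ⊓ CS R) (τ t) (τ t') (W t) (W t')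
  rw [sum_congr rfl fun t _ => h4 t] at h3
  omega

end Pool.Agent.KZ.BE
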