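import Pool.Agent.KZ.BE.Form
import Pool.Agent.V7.BE.Open

/-!
# KZ4, block BETA, module Near: the bound is an open condition

Copy of `SF_near_real` in `Pool/Agent/V7/BE/Open.lean` (from `SysX.near` with
`b e = ⌊B e⌋` for `0 < e`, `e + T < c ^ 2`, the whole dimension otherwise).
-/

set_option autoImplicit false
set_option linter.unusedSectionVars false

namespace Pool.Agent.KZ.BE

open Finset Module Pool.Agent.H51.TB Topology
open Pool.Agent.V7 (msk Ex blk)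
open Pool.Agent.V7.Top (IsB SF sl)

private theorem SF_eq4 {n m c : ℕ} (φ : (Fin 2 × Fin c) ⊕ Fin m ≃ Fin n)
    (hφ : IsB φ (blk c n)) {κ : Type} (rest : κ → Kd) (p : κ → Fin n × Fin 3 → ℂ)
    (F : Submodule ℂ ((Fin 2 → Fin c) → ℂ)) :
    SF φ ((LS (blk c n) 2).V rest p) F = Pool.Agent.V7.BE.SysX (LS (blk c n) 2) rest
      (fun (α : Pool.Agent.V7.BE.OpenX.U m 2) (a : Fin 2 → Fin c) =>
        (⟨sl φ a α.1, sl4_mem hφ a α.2⟩ : {e // e ∈ Ex (blk c n) 4 2})) p F := by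
  ext f
  rw [mem_SF4 hφ, Pool.Agent.V7.BE.SysX.mem]
  refine and_congr_right fun _ => ?_
  constructor
  · exact fun h α => h α.1 α.2
  · exact fun h α hα => h ⟨α, hα⟩

theorem near {n m c : ℕ} (φ : (Fin 2 × Fin c) ⊕ Fin m ≃ Fin n) (hφ : IsB φ (blk c n))
    {κ : Type} [Fintype κ] (rest : κ → Kd) (B : ℝ) (T : ℕ) (p₁ : κ → Fin n × Fin 3 → ℂ)
    (h : ∀ F : Submodule ℂ ((Fin 2 → Fin c) → ℂ), F ≠ ⊥ → finrank ℂ F + T < c ^ 2 →
      (finrank ℂ (SF φ ((LS (blk c n) 2).V rest p₁) F) : ℝ) ≤ B * finrank ℂ F) :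
    ∀ᶠ p in 𝓝 p₁, ∀ F : Submodule ℂ ((Fin 2 → Fin c) → ℂ), F ≠ ⊥ → finrank ℂ F + T < c ^ 2 →
      (finrank ℂ (SF φ ((LS (blk c n) 2).V rest p) F) : ℝ) ≤ B * finrank ℂ F := by
  classical
  have hE : ∀ F : Submodule ℂ ((Fin 2 → Fin c) → ℂ), F ≠ ⊥ ↔ 0 < finrank ℂ F := by
    intro F
    rw [Nat.pos_iff_ne_zero, not_iff_not]
    constructor
    · rintro rfl
      exact finrank_bot ℂ _
    · intro h0
      exact Submodule.finrank_eq_zero.1 h0
  let D : ℕ := finrank ℂ ({e // e ∈ Ex (blk c n) 4 2} → ℂ)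
  let b : ℕ → ℕ := fun e => if 0 < e ∧ e + T < c ^ 2 then ⌊B * e⌋₊ else D
  have hfin := Pool.Agent.V7.BE.OpenX.finite m 2
  have hfin' := Fintype.ofFinite (Pool.Agent.V7.BE.OpenX.U m 2)
  by_cases hB : 0 ≤ B
  · have h1 := Pool.Agent.V7.BE.SysX.near (LS (blk c n) 2) rest
      (fun (α : Pool.Agent.V7.BE.OpenX.U m 2) (a : Fin 2 → Fin c) =>
        (⟨sl φ a α.1, sl4_mem hφ a α.2⟩ : {e // e ∈ Ex (blk c n) 4 2})) b p₁ (by
      intro F
      rw [← SF_eq4 φ hφ rest p₁ F]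
      show _ ≤ if _ then _ else _
      by_cases hF : 0 < finrank ℂ F ∧ finrank ℂ F + T < c ^ 2
      · rw [if_pos hF]
        exact Nat.le_floor (h F ((hE F).2 hF.1) hF.2)
      · rw [if_neg hF]
        exact Submodule.finrank_le _)
    refine h1.mono fun p hp F hF1 hF2 => ?_
    have h2 := hp F
    rw [← SF_eq4 φ hφ rest p F] at h2
    have h3 : b (finrank ℂ F) = ⌊B * (finrank ℂ F : ℝ)⌋₊ := by
      show (if _ then _ else _) = _
      rw [if_pos ⟨(hE F).1 hF1, hF2⟩]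
    rw [h3] at h2
    have h4 : (0 : ℝ) ≤ B * finrank ℂ F := by positivity
    exact le_trans (by exact_mod_cast h2) (Nat.floor_le h4)
  · refine Filter.Eventually.of_forall fun p F hF1 hF2 => ?_
    exfalso
    have h2 := h F hF1 hF2
    have h4 : (0 : ℝ) < finrank ℂ F := by exact_mod_cast (hE F).1 hF1
    have h5 : (0 : ℝ) ≤ (finrank ℂ (SF φ ((LS (blk c n) 2).V rest p₁) F) : ℝ) :=
      Nat.cast_nonneg _
    push Not at hB
    nlinarith

end Pool.Agent.KZ.BE
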