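import Pool.Agent.KZ.BE.PosA

/-!
# KZ4, block BETA, module PosB: the points on the lines

A column is a pair (cluster `j`, `l < s j`); it needs points `x • W j l` (block `i`) on the three lines
`3 j`, `3 j + 1`, `3 j + 2`.  The first `qy` columns are filled by the triples (`x = 1, 1, -2`), the
next `py` columns by the pairs (lines `3 j`, `3 j + 1`: `x = 1, -1`) and one single point each
(line `3 j + 2`), the other columns by three single points each.
-/

set_option autoImplicit false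
set_option linter.unusedSectionVars false

namespace Pool.Agent.KZ.BE

open Finset
open Pool.Agent.V7 (msk Ex blk)
open Pool.Agent.V7.Top (IsB SF sl)

/-- The vector of a column: block `i`, factor `x`, line `t`. -/
noncomputable def cv {n m c : ℕ} (φ : (Fin 2 × Fin c) ⊕ Fin m ≃ Fin n) (i : Fin 2)
    (x : ℂ) (w : Fin c → ℂ) (t : Fin m) : Fin n → ℂ :=
  vec φ (Pi.single i (x • w)) (Pi.single t 1)

theorem cases_phi {n m c : ℕ} (φ : (Fin 2 × Fin c) ⊕ Fin m ≃ Fin n) {P : Fin n → Prop}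
    (h1 : ∀ i' a, P (φ (Sum.inl (i', a)))) (h2 : ∀ t, P (φ (Sum.inr t))) (s : Fin n) : P s := by
  obtain ⟨y, rfl⟩ := φ.surjective s
  rcases y with ⟨i', a⟩ | t
  · exact h1 i' a
  · exact h2 t

theorem blk_inl {n m c : ℕ} {φ : (Fin 2 × Fin c) ⊕ Fin m ≃ Fin n} (hφ : IsB φ (blk c n))
    (i : Fin 2) (a : Fin c) : blk c n (φ (Sum.inl (i, a))) = i := hφ.1 (i, a)

theorem blk_inr {n m c : ℕ} {φ : (Fin 2 × Fin c) ⊕ Fin m ≃ Fin n} (hφ : IsB φ (blk c n))
    (t : Fin m) : 2 ≤ blk c n (φ (Sum.inr t)) := hφ.2 t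

theorem cv_inl_same {n m c : ℕ} (φ : (Fin 2 × Fin c) ⊕ Fin m ≃ Fin n) (i : Fin 2)
    (x : ℂ) (w : Fin c → ℂ) (t : Fin m) (a : Fin c) :
    cv φ i x w t (φ (Sum.inl (i, a))) = x * w a := by
  unfold cv
  rw [vec_inl, Pi.single_eq_same, Pi.smul_apply, smul_eq_mul]

theorem cv_inl_ne {n m c : ℕ} (φ : (Fin 2 × Fin c) ⊕ Fin m ≃ Fin n) {i i' : Fin 2} (h : i' ≠ i)
    (x : ℂ) (w : Fin c → ℂ) (t : Fin m) (a : Fin c) :
    cv φ i x w t (φ (Sum.inl (i', a))) = 0 := by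
  unfold cv
  rw [vec_inl, Pi.single_eq_of_ne h, Pi.zero_apply]

theorem cv_inr {n m c : ℕ} (φ : (Fin 2 × Fin c) ⊕ Fin m ≃ Fin n) (i : Fin 2)
    (x : ℂ) (w : Fin c → ℂ) (t t' : Fin m) :
    cv φ i x w t (φ (Sum.inr t')) = (Pi.single t 1 : Fin m → ℂ) t' := by
  unfold cv
  rw [vec_inr]

theorem msk_cv {n m c : ℕ} {φ : (Fin 2 × Fin c) ⊕ Fin m ≃ Fin n} (hφ : IsB φ (blk c n))
    (i : Fin 2) (x : ℂ) (w : Fin c → ℂ) (t : Fin m) {q : Fin n → ℂ}
    (hq : ∀ s, blk c n s ≠ 1 - (i : ℕ) → q s = cv φ i x w t s) :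
    msk (blk c n) {1 - (i : ℕ)} q = cv φ i x w t := by
  funext s
  revert s
  refine cases_phi φ ?_ ?_
  · intro i' a
    unfold msk
    by_cases h : i' = i
    · subst h
      have h1 : blk c n (φ (Sum.inl (i', a))) ≠ 1 - (i' : ℕ) := by
        rw [blk_inl hφ]
        omega
      rw [if_neg (by rw [mem_singleton]; exact h1), hq _ h1]
    · have h1 : blk c n (φ (Sum.inl (i', a))) = 1 - (i : ℕ) := by
        rw [blk_inl hφ]
        have h2 : (i' : ℕ) ≠ i := fun h' => h (Fin.ext h')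
        omega
      rw [if_pos (by rw [mem_singleton]; exact h1), cv_inl_ne φ h]
  · intro t'
    have h1 : blk c n (φ (Sum.inr t')) ≠ 1 - (i : ℕ) := by
      have h2 := blk_inr hφ t'
      omega
    unfold msk
    rw [if_neg (by rw [mem_singleton]; exact h1), hq _ h1]

/-- A single point. -/
theorem pt_ord_cv {n m c : ℕ} {φ : (Fin 2 × Fin c) ⊕ Fin m ≃ Fin n} (hφ : IsB φ (blk c n))
    (i : Fin 2) (x : ℂ) (w : Fin c → ℂ) (t : Fin m) :
    pt (blk c n) (.ord 3 {1 - (i : ℕ)}) 0 (fun y => cv φ i x w t y.1) = cv φ i x w t :=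
  msk_cv hφ i x w t fun _ _ => rfl

/-- The scalars of a pair. -/
def xp (h : Fin 3) : ℂ := if h = 1 then -1 else 1

/-- The scalars of a triple. -/
def xq (h : Fin 3) : ℂ := if h = 2 then -2 else 1

theorem xp_ne (h : Fin 3) : xp h ≠ 0 := by
  unfold xp
  split_ifs
  · exact neg_ne_zero.2 one_ne_zero
  · exact one_ne_zero

theorem xq_ne (h : Fin 3) : xq h ≠ 0 := by
  unfold xq
  split_ifs
  · exact neg_ne_zero.2 two_ne_zero
  · exact one_ne_zero

theorem pt_pr_cv {n m c : ℕ} {φ : (Fin 2 × Fin c) ⊕ Fin m ≃ Fin n} (hφ : IsB φ (blk c n))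
    (i : Fin 2) (w : Fin c → ℂ) (t : Fin 3 → Fin m) (h : Fin 3) (hh : h ≠ 2) :
    pt (blk c n) (.pr i {1 - (i : ℕ)}) h (fun y => cv φ i (xp y.2) w (t y.2) y.1) =
      cv φ i (xp h) w (t h) := by
  apply msk_cv hφ
  intro s _
  show (if h = 0 then cv φ i (xp 0) w (t 0) s else
    if blk c n s = i then - cv φ i (xp 0) w (t 0) s else cv φ i (xp 1) w (t 1) s) = _
  by_cases h0 : h = 0
  · rw [if_pos h0, h0]
  · have h1 : h = 1 := by
      apply Fin.ext
      have h2 : (h : ℕ) ≠ 0 := fun h' => h0 (Fin.ext h')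
      have h3 : (h : ℕ) ≠ 2 := fun h' => hh (Fin.ext h')
      show (h : ℕ) = 1
      omega
    subst h1
    rw [if_neg h0]
    split_ifs with h2
    · revert s
      refine cases_phi φ ?_ ?_
      · intro i' a _ h2
        rw [blk_inl hφ] at h2
        have h3 : i' = i := Fin.ext h2
        subst h3
        rw [cv_inl_same, cv_inl_same, xp, xp, if_neg (by decide), if_pos rfl]
        ring
      · intro t' _ h2
        have h3 := blk_inr hφ t'
        exfalso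
        omega
    · rfl

theorem pt_tr_cv {n m c : ℕ} {φ : (Fin 2 × Fin c) ⊕ Fin m ≃ Fin n} (hφ : IsB φ (blk c n))
    (i : Fin 2) (w : Fin c → ℂ) (t : Fin 3 → Fin m) (h : Fin 3) :
    pt (blk c n) (.tr i {1 - (i : ℕ)}) h (fun y => cv φ i (xq y.2) w (t y.2) y.1) =
      cv φ i (xq h) w (t h) := by
  apply msk_cv hφ
  intro s _
  show (if h = 2 then (if blk c n s = i then
      - (cv φ i (xq 0) w (t 0) s + cv φ i (xq 1) w (t 1) s) else cv φ i (xq 2) w (t 2) s)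
    else cv φ i (xq h) w (t h) s) = _
  by_cases h2 : h = 2
  · subst h2
    rw [if_pos rfl]
    split_ifs with h3
    · revert s
      refine cases_phi φ ?_ ?_
      · intro i' a _ h2
        rw [blk_inl hφ] at h2
        have h3 : i' = i := Fin.ext h2
        subst h3
        rw [cv_inl_same, cv_inl_same, cv_inl_same, xq, xq, xq, if_neg (by decide),
          if_neg (by decide), if_pos rfl]
        ring
      · intro t' _ h2
        have h3 := blk_inr hφ t'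
        exfalso
        omega
    · rfl
  · rw [if_neg h2]

theorem columns {n m c : ℕ} (φ : (Fin 2 × Fin c) ⊕ Fin m ≃ Fin n) (hφ : IsB φ (blk c n))
    (i : Fin 2) {N : ℕ} (hN : 3 * N ≤ m) (s : Fin N → ℕ) (W : Fin N → ℕ → Fin c → ℂ)
    (y py qy : ℕ) (h1 : 3 * ∑ j, s j ≤ y + 2 * py + 3 * qy) (h2 : py + qy ≤ ∑ j, s j) :
    ∃ qo qp qq : ℕ → Fin n × Fin 3 → ℂ,
      ∀ (j : Fin N) (h : Fin 3) (hm : 3 * (j : ℕ) + h < m) (l : ℕ), l < s j →
        ∃ x : ℂ, x ≠ 0 ∧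
          ((∃ ι < y, pt (blk c n) (.ord 3 {1 - (i : ℕ)}) 0 (qo ι) =
              vec φ (Pi.single i (x • W j l)) (Pi.single ⟨3 * j + h, hm⟩ 1)) ∨
            (∃ ι < py, ∃ x', x' ≠ 2 ∧ pt (blk c n) (.pr i {1 - (i : ℕ)}) x' (qp ι) =
              vec φ (Pi.single i (x • W j l)) (Pi.single ⟨3 * j + h, hm⟩ 1)) ∨
            ∃ ι < qy, ∃ x', pt (blk c n) (.tr i {1 - (i : ℕ)}) x' (qq ι) =
              vec φ (Pi.single i (x • W j l)) (Pi.single ⟨3 * j + h, hm⟩ 1)) := by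
  rcases Nat.eq_zero_or_pos N with hN0 | hN0
  · subst hN0
    exact ⟨fun _ _ => 0, fun _ _ => 0, fun _ _ => 0, fun j => j.elim0⟩
  have hcard : (univ.sigma fun j : Fin N => range (s j)).card ≤ ∑ j, s j := by
    rw [card_sigma]
    exact le_of_eq (sum_congr rfl fun j _ => card_range _)
  obtain ⟨col, hcol⟩ := exists_enum (univ.sigma fun j : Fin N => range (s j))
    (⟨⟨0, hN0⟩, 0⟩ : Σ _ : Fin N, ℕ) hcard
  have hln : ∀ (j : Fin N) (h : Fin 3), 3 * (j : ℕ) + h < m := by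
    intro j h
    have h3 := j.2
    have h4 := h.2
    omega
  set cl : (Σ _ : Fin N, ℕ) → Fin 3 → ℂ → Fin n → ℂ := fun u h x =>
    cv φ i x (W u.1 u.2) ⟨3 * (u.1 : ℕ) + h, hln u.1 h⟩ with hcl
  have hclv : ∀ (j : Fin N) (l : ℕ) (h : Fin 3) (x : ℂ) (hm : 3 * (j : ℕ) + h < m),
      cl ⟨j, l⟩ h x = vec φ (Pi.single i (x • W j l)) (Pi.single ⟨3 * (j : ℕ) + h, hm⟩ 1) :=
    fun j l h x hm => rfl
  have ho : ∀ (u : Σ _ : Fin N, ℕ) (h : Fin 3),
      pt (blk c n) (.ord 3 {1 - (i : ℕ)}) 0 (fun z => cl u h 1 z.1) = cl u h 1 :=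
    fun u h => pt_ord_cv hφ i 1 (W u.1 u.2) _
  have hpr : ∀ (u : Σ _ : Fin N, ℕ) (h : Fin 3), h ≠ 2 →
      pt (blk c n) (.pr i {1 - (i : ℕ)}) h (fun z => cl u z.2 (xp z.2) z.1) = cl u h (xp h) :=
    fun u h hh => pt_pr_cv hφ i (W u.1 u.2) (fun x => ⟨3 * (u.1 : ℕ) + x, hln u.1 x⟩) h hh
  have htr : ∀ (u : Σ _ : Fin N, ℕ) (h : Fin 3),
      pt (blk c n) (.tr i {1 - (i : ℕ)}) h (fun z => cl u z.2 (xq z.2) z.1) = cl u h (xq h) :=
    fun u h => pt_tr_cv hφ i (W u.1 u.2) (fun x => ⟨3 * (u.1 : ℕ) + x, hln u.1 x⟩) h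
  clear_value cl
  refine ⟨fun ι => if ι < py then fun z => cl (col (qy + ι)) 2 1 z.1
      else fun z => cl (col (qy + py + (ι - py) / 3)) ⟨(ι - py) % 3, Nat.mod_lt _ (by norm_num)⟩
        1 z.1,
    fun ι z => cl (col (qy + ι)) z.2 (xp z.2) z.1, fun ι z => cl (col ι) z.2 (xq z.2) z.1, ?_⟩
  intro j h hm l hl
  obtain ⟨ι, hι, hj⟩ := hcol ⟨j, l⟩ (mem_sigma.2 ⟨mem_univ _, mem_range.2 hl⟩)
  by_cases hq : ι < qy
  · refine ⟨xq h, xq_ne h, Or.inr (Or.inr ⟨ι, hq, h, ?_⟩)⟩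
    rw [← hclv, ← hj]
    exact htr (col ι) h
  by_cases hp : ι < qy + py
  · by_cases hh : h = 2
    · refine ⟨1, one_ne_zero, Or.inl ⟨ι - qy, by omega, ?_⟩⟩
      have h3 : qy + (ι - qy) = ι := by omega
      have h4 : ι - qy < py := by omega
      rw [← hclv, ← hj]
      beta_reduce
      rw [if_pos h4, h3, hh]
      exact ho (col ι) 2
    · refine ⟨xp h, xp_ne h, Or.inr (Or.inl ⟨ι - qy, by omega, h, hh, ?_⟩)⟩
      have h3 : qy + (ι - qy) = ι := by omega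
      rw [← hclv, ← hj]
      beta_reduce
      rw [h3]
      exact hpr (col ι) h hh
  · refine ⟨1, one_ne_zero, Or.inl ⟨py + 3 * (ι - qy - py) + h, ?_, ?_⟩⟩
    · have h3 := h.2
      omega
    · have h3 := h.2
      have h4 : ¬ (py + 3 * (ι - qy - py) + (h : ℕ) < py) := by omega
      have h5 : qy + py + (py + 3 * (ι - qy - py) + (h : ℕ) - py) / 3 = ι := by omega
      have h6 : (⟨(py + 3 * (ι - qy - py) + (h : ℕ) - py) % 3,
          Nat.mod_lt _ (by norm_num)⟩ : Fin 3) = h := by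
        apply Fin.ext
        show (py + 3 * (ι - qy - py) + (h : ℕ) - py) % 3 = h
        omega
      rw [← hclv, ← hj]
      beta_reduce
      rw [if_neg h4, h6, h5]
      exact ho (col ι) h

end Pool.Agent.KZ.BE
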