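import Pool.Agent.KZ.BE.PosA
import Pool.Agent.KZ.BE.PosB

/-!
# KZ4, block BETA, module Pos: the position

`exists_pos`: the objects of each kind are numbered.  `pos`: from `packing` (objects `ord 3 ∅`,
`pr 0 ∅`, `tr 0 ∅`, `tr 1 ∅` at the vectors `e_a + f_b`) and `columns` (block `0`: `ord 3 {1}`,
`pr 0 {1}`, `tr 0 {1}`; block `1`: `ord 3 {0}`, `pr 1 {0}`, no triples).  The other objects anywhere.
-/

set_option autoImplicit false
set_option linter.unusedSectionVars false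

namespace Pool.Agent.KZ.BE

open Finset
open Pool.Agent.V7 (msk Ex blk)
open Pool.Agent.V7.Top (IsB SF sl)

theorem exists_pos {κ K P : Type} [Fintype κ] [DecidableEq K] (rest : κ → K) (s : Multiset K)
    (h : (univ : Finset κ).val.map rest = s) (pos : K → ℕ → P) :
    ∃ p : κ → P, ∀ τ, ∀ l < s.count τ, ∃ i, rest i = τ ∧ p i = pos τ l := by
  classical
  have h1 : ∀ τ, ∃ e : {i // rest i = τ} ≃ Fin (s.count τ), True := by
    intro τ
    have h2 : Fintype.card {i // rest i = τ} = s.count τ := by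
      rw [Fintype.card_subtype, ← h, Multiset.count_map]
      show ((univ : Finset κ).filter fun i => rest i = τ).val.card = _
      rw [filter_val]
      refine congrArg Multiset.card (Multiset.filter_congr fun i _ => ?_)
      exact eq_comm
    exact ⟨Fintype.equivFinOfCardEq h2, trivial⟩
  choose e _ using h1
  refine ⟨fun i => pos (rest i) (e (rest i) ⟨i, rfl⟩), fun τ l hl => ?_⟩
  obtain ⟨⟨i, hi⟩, h2⟩ := (e τ).surjective ⟨l, hl⟩
  subst hi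
  refine ⟨i, rfl, ?_⟩
  show pos (rest i) (e (rest i) ⟨i, rfl⟩) = _
  rw [h2]

/-- The vector of a cell with the factors `x`, `x'`. -/
noncomputable def zv {n m c : ℕ} (φ : (Fin 2 × Fin c) ⊕ Fin m ≃ Fin n) (z : Fin 2 → Fin c)
    (x : Fin 2 → ℂ) : Fin n → ℂ := vec φ (fun i => Pi.single (z i) (x i)) 0

theorem zv_inl {n m c : ℕ} (φ : (Fin 2 × Fin c) ⊕ Fin m ≃ Fin n) (z : Fin 2 → Fin c)
    (x : Fin 2 → ℂ) (i : Fin 2) (a : Fin c) :
    zv φ z x (φ (Sum.inl (i, a))) = (Pi.single (z i) (x i) : Fin c → ℂ) a := by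
  unfold zv
  rw [vec_inl]

theorem msk_empty {ν : Type} (β : ν → ℕ) (q : ν → ℂ) : msk β ∅ q = q := by
  funext s
  simp [msk]

theorem zv_inr {n m c : ℕ} (φ : (Fin 2 × Fin c) ⊕ Fin m ≃ Fin n) (z : Fin 2 → Fin c)
    (x : Fin 2 → ℂ) (t : Fin m) : zv φ z x (φ (Sum.inr t)) = 0 := by
  unfold zv
  rw [vec_inr]
  rfl

/-- The factors of the points: `x` in the block `i`. -/
noncomputable def fx (i : Fin 2) (x : ℂ) : Fin 2 → ℂ := fun i' => if i' = i then x else 1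

theorem fx_same (i : Fin 2) (x : ℂ) : fx i x i = x := if_pos rfl

theorem fx_ne (i : Fin 2) {x : ℂ} (hx : x ≠ 0) (i' : Fin 2) : fx i x i' ≠ 0 := by
  unfold fx
  split_ifs
  · exact hx
  · exact one_ne_zero

theorem pt_pr_zv {n m c : ℕ} {φ : (Fin 2 × Fin c) ⊕ Fin m ≃ Fin n} (hφ : IsB φ (blk c n))
    (i : Fin 2) (Z : Fin 3 → Fin 2 → Fin c) (hz : Z 0 i = Z 1 i) (h : Fin 3) (hh : h ≠ 2) :
    pt (blk c n) (.pr i ∅) h (fun y => zv φ (Z y.2) (fx i (xp y.2)) y.1) =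
      zv φ (Z h) (fx i (xp h)) := by
  show msk (blk c n) ∅ (fun s => if h = 0 then zv φ (Z 0) (fx i (xp 0)) s else
    if blk c n s = i then - zv φ (Z 0) (fx i (xp 0)) s else zv φ (Z 1) (fx i (xp 1)) s) = _
  rw [msk_empty]
  funext s
  by_cases h0 : h = 0
  · rw [if_pos h0, h0]
  · have h1 : h = 1 := by
      apply Fin.ext
      have h2 : (h : ℕ) ≠ 0 := fun h' => h0 (Fin.ext h')
      have h3 : (h : ℕ) ≠ 2 := fun h' => hh (Fin.ext h')
      show (h : ℕ) = 1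
      omega
    subst h1
    rw [if_neg h0]
    split_ifs with h2
    · revert s
      refine cases_phi φ ?_ ?_
      · intro i' a h2
        rw [blk_inl hφ] at h2
        have h3 : i' = i := Fin.ext h2
        subst h3
        rw [zv_inl, zv_inl, fx_same, fx_same, hz, xp, xp, if_neg (by decide), if_pos rfl,
          Pi.single_neg, Pi.neg_apply]
      · intro t' h2
        have h3 := blk_inr hφ t'
        exfalso
        omega
    · rfl

theorem pt_tr_zv {n m c : ℕ} {φ : (Fin 2 × Fin c) ⊕ Fin m ≃ Fin n} (hφ : IsB φ (blk c n))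
    (i : Fin 2) (Z : Fin 3 → Fin 2 → Fin c) (hz : ∀ x x', Z x i = Z x' i) (h : Fin 3) :
    pt (blk c n) (.tr i ∅) h (fun y => zv φ (Z y.2) (fx i (xq y.2)) y.1) =
      zv φ (Z h) (fx i (xq h)) := by
  show msk (blk c n) ∅ (fun s => if h = 2 then (if blk c n s = i then
      - (zv φ (Z 0) (fx i (xq 0)) s + zv φ (Z 1) (fx i (xq 1)) s)
        else zv φ (Z 2) (fx i (xq 2)) s)
    else zv φ (Z h) (fx i (xq h)) s) = _
  rw [msk_empty]
  funext s
  by_cases h2 : h = 2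
  · subst h2
    rw [if_pos rfl]
    split_ifs with h3
    · revert s
      refine cases_phi φ ?_ ?_
      · intro i' a h2
        rw [blk_inl hφ] at h2
        have h3 : i' = i := Fin.ext h2
        subst h3
        rw [zv_inl, zv_inl, zv_inl, fx_same, fx_same, fx_same, hz 0 2, hz 1 2, xq, xq, xq,
          if_neg (by decide), if_neg (by decide), if_pos rfl, Pi.single_neg, Pi.neg_apply,
          ← Pi.add_apply, ← Pi.single_add]
        norm_num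
      · intro t' h2
        have h3 := blk_inr hφ t'
        exfalso
        omega
    · rfl
  · rw [if_neg h2]

theorem pt_ord_zv {n m c : ℕ} (φ : (Fin 2 × Fin c) ⊕ Fin m ≃ Fin n) (z : Fin 2 → Fin c)
    (x : Fin 2 → ℂ) : pt (blk c n) (.ord 3 ∅) 0 (fun y => zv φ z x y.1) = zv φ z x :=
  msk_empty _ _

theorem count_le (a : L2) : a.t ≤ a.ms.count (.ord 3 ∅) ∧ a.p ≤ a.ms.count (.pr 0 ∅) ∧
    a.q ≤ a.ms.count (.tr 0 ∅) ∧ a.r ≤ a.ms.count (.tr 1 ∅) ∧ a.u ≤ a.ms.count (.ord 3 {0}) ∧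
    a.pu ≤ a.ms.count (.pr 1 {0}) ∧ a.y ≤ a.ms.count (.ord 3 {1}) ∧
    a.py ≤ a.ms.count (.pr 0 {1}) ∧ a.qy ≤ a.ms.count (.tr 0 {1}) := by
  unfold L2.ms
  simp only [Multiset.count_add, Multiset.count_replicate_self]
  refine ⟨?_, ?_, ?_, ?_, ?_, ?_, ?_, ?_, ?_⟩ <;> omega

theorem exists_posK {P : Type} [Inhabited P] (f1 f2 f3 f4 f5 f6 f7 f8 f9 : ℕ → P) :
    ∃ g : Kd → ℕ → P, g (.ord 3 ∅) = f1 ∧ g (.pr 0 ∅) = f2 ∧ g (.tr 0 ∅) = f3 ∧
      g (.tr 1 ∅) = f4 ∧ g (.ord 3 {1}) = f5 ∧ g (.pr 0 {1}) = f6 ∧ g (.tr 0 {1}) = f7 ∧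
      g (.ord 3 {0}) = f8 ∧ g (.pr 1 {0}) = f9 := by
  refine ⟨fun k => if k = .ord 3 ∅ then f1 else if k = .pr 0 ∅ then f2 else
    if k = .tr 0 ∅ then f3 else if k = .tr 1 ∅ then f4 else if k = .ord 3 {1} then f5 else
    if k = .pr 0 {1} then f6 else if k = .tr 0 {1} then f7 else if k = .ord 3 {0} then f8 else f9,
    ?_, ?_, ?_, ?_, ?_, ?_, ?_, ?_, ?_⟩ <;> simp

theorem pos {n m c k : ℕ} (φ : (Fin 2 × Fin c) ⊕ Fin m ≃ Fin n) (hφ : IsB φ (blk c n))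
    (hk : k = 5 ∨ k = 6) (hc : k ∣ c) (hc0 : 240 ≤ c) (a : L2) (ha : Sm2 c n a)
    (hT : k * a.T = c ^ 2) {N : ℕ} (hN : 3 * N ≤ m) (τ : Fin N → Ty)
    (W : Fin N → ℕ → Fin c → ℂ)
    (h0 : 3 * ∑ j with (τ j).1 = 0, (τ j).2 ≤ a.Y)
    (h0' : a.py + a.qy ≤ ∑ j with (τ j).1 = 0, (τ j).2)
    (h1 : 3 * ∑ j with (τ j).1 = 1, (τ j).2 ≤ a.U)
    (h1' : a.pu ≤ ∑ j with (τ j).1 = 1, (τ j).2)
    (κ : Type) [Fintype κ] (rest : κ → Kd) (hr : (univ : Finset κ).val.map rest = a.ms) :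
    ∃ p₁ : κ → Fin n × Fin 3 → ℂ, HasC φ (blk c n) rest p₁ (RR c k) ∧
      ∀ (j : Fin N) (h : Fin 3) (hm : 3 * (j : ℕ) + h < m),
        HasL φ (blk c n) rest p₁ ⟨3 * j + h, hm⟩ (τ j) (W j) := by
  obtain ⟨zt, zp, zq, zr, hzp, hzq, hzr, hcov⟩ := packing hk hc hc0 a.t a.p a.q a.r
    (by rw [← hT]; rfl) (by have := ha.p; omega) (by have := ha.q; omega) ha.r
  rw [sum_filter] at h0 h0' h1 h1'
  obtain ⟨qo0, qp0, qq0, hc1⟩ := columns φ hφ 0 hN (fun j => if (τ j).1 = 0 then (τ j).2 else 0) W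
    a.y a.py a.qy h0 h0'
  obtain ⟨qo1, qp1, qq1, hc2⟩ := columns φ hφ 1 hN (fun j => if (τ j).1 = 1 then (τ j).2 else 0) W
    a.u a.pu 0 h1 h1'
  obtain ⟨g, g1, g2, g3, g4, g5, g6, g7, g8, g9⟩ := exists_posK
    (fun l (y : Fin n × Fin 3) => zv φ (zt l) (fun _ => 1) y.1)
    (fun l (y : Fin n × Fin 3) => zv φ (zp l (if y.2 = 0 then 0 else 1)) (fx 0 (xp y.2)) y.1)
    (fun l (y : Fin n × Fin 3) => zv φ (zq l y.2) (fx 0 (xq y.2)) y.1)
    (fun l (y : Fin n × Fin 3) => zv φ (zr l y.2) (fx 1 (xq y.2)) y.1)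
    qo0 qp0 qq0 qo1 qp1
  obtain ⟨p₁, hp₁⟩ := exists_pos rest a.ms hr g
  obtain ⟨e1, e2, e3, e4, e5, e6, e7, e8, e9⟩ := count_le a
  have hpt : ∀ (k' : Kd) (l : ℕ) (x : Fin 3) (P : Fin n → ℂ), l < a.ms.count k' → mu k' x = 3 →
      pt (blk c n) k' x (g k' l) = P → HasPt (blk c n) rest p₁ P := by
    intro k' l x P hl hx hP
    obtain ⟨i, h2, h3⟩ := hp₁ k' l hl
    refine ⟨i, x, ?_, ?_⟩
    · rw [h2]
      exact hx
    · rw [h2, h3]
      exact hP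
  refine ⟨p₁, ?_, ?_⟩
  · intro z hz
    rcases hcov z hz with ⟨l, hl, hz1⟩ | ⟨l, hl, x, hz1⟩ | ⟨l, hl, x, hz1⟩ | ⟨l, hl, x, hz1⟩
    · refine ⟨fun _ => 1, one_ne_zero, one_ne_zero,
        hpt (.ord 3 ∅) l 0 _ (by omega) rfl ?_⟩
      rw [g1, ← hz1]
      exact pt_ord_zv φ (zt l) _
    · obtain ⟨h, hh, hx⟩ : ∃ h : Fin 3, h ≠ 2 ∧ (if h = 0 then 0 else 1 : Fin 2) = x := by
        fin_cases x
        · exact ⟨0, by decide, rfl⟩
        · exact ⟨1, by decide, rfl⟩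
      refine ⟨fx 0 (xp h), fx_ne 0 (xp_ne h) 0, fx_ne 0 (xp_ne h) 1,
        hpt (.pr 0 ∅) l h _ (by omega) (if_neg hh) ?_⟩
      rw [g2, ← hz1, ← hx]
      exact pt_pr_zv hφ 0 (fun h => zp l (if h = 0 then 0 else 1)) (hzp l _ _) h hh
    · refine ⟨fx 0 (xq x), fx_ne 0 (xq_ne x) 0, fx_ne 0 (xq_ne x) 1,
        hpt (.tr 0 ∅) l x _ (by omega) rfl ?_⟩
      rw [g3, ← hz1]
      exact pt_tr_zv hφ 0 (fun h => zq l h) (hzq l) x
    · refine ⟨fx 1 (xq x), fx_ne 1 (xq_ne x) 0, fx_ne 1 (xq_ne x) 1,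
        hpt (.tr 1 ∅) l x _ (by omega) rfl ?_⟩
      rw [g4, ← hz1]
      exact pt_tr_zv hφ 1 (fun h => zr l h) (hzr l) x
  · intro j h hm l hl
    have h2 : (τ j).1 = 0 ∨ (τ j).1 = 1 := by
      rcases (τ j).1 with ⟨_ | _ | x, hx⟩
      · exact Or.inl rfl
      · exact Or.inr rfl
      · omega
    rcases h2 with h2 | h2
    · obtain ⟨x, hx, h3⟩ := hc1 j h hm l (by rw [if_pos h2]; exact hl)
      refine ⟨x, hx, ?_⟩
      rw [h2]
      rcases h3 with ⟨ι, hι, h4⟩ | ⟨ι, hι, x', hx', h4⟩ | ⟨ι, hι, x', h4⟩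
      · refine hpt (.ord 3 {1}) ι 0 _ (by omega) rfl ?_
        rw [g5]
        exact h4
      · refine hpt (.pr 0 {1}) ι x' _ (by omega) (if_neg hx') ?_
        rw [g6]
        exact h4
      · refine hpt (.tr 0 {1}) ι x' _ (by omega) rfl ?_
        rw [g7]
        exact h4
    · obtain ⟨x, hx, h3⟩ := hc2 j h hm l (by rw [if_pos h2]; exact hl)
      refine ⟨x, hx, ?_⟩
      rw [h2]
      rcases h3 with ⟨ι, hι, h4⟩ | ⟨ι, hι, x', hx', h4⟩ | ⟨ι, hι, x', h4⟩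
      · refine hpt (.ord 3 {0}) ι 0 _ (by omega) rfl ?_
        rw [g8]
        exact h4
      · refine hpt (.pr 1 {0}) ι x' _ (by omega) (if_neg hx') ?_
        rw [g9]
        exact h4
      · exact absurd hι (Nat.not_lt_zero ι)

end Pool.Agent.KZ.BE
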