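import Pool.Agent.KZ.BE.Sum
import Pool.Agent.KZ.BE.Form
import Pool.Agent.KZ.BE.Near
import Pool.Agent.KZ.BE.Pos

/-!
# KZ4, block BETA: the slopes at some position of a configuration of the level 2
-/

set_option autoImplicit false
set_option linter.unusedSectionVars false

namespace Pool.Agent.KZ.BE

open Finset Module Pool.Agent.H51.TB Topology
open Pool.Agent.V7 (msk Ex blk)
open Pool.Agent.V7.Top (IsB SF sl)

variable {c : ℕ}

theorem card_m {n m c : ℕ} (φ : (Fin 2 × Fin c) ⊕ Fin m ≃ Fin n) : 2 * c + m = n := by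
  have h1 := Fintype.card_congr φ
  rwa [Fintype.card_sum, Fintype.card_prod, Fintype.card_fin, Fintype.card_fin, Fintype.card_fin,
    Fintype.card_fin] at h1

/-- The bound at the position. -/
theorem at_pos {k : ℕ} (hk : k = 5 ∨ k = 6) (hc : k ∣ c) {n m : ℕ}
    (φ : (Fin 2 × Fin c) ⊕ Fin m ≃ Fin n) (hφ : IsB φ (blk c n)) {γ : ℝ} (hγ : 0 < γ)
    {D B : ℕ} (hcur : ∀ (F : Submodule ℂ ((Fin 2 → Fin c) → ℂ)) (τ τ' : Ty),
      τ.2 ≤ s0 c k + 1 → τ'.2 ≤ s0 c k + 1 → ∀ T T' : Finset ℂ,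
      ((T ×ˢ T').filter fun z => gv F τ τ' < dm F τ τ' (kc D c z.1) (kc D c z.2)).card ≤
        B * (T.card + T'.card))
    {κ : Type} (rest : κ → Kd) {N : ℕ} (hN : 3 * N ≤ m) (x : Fin N → Fin 2 × Fin 2)
    (hN2 : (1 - γ / 8) * n ≤ 3 * N)
    (hN3 : ∀ y, ((univ.filter fun j => x j = y).card : ℝ) ≤ tw c k y * n / 3)
    (p₁ : κ → Fin n × Fin 3 → ℂ) (hC : HasC φ (blk c n) rest p₁ (RR c k))
    (hL : ∀ (j : Fin N) (h : Fin 3) (hm : 3 * (j : ℕ) + h < m),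
      HasL φ (blk c n) rest p₁ ⟨3 * j + h, hm⟩ (ty c k (x j)) (kc D c (j : ℕ)))
    (F : Submodule ℂ ((Fin 2 → Fin c) → ℂ)) (hF : F ≠ ⊥)
    (hgen : ∑ x, ∑ y, tw c k x * tw c k y *
      (gv (F ⊓ CS (RR c k)) (ty c k x) (ty c k y) : ℝ) ≤ (xx - γ) * finrank ℂ F)
    (hn : 8 * (12 * (B : ℝ) + 6 * 5 ^ (2 * c)) ≤ γ * n) (hn1 : 1 ≤ n) (hxx : 0 < xx) :
    (finrank ℂ (SF φ ((LS (blk c n) 2).V rest p₁) F) : ℝ) ≤
      (1 - γ / (2 * xx)) * (xx / 2 * (n : ℝ) ^ 2) * finrank ℂ F := by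
  classical
  set E := F ⊓ CS (RR c k) with hE
  set d := finrank ℂ F with hd
  have hEd : finrank ℂ E ≤ d := Submodule.finrank_mono inf_le_left
  have hd1 : 1 ≤ d := by
    rw [Nat.one_le_iff_ne_zero]
    intro h
    exact hF (Submodule.finrank_eq_zero.1 h)
  set τo : Option (Fin N) → Ty := fun o => o.elim (0, 0) fun j => ty c k (x j) with hτo
  set Wo : Option (Fin N) → ℕ → Fin c → ℂ := fun o => o.elim 0 fun j => kc D c (j : ℕ) with hWo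
  have hL' : ∀ t : Fin m, HasL φ (blk c n) rest p₁ t (τo (clu N t)) (Wo (clu N t)) := by
    intro t
    by_cases h : (t : ℕ) / 3 < N
    · have h1 : clu N t = some ⟨(t : ℕ) / 3, h⟩ := dif_pos h
      rw [h1]
      have h2 : 3 * (((⟨(t : ℕ) / 3, h⟩ : Fin N)) : ℕ) +
          ((⟨(t : ℕ) % 3, Nat.mod_lt _ (by norm_num)⟩ : Fin 3) : ℕ) < m := by
        have h3 := t.2
        show 3 * ((t : ℕ) / 3) + (t : ℕ) % 3 < m
        omega
      have h3 := hL ⟨(t : ℕ) / 3, h⟩ ⟨(t : ℕ) % 3, Nat.mod_lt _ (by norm_num)⟩ h2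
      have h4 : (⟨3 * (((⟨(t : ℕ) / 3, h⟩ : Fin N)) : ℕ) +
          ((⟨(t : ℕ) % 3, Nat.mod_lt _ (by norm_num)⟩ : Fin 3) : ℕ), h2⟩ : Fin m) = t := by
        apply Fin.ext
        show 3 * ((t : ℕ) / 3) + (t : ℕ) % 3 = t
        omega
      rw [h4] at h3
      exact h3
    · have h1 : clu N t = none := dif_neg h
      rw [h1]
      intro l hl
      exact absurd hl (Nat.not_lt_zero l)
  have h1 := form φ hφ rest p₁ (RR c k) hC (fun t => τo (clu N t)) (fun t => Wo (clu N t)) hL' F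
  have h2 := two_sum_Ioi
    (fun t t' : Fin m => dm E (τo (clu N t)) (τo (clu N t')) (Wo (clu N t)) (Wo (clu N t')))
    fun t t' => dm_comm _ _ _ _ _
  have h3 := sum_lines hN (fun o o' => dm E (τo o) (τo o') (Wo o) (Wo o'))
    (fun o o' => (dm_le _ _ _ _ _).trans hEd)
  have h4 := sum_clusters hcur le_rfl x E hEd
  set S := ∑ t : Fin m, ∑ t' ∈ Ioi t,
    dm E (τo (clu N t)) (τo (clu N t')) (Wo (clu N t)) (Wo (clu N t')) with hS
  set Q := ∑ j : Fin N, ∑ j' : Fin N,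
    dm E (ty c k (x j)) (ty c k (x j')) (kc D c (j : ℕ)) (kc D c (j' : ℕ)) with hQ
  have h5 : 2 * S ≤ 9 * Q + 2 * m * (m - 3 * N) * d := h2.trans h3
  have h1' : finrank ℂ (SF φ ((LS (blk c n) 2).V rest p₁) F) ≤ 3 * 5 ^ (2 * c) * (m + 1) + S := h1
  have hcard := card_m φ
  have hmn : (m : ℝ) ≤ n := by exact_mod_cast (by omega : m ≤ n)
  have hm0 : (0 : ℝ) ≤ m := Nat.cast_nonneg m
  have hn0 : (1 : ℝ) ≤ n := by exact_mod_cast hn1
  have hd0 : (1 : ℝ) ≤ d := by exact_mod_cast hd1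
  have hNn : 3 * (N : ℝ) ≤ n := by
    have : (3 * N : ℕ) ≤ n := by omega
    exact_mod_cast this
  have hB0 : (0 : ℝ) ≤ B := Nat.cast_nonneg B
  have hN0 : (0 : ℝ) ≤ N := Nat.cast_nonneg N
  have h6 : ((∑ y, ∑ y', (univ.filter fun j => x j = y).card *
      ((univ.filter fun j => x j = y').card * gv E (ty c k y) (ty c k y')) : ℕ) : ℝ) ≤
      (n : ℝ) ^ 2 / 9 * ((xx - γ) * d) := by
    refine le_trans ?_ (mul_le_mul_of_nonneg_left hgen (by positivity))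
    push_cast
    rw [mul_sum]
    refine sum_le_sum fun y _ => ?_
    rw [mul_sum]
    refine sum_le_sum fun y' _ => ?_
    have e1 := hN3 y
    have e2 := hN3 y'
    have e3 : (0 : ℝ) ≤ ((univ.filter fun j => x j = y).card : ℝ) := Nat.cast_nonneg _
    have e4 : (0 : ℝ) ≤ ((univ.filter fun j => x j = y').card : ℝ) := Nat.cast_nonneg _
    have e5 : (0 : ℝ) ≤ (gv E (ty c k y) (ty c k y') : ℝ) := Nat.cast_nonneg _
    have e6 := mul_le_mul e1 (mul_le_mul_of_nonneg_right e2 e5) (mul_nonneg e4 e5)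
      (e3.trans e1)
    refine e6.trans (le_of_eq ?_)
    ring
  have h7 : (Q : ℝ) ≤ (n : ℝ) ^ 2 / 9 * ((xx - γ) * d) + 8 * B * N * d := by
    have e1 : (Q : ℝ) ≤ ((∑ y, ∑ y', (univ.filter fun j => x j = y).card *
      ((univ.filter fun j => x j = y').card * gv E (ty c k y) (ty c k y')) + 8 * B * N * d : ℕ) :
        ℝ) := by exact_mod_cast h4
    rw [Nat.cast_add] at e1
    refine e1.trans (add_le_add h6 (le_of_eq ?_))
    push_cast
    ring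
  have h8 : ((m - 3 * N : ℕ) : ℝ) ≤ γ / 8 * n := by
    rw [Nat.cast_sub hN]
    push_cast
    linarith
  have h9 : 2 * (S : ℝ) ≤ 9 * Q + 2 * m * ((m - 3 * N : ℕ) : ℝ) * d := by exact_mod_cast h5
  have h10 : (finrank ℂ (SF φ ((LS (blk c n) 2).V rest p₁) F) : ℝ) ≤
      3 * 5 ^ (2 * c) * (m + 1) + S := by exact_mod_cast h1'
  have h11 : 2 * (m : ℝ) * ((m - 3 * N : ℕ) : ℝ) * d ≤ 2 * n * (γ / 8 * n) * d := by
    have e1 : (0 : ℝ) ≤ ((m - 3 * N : ℕ) : ℝ) := Nat.cast_nonneg _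
    have e2 : (m : ℝ) * ((m - 3 * N : ℕ) : ℝ) ≤ n * (γ / 8 * n) :=
      mul_le_mul hmn h8 e1 (by linarith)
    have e3 := mul_le_mul_of_nonneg_right e2 (by linarith : (0 : ℝ) ≤ d)
    linarith
  have h12 : (3 : ℝ) * 5 ^ (2 * c) * (m + 1) ≤ 6 * 5 ^ (2 * c) * n * d := by
    have e1 : (0 : ℝ) ≤ 5 ^ (2 * c) := by positivity
    have e2 : ((m : ℝ) + 1) ≤ 2 * n * d := by nlinarith
    have e3 := mul_le_mul_of_nonneg_left e2 e1
    linarith
  have h13 : 8 * (B : ℝ) * N * d ≤ 8 / 3 * B * n * d := by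
    have e1 : (B : ℝ) * (3 * N) ≤ B * n := mul_le_mul_of_nonneg_left hNn hB0
    have e2 := mul_le_mul_of_nonneg_right e1 (by linarith : (0 : ℝ) ≤ d)
    linarith
  have h14 : 8 * (12 * (B : ℝ) + 6 * 5 ^ (2 * c)) * (n * d) ≤ γ * n * (n * d) :=
    mul_le_mul_of_nonneg_right hn (by positivity)
  have h15 : (1 - γ / (2 * xx)) * (xx / 2 * (n : ℝ) ^ 2) * d =
      (xx / 2 - γ / 4) * (n : ℝ) ^ 2 * d := by
    field_simp
    ring
  rw [h15]
  nlinarith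

theorem beta_k {k : ℕ} (hk : k = 5 ∨ k = 6) (hc : k ∣ c) (hc0 : 240 ≤ c) :
    ∃ δ : ℝ, 0 < δ ∧ ∃ e : ℝ, 0 < e ∧ ∃ n₀ : ℕ, ∀ n, n₀ ≤ n →
      ∀ (m : ℕ) (φ : (Fin 2 × Fin c) ⊕ Fin m ≃ Fin n), IsB φ (blk c n) →
      ∀ a : L2, Cls2' c n e k a →
      ∀ (κ : Type) [Fintype κ] (rest : κ → Kd), (univ : Finset κ).val.map rest = a.ms →
        ∃ p₁ : κ → Fin n × Fin 3 → ℂ, ∀ᶠ p in nhds p₁,
          ∀ F : Submodule ℂ ((Fin 2 → Fin c) → ℂ), F ≠ ⊥ → finrank ℂ F + a.T < c ^ 2 →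
            (finrank ℂ (SF φ ((LS (blk c n) 2).V rest p) F) : ℝ) ≤
              (1 - δ) * (xx / 2 * (n : ℝ) ^ 2) * finrank ℂ F := by
  have hc60 : 60 ≤ c := by omega
  have hxx : 0 < xx := by
    have := xx_lo
    linarith
  obtain ⟨γ, hγ0, hγ1, hgen⟩ := gen hk hc hc60
  obtain ⟨D, B, hcur⟩ := curve2 c (s0 c k + 1)
  obtain ⟨e, he, n₀, hnum⟩ := nums hk hc hc0 (γ / 8) (by positivity)
  refine ⟨γ / (2 * xx), by positivity, e, he,
    n₀ + ⌈8 * (12 * (B : ℝ) + 6 * 5 ^ (2 * c)) / γ⌉₊ + 1, ?_⟩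
  intro n hn m φ hφ a ha κ _ rest hr
  obtain ⟨N, x, hN1, hN2, hN3, q0, q0', q1, q1'⟩ := hnum n (by omega) a ha
  have hcard := card_m φ
  have hN : 3 * N ≤ m := by omega
  obtain ⟨p₁, hC, hL⟩ := pos φ hφ hk hc hc0 a ha.toSm2 ha.T hN (fun j => ty c k (x j))
    (fun j => kc D c (j : ℕ)) q0 q0' q1 q1' κ rest hr
  refine ⟨p₁, near φ hφ rest _ a.T p₁ fun F hF hT => ?_⟩
  have hRR : finrank ℂ F < (RR c k).card := by
    have hk0 : 0 < k := by omega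
    rw [card_RR hk0 hc]
    obtain ⟨q, hq⟩ := hc
    have h1 : k * a.T = k * (c * q) := by
      rw [ha.T, pow_two]
      calc c * c = c * (k * q) := by rw [← hq]
        _ = k * (c * q) := by ring
    have h2 : a.T = c * q := Nat.eq_of_mul_eq_mul_left hk0 h1
    have h3 : c / k = q := by
      rw [hq, Nat.mul_div_cancel_left q hk0]
    have h4 : c * (c - q) = c ^ 2 - c * q := by
      rw [Nat.mul_sub, pow_two]
    rw [h3, h4]
    omega
  have hnr : 8 * (12 * (B : ℝ) + 6 * 5 ^ (2 * c)) ≤ γ * n := by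
    have h1 : 8 * (12 * (B : ℝ) + 6 * 5 ^ (2 * c)) / γ ≤ n := by
      refine (Nat.le_ceil _).trans ?_
      exact_mod_cast (by omega : ⌈8 * (12 * (B : ℝ) + 6 * 5 ^ (2 * c)) / γ⌉₊ ≤ n)
    rw [div_le_iff₀ hγ0] at h1
    linarith
  exact at_pos hk hc φ hφ hγ0 hcur rest hN x hN2 hN3 p₁ hC hL F hF (hgen F hF hRR) hnr
    (by omega) hxx

theorem cls_mono {n k : ℕ} {e e' : ℝ} (h : e ≤ e') {a : L2} (ha : Cls2' c n e k a) :
    Cls2' c n e' k a := by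
  have h1 : e * n ≤ e' * n := mul_le_mul_of_nonneg_right h (Nat.cast_nonneg n)
  exact ⟨ha.toSm2, ha.T, ha.U.trans h1, ha.Y.trans h1⟩

/-- BETA. -/
theorem beta (hc : 60 ∣ c) (hc0 : 240 ≤ c) : BETA c := by
  obtain ⟨δ, hδ, e, he, n₀, h⟩ := beta_k (c := c) (Or.inl rfl : (5 = 5 ∨ 5 = 6))
    ((by norm_num : 5 ∣ 60).trans hc) hc0
  obtain ⟨δ', hδ', e', he', n₀', h'⟩ := beta_k (c := c) (Or.inr rfl : (6 = 5 ∨ 6 = 6))
    ((by norm_num : 6 ∣ 60).trans hc) hc0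
  have hxx : 0 < xx := by
    have := xx_lo
    linarith
  refine ⟨min δ δ', lt_min hδ hδ', min e e', lt_min he he', max n₀ n₀', ?_⟩
  intro n hn m φ hφ k hk a ha _ κ _ rest hr
  have key : ∀ δ₁ : ℝ, min δ δ' ≤ δ₁ → ∀ (F : Submodule ℂ ((Fin 2 → Fin c) → ℂ)) (v : ℝ),
      v ≤ (1 - δ₁) * (xx / 2 * (n : ℝ) ^ 2) * finrank ℂ F →
      v ≤ (1 - min δ δ') * finrank ℂ F * (xx / 2 * (n : ℝ) ^ 2) := by
    intro δ₁ h1 F v hv
    refine hv.trans ?_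
    have h2 : 0 ≤ (xx / 2 * (n : ℝ) ^ 2) * finrank ℂ F := by positivity
    nlinarith
  rcases hk with rfl | rfl
  · obtain ⟨p₁, hp⟩ := h n ((le_max_left _ _).trans hn) m φ hφ a
      (cls_mono (min_le_left _ _) ha) κ rest hr
    refine ⟨p₁, hp.mono fun p hp F hF hT => ?_⟩
    exact key δ (min_le_left _ _) F _ (hp F hF hT)
  · obtain ⟨p₁, hp⟩ := h' n ((le_max_right _ _).trans hn) m φ hφ a
      (cls_mono (min_le_right _ _) ha) κ rest hr
    refine ⟨p₁, hp.mono fun p hp F hF hT => ?_⟩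
    exact key δ' (min_le_right _ _) F _ (hp F hF hT)

end Pool.Agent.KZ.BE
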