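import Pool.Agent.KZ.BE.Gv

/-!
# KZ4, BETA: initial monomial subspaces, slices of monomial subspaces in one slot, strictness
-/

set_option autoImplicit false

namespace Pool.Agent.KZ.BG

open Finset MvPolynomial Module Pool.Agent.H51.TB

variable {c : ℕ}

/-- The weights. -/
def wt (f : Fin 2 → Fin c) : ℕ := c * (f 0).1 + (f 1).1

theorem wt_inj {f g : Fin 2 → Fin c} (h : wt f = wt g) : f = g := by
  have h0 : 0 < c := lt_of_le_of_lt (Nat.zero_le _) (f 0).2
  unfold wt at h
  have e1 : (f 0).1 = (g 0).1 := by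
    have h1 : (c * (f 0).1 + (f 1).1) / c = (f 0).1 := by
      rw [Nat.mul_add_div h0, Nat.div_eq_of_lt (f 1).2, add_zero]
    have h2 : (c * (g 0).1 + (g 1).1) / c = (g 0).1 := by
      rw [Nat.mul_add_div h0, Nat.div_eq_of_lt (g 1).2, add_zero]
    rw [← h1, h, h2]
  have e2 : (f 1).1 = (g 1).1 := by
    rw [e1] at h
    omega
  funext k
  rcases Fin.exists_fin_two.mp ⟨k, rfl⟩ with rfl | rfl
  · exact Fin.ext e1
  · exact Fin.ext e2

/-- Echelon bases. -/
theorem exists_echelon (E : Submodule ℂ (Bil c)) :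
    ∃ (S : Finset (Fin 2 → Fin c)) (g : {f // f ∈ S} → Bil c), LinearIndependent ℂ g ∧
      Submodule.span ℂ (Set.range g) = E ∧ (∀ s, g s ∈ E) ∧ (∀ s, g s s.1 = 1) ∧
      ∀ s f, wt f < wt s.1 → g s f = 0 := by
  classical
  let S : Finset (Fin 2 → Fin c) := univ.filter fun f => ∃ g ∈ E, g f ≠ 0 ∧
    ∀ f', wt f' < wt f → g f' = 0
  have hS : ∀ s : {f // f ∈ S}, ∃ g ∈ E, g s.1 = 1 ∧ ∀ f', wt f' < wt s.1 → g f' = 0 := by
    rintro ⟨s, hs⟩
    obtain ⟨g, hg, h1, h2⟩ := (mem_filter.mp hs).2
    refine ⟨(g s)⁻¹ • g, E.smul_mem _ hg, ?_, fun f' hf' => ?_⟩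
    · rw [Pi.smul_apply, smul_eq_mul, inv_mul_cancel₀ h1]
    · rw [Pi.smul_apply, h2 f' hf', smul_zero]
  choose g hgE hg1 hg0 using hS
  have hli : LinearIndependent ℂ g := by
    rw [Fintype.linearIndependent_iff]
    intro x hx
    by_contra hcon
    push Not at hcon
    obtain ⟨s₀, hs₀⟩ := hcon
    obtain ⟨s, hs, hmin⟩ := Finset.exists_min_image (univ.filter fun s => x s ≠ 0)
      (fun s => wt s.1) ⟨s₀, mem_filter.mpr ⟨mem_univ _, hs₀⟩⟩
    have h1 := congrFun hx s.1
    rw [Finset.sum_apply, Finset.sum_eq_single s] at h1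
    · rw [Pi.smul_apply, hg1, smul_eq_mul, mul_one] at h1
      exact (mem_filter.mp hs).2 h1
    · intro s' _ hs'
      rw [Pi.smul_apply]
      by_cases hx' : x s' = 0
      · rw [hx', zero_smul]
      · have h2 := hmin s' (mem_filter.mpr ⟨mem_univ _, hx'⟩)
        have h3 : wt s.1 < wt s'.1 := lt_of_le_of_ne h2 fun h =>
          hs' (Subtype.ext (wt_inj h)).symm
        rw [hg0 s' _ h3, smul_zero]
    · intro h
      exact absurd (mem_univ s) h
  have hle : Submodule.span ℂ (Set.range g) ≤ E := by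
    rw [Submodule.span_le]
    rintro _ ⟨s, rfl⟩
    exact hgE s
  have hcard : finrank ℂ E ≤ S.card := by
    let Φ : E →ₗ[ℂ] ({f // f ∈ S} → ℂ) :=
      { toFun := fun g f => g.1 f.1
        map_add' := fun g h => rfl
        map_smul' := fun z g => rfl }
    have hΦ : Function.Injective Φ := by
      rw [← LinearMap.ker_eq_bot, LinearMap.ker_eq_bot']
      intro y hy
      by_contra hy0
      have h1 : (y : Bil c) ≠ 0 := fun h => hy0 (Subtype.ext h)
      obtain ⟨f₀, hf₀⟩ := Function.ne_iff.mp h1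
      obtain ⟨f, hf, hmin⟩ := Finset.exists_min_image (univ.filter fun f => (y : Bil c) f ≠ 0)
        (fun f => wt f) ⟨f₀, mem_filter.mpr ⟨mem_univ _, hf₀⟩⟩
      have h2 : f ∈ S := by
        refine mem_filter.mpr ⟨mem_univ _, y.1, y.2, (mem_filter.mp hf).2, fun f' hf' => ?_⟩
        by_contra h3
        exact absurd (hmin f' (mem_filter.mpr ⟨mem_univ _, h3⟩)) (not_le.mpr hf')
      exact (mem_filter.mp hf).2 (congrFun hy ⟨f, h2⟩)
    have h1 := LinearMap.finrank_le_finrank_of_injective hΦ
    rwa [Module.finrank_fintype_fun_eq_card, Fintype.card_coe] at h1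
  refine ⟨S, g, hli, ?_, hgE, hg1, hg0⟩
  refine Submodule.eq_of_le_of_finrank_le hle ?_
  rw [finrank_span_eq_card hli, Fintype.card_coe]
  exact hcard

/-- The initial monomial subspace: same dimension, the generic values do not decrease. -/
theorem exists_init (R : Finset (Fin 2 → Fin c)) (E : Submodule ℂ (Bil c)) (hE : E ≤ CS R) :
    ∃ S ⊆ R, S.card = finrank ℂ E ∧ ∀ (i j : Fin 2) (n n' : ℕ),
      gv i j n n' E ≤ gv i j n n' (CS S) := by
  classical
  obtain ⟨S, g, hli, hspan, hgE, hg1, hg0⟩ := exists_echelon E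
  refine ⟨S, ?_, ?_, ?_⟩
  · intro s hs
    by_contra hsR
    have h1 := (mem_CS _ _).mp (hE (hgE ⟨s, hs⟩)) s hsR
    rw [hg1 ⟨s, hs⟩] at h1
    exact one_ne_zero h1
  · rw [← hspan, finrank_span_eq_card hli, Fintype.card_coe]
  · intro i j n n'
    obtain ⟨p, hp⟩ := gv_attained i j n n' (CS S)
    let A : (Fin n ⊕ Fin n') × (Fin 2 → Fin c) → {f // f ∈ S} → MvPolynomial Unit ℂ := fun r l =>
      ∑ b, C (p r.1 b * g l (Function.update r.2 (sl i j r.1) b)) *
        X () ^ (wt (Function.update r.2 (sl i j r.1) b) - wt l.1)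
    have hA : ∀ (t : ℂ) r l, aeval (fun _ : Unit => t) (A r l) =
        ∑ b, p r.1 b * (t ^ (wt (Function.update r.2 (sl i j r.1) b) - wt l.1) *
          g l (Function.update r.2 (sl i j r.1) b)) := by
      intro t r l
      simp only [A, map_sum, map_mul, map_pow, aeval_X, aeval_C]
      refine sum_congr rfl fun b _ => ?_
      rw [Algebra.algebraMap_self, RingHom.id_apply, RingHom.id_apply]
      ring
    obtain ⟨G, hG, h⟩ := exists_poly A (fun _ : Unit => (0 : ℂ))
    obtain ⟨t, ht0, ht⟩ : ∃ t : ℂ, t ≠ 0 ∧ aeval (fun _ : Unit => t) G ≠ 0 := by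
      have h1 : (X () : MvPolynomial Unit ℂ) * G ≠ 0 :=
        mul_ne_zero (X_ne_zero _) fun h0 => hG (by rw [h0, map_zero])
      obtain ⟨a, ha⟩ : ∃ a : Unit → ℂ, eval a (X () * G) ≠ 0 := by
        by_contra hcon
        push Not at hcon
        exact h1 (MvPolynomial.funext fun a => by rw [hcon a, map_zero])
      rw [map_mul, eval_X] at ha
      refine ⟨a (), left_ne_zero_of_mul ha, ?_⟩
      rw [aeval_eq_eval]
      exact right_ne_zero_of_mul ha
    have h2 := h _ ht
    let x : Fin 2 → Fin c → ℂ := fun k a => if k = 0 then t ^ (c * a.1) else t ^ a.1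
    have hx0 : ∀ k a, x k a ≠ 0 := by
      intro k a
      simp only [x]
      split_ifs
      · exact pow_ne_zero _ ht0
      · exact pow_ne_zero _ ht0
    have hx : ∀ (y : Bil c) f, sc x y f = t ^ wt f * y f := by
      intro y f
      rw [sc_apply, Fin.prod_univ_two]
      simp only [x, if_true]
      rw [if_neg (by decide : ¬ (1 : Fin 2) = 0), ← pow_add]
      rfl
    -- the basis of the translate
    let gt : {f // f ∈ S} → Bil c := fun l f => t ^ (wt f - wt l.1) * g l f
    have hgt : ∀ l, gt l = (t ^ wt l.1)⁻¹ • sc x (g l) := by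
      intro l
      funext f
      rw [Pi.smul_apply, hx, smul_eq_mul]
      by_cases hf : wt f < wt l.1
      · show t ^ (wt f - wt l.1) * g l f = _
        rw [hg0 l f hf]
        ring
      · show t ^ (wt f - wt l.1) * g l f = _
        have h3 : t ^ wt f = t ^ wt l.1 * t ^ (wt f - wt l.1) := by
          rw [← pow_add]
          congr 1
          omega
        rw [h3, ← mul_assoc, ← mul_assoc, inv_mul_cancel₀ (pow_ne_zero _ ht0), one_mul]
    have hgtli : LinearIndependent ℂ gt := by
      have h3 : LinearIndependent ℂ fun l => sc x (g l) :=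
        hli.map' (sc x) (LinearMap.ker_eq_bot.mpr (sc_inj x hx0))
      have h4 := h3.units_smul fun l : {f // f ∈ S} =>
        Units.mk0 (t ^ wt l.1)⁻¹ (inv_ne_zero (pow_ne_zero _ ht0))
      have h5 : gt = (fun l : {f // f ∈ S} =>
          Units.mk0 (t ^ wt l.1)⁻¹ (inv_ne_zero (pow_ne_zero _ ht0))) •
          fun l : {f // f ∈ S} => sc x (g l) := by
        funext l
        rw [hgt l]
        rfl
      rw [h5]
      exact h4
    have hgtspan : Submodule.span ℂ (Set.range gt) = E.map (sc x) := by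
      refine Submodule.eq_of_le_of_finrank_le ?_ ?_
      · rw [Submodule.span_le]
        rintro _ ⟨l, rfl⟩
        rw [hgt l]
        exact Submodule.smul_mem _ _ ⟨g l, hgE l, rfl⟩
      · rw [finrank_span_eq_card hgtli, ← finrank_span_eq_card hli, hspan]
        exact Submodule.finrank_map_le _ _
    have hS1 : LinearIndependent ℂ fun l : {f // f ∈ S} => (Pi.single l.1 (1 : ℂ) : Bil c) := by
      have h3 := (Pi.basisFun ℂ (Fin 2 → Fin c)).linearIndependent
      have h4 := h3.comp (fun l : {f // f ∈ S} => l.1) Subtype.val_injective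
      have h5 : (fun l : {f // f ∈ S} => (Pi.single l.1 (1 : ℂ) : Bil c)) =
          (⇑(Pi.basisFun ℂ (Fin 2 → Fin c)) ∘ fun l : {f // f ∈ S} => l.1) := by
        funext l
        rw [Function.comp_apply, Pi.basisFun_apply]
      rw [h5]
      exact h4
    have hS2 : Submodule.span ℂ (Set.range fun l : {f // f ∈ S} =>
        (Pi.single l.1 (1 : ℂ) : Bil c)) = CS S := by
      refine Submodule.eq_of_le_of_finrank_le ?_ ?_
      · rw [Submodule.span_le]
        rintro _ ⟨l, rfl⟩
        rw [SetLike.mem_coe, mem_CS]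
        intro f hf
        exact Pi.single_eq_of_ne (fun h => hf (by rw [h]; exact l.2)) _
      · rw [finrank_span_eq_card hS1, finrank_CS, Fintype.card_coe]
    rw [← gv_sc i j n n' E x hx0, ← hp]
    refine (gv_le i j _ p).trans ?_
    rw [finrank_Sl_eq i j gt hgtli _ hgtspan, finrank_Sl_eq i j _ hS1 _ hS2]
    have e1 : (fun r l => aeval (fun _ : Unit => t) (A r l)) =
        fun (r : (Fin n ⊕ Fin n') × (Fin 2 → Fin c)) (l : {f // f ∈ S}) =>
          ∑ b, p r.1 b * gt l (Function.update r.2 (sl i j r.1) b) := by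
      funext r l
      rw [hA]
    have e2 : (fun r l => aeval (fun _ : Unit => (0 : ℂ)) (A r l)) =
        fun (r : (Fin n ⊕ Fin n') × (Fin 2 → Fin c)) (l : {f // f ∈ S}) =>
          ∑ b, p r.1 b * (Pi.single l.1 (1 : ℂ) : Bil c)
            (Function.update r.2 (sl i j r.1) b) := by
      funext r l
      rw [hA]
      refine sum_congr rfl fun b _ => ?_
      congr 1
      set f := Function.update r.2 (sl i j r.1) b with hf
      by_cases h3 : f = l.1
      · rw [h3, Pi.single_eq_same, Nat.sub_self, pow_zero, hg1, one_mul]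
      · rw [Pi.single_eq_of_ne h3]
        by_cases h4 : wt f < wt l.1
        · rw [hg0 l f h4, mul_zero]
        · have h5 : wt f ≠ wt l.1 := fun h => h3 (wt_inj h)
          rw [zero_pow (by omega), zero_mul]
    rw [← e1, ← e2]
    exact h2

/-- One line. -/
theorem gv_line (i : Fin 2) (n n' : ℕ) (T : Finset (Fin 2 → Fin c)) :
    gv i i n n' (CS T) ≤ T.card - (n + n') := by
  classical
  obtain ⟨T', hT', hcard⟩ := Finset.exists_subset_card_eq (s := T) (n := min T.card (n + n'))
    (min_le_left _ _)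
  have h1 : Fintype.card {f // f ∈ T'} ≤ Fintype.card (Fin n ⊕ Fin n') := by
    rw [Fintype.card_coe, hcard, Fintype.card_sum, Fintype.card_fin, Fintype.card_fin]
    exact min_le_right _ _
  obtain ⟨e⟩ := Function.Embedding.nonempty_of_card_le h1
  let p : Fin n ⊕ Fin n' → Fin c → ℂ := fun s b =>
    if ∃ t : {f // f ∈ T'}, e t = s ∧ t.1 i = b then 1 else 0
  have h2 : Sl i i (CS T) p ≤ CS (T \ T') := by
    intro g hg
    rw [mem_Sl] at hg
    obtain ⟨hg1, hg2⟩ := hg
    rw [mem_CS]
    intro f hf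
    rw [mem_sdiff, not_and_or, not_not] at hf
    rcases hf with hf | hf
    · exact (mem_CS _ _).mp hg1 f hf
    · have h3 := hg2 (e ⟨f, hf⟩) f
      have h4 : sl i i (e ⟨f, hf⟩) = i := by
        rcases e ⟨f, hf⟩ with s | s
        · rfl
        · rfl
      rw [h4, Finset.sum_eq_single (f i)] at h3
      · rw [Function.update_eq_self] at h3
        have h5 : p (e ⟨f, hf⟩) (f i) = 1 := if_pos ⟨⟨f, hf⟩, rfl, rfl⟩
        rwa [h5, one_mul] at h3
      · intro b _ hb
        have h5 : p (e ⟨f, hf⟩) b = 0 := by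
          refine if_neg ?_
          rintro ⟨t, ht, htb⟩
          have h6 := e.injective ht
          apply hb
          rw [← htb, h6]
        rw [h5, zero_mul]
      · intro h
        exact absurd (mem_univ _) h
  refine (gv_le i i _ p).trans ((Submodule.finrank_mono h2).trans ?_)
  rw [finrank_CS, card_sdiff_of_subset hT', hcard]
  omega

/-- Slices of monomial subspaces, all vectors in the slot `i`: lines in the direction `i`. -/
theorem gv_mono_le (i : Fin 2) (n n' : ℕ) (S : Finset (Fin 2 → Fin c)) :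
    gv i i n n' (CS S) ≤ ∑ a : Fin c, ((S.filter fun f => f (i + 1) = a).card - (n + n')) := by
  classical
  obtain ⟨p, hp⟩ := (Gn.all (κ := Fin n ⊕ Fin n') (ν := Fin c) (univ : Finset (Fin c))
    (P := fun a p => finrank ℂ (Sl i i (CS (S.filter fun f => f (i + 1) = a)) p) =
      gv i i n n' (CS (S.filter fun f => f (i + 1) = a)))
    fun a _ => gn_gv i i n n' _).exists
  have hi : i + 1 ≠ i := by
    rcases Fin.exists_fin_two.mp ⟨i, rfl⟩ with rfl | rfl
    · decide
    · decide
  have hsl : ∀ s : Fin n ⊕ Fin n', sl i i s = i := by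
    rintro (s | s)
    · rfl
    · rfl
  refine (gv_le i i _ p).trans ?_
  let Φ : Sl i i (CS S) p →ₗ[ℂ] (∀ a : Fin c, Sl i i (CS (S.filter fun f => f (i + 1) = a)) p) :=
    { toFun := fun g a => ⟨fun f => if f (i + 1) = a then g.1 f else 0, by
        obtain ⟨g1, g2⟩ := (mem_Sl _ _ _ _ _).mp g.2
        rw [mem_Sl]
        refine ⟨?_, fun s f => ?_⟩
        · rw [mem_CS]
          intro f hf
          split_ifs with h
          · exact (mem_CS _ _).mp g1 f fun hfS => hf (mem_filter.mpr ⟨hfS, h⟩)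
          · rfl
        · rw [hsl]
          have h1 : ∀ b, Function.update f i b (i + 1) = f (i + 1) := fun b =>
            Function.update_of_ne hi _ _
          simp only [h1]
          split_ifs with h
          · have h2 := g2 s f
            rw [hsl] at h2
            exact h2
          · simp⟩
      map_add' := by
        intro g h
        funext a
        apply Subtype.ext
        funext f
        show (if f (i + 1) = a then (g.1 + h.1) f else 0) =
          (if f (i + 1) = a then g.1 f else 0) + (if f (i + 1) = a then h.1 f else 0)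
        split_ifs
        · rfl
        · rw [add_zero]
      map_smul' := by
        intro z g
        funext a
        apply Subtype.ext
        funext f
        show (if f (i + 1) = a then (z • g.1) f else 0) =
          z * (if f (i + 1) = a then g.1 f else 0)
        split_ifs
        · rfl
        · rw [mul_zero] }
  have hΦ : Function.Injective Φ := by
    rw [← LinearMap.ker_eq_bot, LinearMap.ker_eq_bot']
    intro g hg
    apply Subtype.ext
    funext f
    have h1 := congrFun (congrArg Subtype.val (congrFun hg (f (i + 1)))) f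
    have h2 : (if f (i + 1) = f (i + 1) then g.1 f else 0) = 0 := h1
    rw [if_pos rfl] at h2
    exact h2
  have h1 := LinearMap.finrank_le_finrank_of_injective hΦ
  rw [Module.finrank_pi_fintype] at h1
  refine h1.trans (sum_le_sum fun a _ => ?_)
  rw [hp a (mem_univ a)]
  exact gv_line i n n' _

theorem card_line {T r₀ N : ℕ} (h : T ≤ r₀) (hN : N < r₀) :
    (T - N) * r₀ ≤ (r₀ - N) * T := by
  by_cases h1 : T ≤ N
  · rw [Nat.sub_eq_zero_of_le h1, zero_mul]
    exact Nat.zero_le _
  · obtain ⟨x, rfl⟩ := Nat.exists_eq_add_of_le (le_of_lt (not_le.mp h1))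
    obtain ⟨y, rfl⟩ := Nat.exists_eq_add_of_le h
    rw [Nat.add_sub_cancel_left, show N + x + y - N = x + y by omega]
    nlinarith

theorem card_line_lt {T r₀ N : ℕ} (h : T ≤ r₀) (hN : N < r₀) (h0 : T ≠ 0) (h1 : T ≠ r₀)
    (hN1 : 1 ≤ N) : (T - N) * r₀ < (r₀ - N) * T := by
  by_cases h2 : T ≤ N
  · rw [Nat.sub_eq_zero_of_le h2, zero_mul]
    exact Nat.mul_pos (by omega) (by omega)
  · obtain ⟨x, rfl⟩ := Nat.exists_eq_add_of_le (le_of_lt (not_le.mp h2))
    obtain ⟨y, rfl⟩ := Nat.exists_eq_add_of_le h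
    rw [Nat.add_sub_cancel_left, show N + x + y - N = x + y by omega]
    have hy : 1 ≤ y := by omega
    have : 1 ≤ N * y := Nat.mul_pos hN1 hy
    nlinarith

/-- One slot. -/
theorem gv_dir (i : Fin 2) (R S : Finset (Fin 2 → Fin c)) (hS : S ⊆ R) (r₀ n n' : ℕ)
    (hr : ∀ (i : Fin 2) (a : Fin c), (R.filter fun f => f i = a).card = r₀)
    (hn : 1 ≤ n + n') (hn' : n + n' < r₀) (E : Submodule ℂ (Bil c))
    (hE : gv i i n n' E ≤ gv i i n n' (CS S)) (hcard : S.card = finrank ℂ E) :
    gv i i n n' E * r₀ ≤ (r₀ - (n + n')) * finrank ℂ E ∧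
    (gv i i n n' E * r₀ < (r₀ - (n + n')) * finrank ℂ E ∨
      ∀ f ∈ S, ∀ g ∈ R, g (i + 1) = f (i + 1) → g ∈ S) := by
  classical
  have h1 := hE.trans (gv_mono_le i n n' S)
  have hT : ∀ a : Fin c, (S.filter fun f => f (i + 1) = a).card ≤ r₀ := by
    intro a
    rw [← hr (i + 1) a]
    exact card_le_card (filter_subset_filter _ hS)
  have hsum : ∑ a : Fin c, (S.filter fun f => f (i + 1) = a).card = S.card :=
    (card_eq_sum_card_fiberwise (fun f _ => mem_univ (f (i + 1)))).symm
  have h2 : gv i i n n' E * r₀ ≤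
      ∑ a : Fin c, ((S.filter fun f => f (i + 1) = a).card - (n + n')) * r₀ := by
    rw [← sum_mul]
    exact Nat.mul_le_mul_right _ h1
  have h3 : (r₀ - (n + n')) * finrank ℂ E =
      ∑ a : Fin c, (r₀ - (n + n')) * (S.filter fun f => f (i + 1) = a).card := by
    rw [← mul_sum, hsum, hcard]
  rw [h3]
  refine ⟨h2.trans (sum_le_sum fun a _ => card_line (hT a) hn'), ?_⟩
  by_cases hall : ∀ a : Fin c, (S.filter fun f => f (i + 1) = a).card = 0 ∨
      (S.filter fun f => f (i + 1) = a).card = r₀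
  · right
    intro f hf g hg hgf
    have h4 : (S.filter fun f' => f' (i + 1) = f (i + 1)).card = r₀ := by
      rcases hall (f (i + 1)) with h5 | h5
      · rw [card_eq_zero] at h5
        have h6 : f ∈ (S.filter fun f' => f' (i + 1) = f (i + 1)) := mem_filter.mpr ⟨hf, rfl⟩
        rw [h5] at h6
        exact absurd h6 (notMem_empty f)
      · exact h5
    have h5 : (S.filter fun f' => f' (i + 1) = f (i + 1)) =
        R.filter fun f' => f' (i + 1) = f (i + 1) :=
      eq_of_subset_of_card_le (filter_subset_filter _ hS) (by rw [h4, hr])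
    have h6 : g ∈ R.filter fun f' => f' (i + 1) = f (i + 1) := mem_filter.mpr ⟨hg, hgf⟩
    rw [← h5] at h6
    exact (mem_filter.mp h6).1
  · left
    push Not at hall
    obtain ⟨a, ha0, ha1⟩ := hall
    refine lt_of_le_of_lt h2 (sum_lt_sum (fun a _ => card_line (hT a) hn') ⟨a, mem_univ a, ?_⟩)
    exact card_line_lt (hT a) hn' ha0 ha1 hn

/-- Both slots together are strict on proper nonzero subspaces. -/
theorem gv_strict (R : Finset (Fin 2 → Fin c)) (r₀ n n' l l' : ℕ)
    (hr : ∀ (i : Fin 2) (a : Fin c), (R.filter fun f => f i = a).card = r₀)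
    (hn : 1 ≤ n + n') (hl : 1 ≤ l + l') (hn' : n + n' < r₀) (hl' : l + l' < r₀)
    (hconn : ∀ S ⊆ R, (∀ (i : Fin 2), ∀ f ∈ S, ∀ g ∈ R, g i = f i → g ∈ S) → S = ∅ ∨ S = R)
    (E : Submodule ℂ (Bil c)) (hE : E ≤ CS R) (h0 : E ≠ ⊥) (h1 : finrank ℂ E < R.card) :
    gv 0 0 n n' E * r₀ ≤ (r₀ - (n + n')) * finrank ℂ E ∧
    gv 1 1 l l' E * r₀ ≤ (r₀ - (l + l')) * finrank ℂ E ∧
    (gv 0 0 n n' E * r₀ < (r₀ - (n + n')) * finrank ℂ E ∨
      gv 1 1 l l' E * r₀ < (r₀ - (l + l')) * finrank ℂ E) := by
  obtain ⟨S, hS, hcard, hv⟩ := exists_init R E hE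
  obtain ⟨a1, a2⟩ := gv_dir 0 R S hS r₀ n n' hr hn hn' E (hv 0 0 n n') hcard
  obtain ⟨b1, b2⟩ := gv_dir 1 R S hS r₀ l l' hr hl hl' E (hv 1 1 l l') hcard
  refine ⟨a1, b1, ?_⟩
  rcases a2 with a2 | a2
  · exact Or.inl a2
  rcases b2 with b2 | b2
  · exact Or.inr b2
  exfalso
  have h2 := hconn S hS (by
    intro i f hf g hg hgf
    rcases Fin.exists_fin_two.mp ⟨i, rfl⟩ with rfl | rfl
    · exact b2 f hf g hg hgf
    · exact a2 f hf g hg hgf)
  rcases h2 with h2 | h2
  · rw [h2, card_empty] at hcard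
    exact h0 (Submodule.finrank_eq_zero.mp hcard.symm)
  · rw [h2] at hcard
    omega

end Pool.Agent.KZ.BG
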