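import Pool.Agent.KZ.BE.Defs
import Pool.Agent.KZ.BE.Init

/-!
# KZ4, block BETA: the generic values of `Defs` and those of `Gv` are the same
-/

set_option autoImplicit false

namespace Pool.Agent.KZ.BE

open Finset Module

variable {c : ℕ}

theorem fin2_other {i i' : Fin 2} (h : i' ≠ i) : i' = i + 1 := by
  fin_cases i <;> fin_cases i' <;> simp_all

theorem update_eq_cel (i : Fin 2) (f : Fin 2 → Fin c) (b : Fin c) :
    Function.update f i b = cel i b (f (i + 1)) := by
  funext x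
  by_cases hx : x = i
  · subst hx
    rw [Function.update_self, cel_same]
  · rw [Function.update_of_ne hx, cel_ne hx, fin2_other hx]

theorem KU_eq (i : Fin 2) (s : ℕ) (U : ℕ → Fin c → ℂ) :
    KU i s U = BG.K i (fun l : Fin s => U l) := by
  ext g
  rw [mem_KU, BG.mem_K]
  constructor
  · intro h l f
    simp only [update_eq_cel]
    exact h l l.2 (f (i + 1))
  · intro h l hl b
    have h1 := h ⟨l, hl⟩ fun _ => b
    simp only [update_eq_cel] at h1
    exact h1

theorem dm_eq (F : Submodule ℂ ((Fin 2 → Fin c) → ℂ)) (τ τ' : Ty) (U U' : ℕ → Fin c → ℂ) :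
    dm F τ τ' U U' = finrank ℂ (BG.Sl τ.1 τ'.1 F
      (Sum.elim (fun l : Fin τ.2 => U l) fun l : Fin τ'.2 => U' l)) := by
  unfold dm BG.Sl
  rw [KU_eq, KU_eq, inf_assoc]
  rfl

theorem gv_eq (F : Submodule ℂ ((Fin 2 → Fin c) → ℂ)) (τ τ' : Ty) :
    gv F τ τ' = BG.gv τ.1 τ'.1 τ.2 τ'.2 F := by
  apply le_antisymm
  · obtain ⟨p, hp⟩ := BG.gv_attained τ.1 τ'.1 τ.2 τ'.2 F
    rw [← hp]
    refine (gv_le F τ τ' (fun l => if h : l < τ.2 then p (.inl ⟨l, h⟩) else 0)
      (fun l => if h : l < τ'.2 then p (.inr ⟨l, h⟩) else 0)).trans (le_of_eq ?_)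
    rw [dm_eq]
    have h : (Sum.elim (fun l : Fin τ.2 => if h : (l : ℕ) < τ.2 then p (.inl ⟨l, h⟩) else 0)
        fun l : Fin τ'.2 => if h : (l : ℕ) < τ'.2 then p (.inr ⟨l, h⟩) else 0) = p := by
      funext s
      rcases s with s | s
      · simp
      · simp
    rw [h]
  · obtain ⟨U, U', h⟩ := exists_gv F τ τ'
    rw [← h, dm_eq]
    exact BG.gv_le _ _ _ _

theorem CS_eq (S : Finset (Fin 2 → Fin c)) : CS S = BG.CS S := rfl

theorem finrank_CS (S : Finset (Fin 2 → Fin c)) : finrank ℂ (CS S) = S.card := BG.finrank_CS S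

end Pool.Agent.KZ.BE
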