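import Pool.Agent.KZ.BE.Adp

/-!
# KZ4, block BETA, module Crv: the Kronecker curve

`kc D c t l a = t ^ (D ^ (l * c + a))`.  For `D` large (more than the degrees of the minors) a minor
which is not identically zero in the vectors is not identically zero on the curve, and its degree in
`t` is bounded.
-/

set_option autoImplicit false
set_option linter.unusedSectionVars false

namespace Pool.Agent.KZ.BE

open Finset Module

variable {c : ℕ}

/-- The Kronecker curve. -/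
noncomputable def kc (D c : ℕ) (t : ℂ) : ℕ → Fin c → ℂ := fun l a => t ^ (D ^ (l * c + a))

/-- The exponents of a monomial on the curve. -/
theorem kron_inj {σ : Type} [Fintype σ] (D L : ℕ) (idx : σ → Fin L) (hidx : Function.Injective idx)
    (m m' : σ → ℕ) (hm : ∀ x, m x < D) (hm' : ∀ x, m' x < D)
    (h : ∑ x, m x * D ^ (idx x : ℕ) = ∑ x, m' x * D ^ (idx x : ℕ)) : m = m' := by
  classical
  rcases Nat.eq_zero_or_pos D with h0 | h0
  · funext x
    exact absurd (hm x) (by omega)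
  let M : (σ → ℕ) → Fin L → ℕ := fun m j => ∑ x, if idx x = j then m x else 0
  have hM1 : ∀ m x, M m (idx x) = m x := by
    intro m x
    show ∑ y, (if idx y = idx x then m y else 0) = m x
    rw [Finset.sum_eq_single x]
    · rw [if_pos rfl]
    · intro y _ hy
      rw [if_neg fun h => hy (hidx h)]
    · intro hx
      exact absurd (mem_univ x) hx
  have hM2 : ∀ m, (∀ x, m x < D) → ∀ j, M m j < D := by
    intro m hm j
    by_cases hj : ∃ x, idx x = j
    · obtain ⟨x, rfl⟩ := hj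
      rw [hM1]
      exact hm x
    · show ∑ y, (if idx y = j then m y else 0) < D
      rw [Finset.sum_eq_zero]
      · exact h0
      · intro y _
        rw [if_neg fun h => hj ⟨y, h⟩]
  have hM3 : ∀ m, ∑ x, m x * D ^ (idx x : ℕ) = ∑ j : Fin L, M m j * D ^ (j : ℕ) := by
    intro m
    refine Fintype.sum_of_injective idx hidx _ _ ?_ ?_
    · intro j hj
      have : M m j = 0 := by
        refine Finset.sum_eq_zero fun y _ => ?_
        rw [if_neg fun h => hj ⟨y, h⟩]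
      rw [this, zero_mul]
    · intro x
      rw [hM1]
  have h1 : (fun j => (⟨M m j, hM2 m hm j⟩ : Fin D)) = fun j => ⟨M m' j, hM2 m' hm' j⟩ := by
    apply finFunctionFinEquiv.injective
    apply Fin.ext
    rw [finFunctionFinEquiv_apply, finFunctionFinEquiv_apply]
    show ∑ j : Fin L, M m j * D ^ (j : ℕ) = ∑ j : Fin L, M m' j * D ^ (j : ℕ)
    rw [← hM3, ← hM3]
    exact h
  funext x
  rw [← hM1 m x, ← hM1 m' x]
  have := congrFun h1 (idx x)
  exact Fin.val_eq_of_eq this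

theorem kron {σ : Type} [Fintype σ] (D L : ℕ) (idx : σ → Fin L) (hidx : Function.Injective idx)
    (G : MvPolynomial σ ℂ) (hG : G ≠ 0) (hD : G.totalDegree < D) :
    ∃ q : Polynomial ℂ, q ≠ 0 ∧ q.natDegree ≤ D * D ^ L ∧
      ∀ t : ℂ, q.eval t = MvPolynomial.aeval (fun x => t ^ (D ^ (idx x : ℕ))) G := by
  classical
  let E : (σ →₀ ℕ) → ℕ := fun m => ∑ x, m x * D ^ (idx x : ℕ)
  have hsm : ∀ m ∈ G.support, ∑ x, m x ≤ G.totalDegree := by
    intro m hm
    have h1 := MvPolynomial.le_totalDegree hm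
    rw [Finsupp.sum_fintype _ _ fun _ => rfl] at h1
    exact h1
  have hlt : ∀ m ∈ G.support, ∀ x, m x < D := by
    intro m hm x
    have h1 := Finset.single_le_sum (f := fun x => m x) (fun _ _ => Nat.zero_le _) (mem_univ x)
    exact lt_of_le_of_lt (h1.trans (hsm m hm)) hD
  have hinj : ∀ m ∈ G.support, ∀ m' ∈ G.support, E m = E m' → m = m' := by
    intro m hm m' hm' h
    exact DFunLike.coe_injective (kron_inj D L idx hidx m m' (hlt m hm) (hlt m' hm') h)
  refine ⟨∑ m ∈ G.support, Polynomial.monomial (E m) (G.coeff m), ?_, ?_, ?_⟩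
  · obtain ⟨m₀, hm₀⟩ := Finset.nonempty_of_ne_empty
      (fun h => hG (MvPolynomial.support_eq_empty.mp h))
    intro h
    have h1 := congrArg (fun q : Polynomial ℂ => q.coeff (E m₀)) h
    simp only [Polynomial.finsetSum_coeff, Polynomial.coeff_monomial, Polynomial.coeff_zero] at h1
    rw [Finset.sum_eq_single m₀] at h1
    · rw [if_pos rfl] at h1
      exact MvPolynomial.mem_support_iff.mp hm₀ h1
    · intro m hm hne
      rw [if_neg fun h => hne (hinj m hm m₀ hm₀ h)]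
    · intro h
      exact absurd hm₀ h
  · refine Polynomial.natDegree_sum_le_of_forall_le _ _ fun m hm => ?_
    refine (Polynomial.natDegree_monomial_le _).trans ?_
    have h1 : ∀ x, m x * D ^ (idx x : ℕ) ≤ m x * D ^ L := fun x =>
      Nat.mul_le_mul_left _ (Nat.pow_le_pow_right (by omega) (idx x).2.le)
    refine (Finset.sum_le_sum fun x _ => h1 x).trans ?_
    rw [← Finset.sum_mul]
    exact Nat.mul_le_mul_right _ ((hsm m hm).trans hD.le)
  · intro t
    rw [Polynomial.eval_finsetSum, MvPolynomial.aeval_def, MvPolynomial.eval₂_eq']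
    refine Finset.sum_congr rfl fun m _ => ?_
    rw [Polynomial.eval_monomial]
    congr 1
    show t ^ (∑ x, m x * D ^ (idx x : ℕ)) = _
    rw [← Finset.prod_pow_eq_pow_sum]
    refine Finset.prod_congr rfl fun x _ => ?_
    rw [← pow_mul, mul_comm]

theorem curve1 (c s : ℕ) : ∃ D B : ℕ, ∀ (F : Submodule ℂ ((Fin 2 → Fin c) → ℂ)) (i : Fin 2)
    (s' : ℕ), s' ≤ s → ∀ (U₀ : ℕ → Fin c → ℂ) (T : Finset ℂ),
    (T.filter fun t => finrank ℂ ↥(F ⊓ KU i s' U₀) <
      finrank ℂ ↥(F ⊓ KU i s' (kc D c t))).card ≤ B := by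
  classical
  refine ⟨c ^ 2 + 1, (c ^ 2 + 1) * (c ^ 2 + 1) ^ (s * c), fun F i s' hs' U₀ T => ?_⟩
  have hdm : ∀ U : ℕ → Fin c → ℂ, finrank ℂ ↥(F ⊓ KU i s' U) = finrank ℂ (BG.Sl i i F
      (Sum.elim (fun l : Fin s' => U l) fun l : Fin 0 => (0 : Fin c → ℂ))) := by
    intro U
    have h1 := dm_eq F (i, s') (i, 0) U 0
    have h2 : dm F (i, s') (i, 0) U 0 = finrank ℂ ↥(F ⊓ KU i s' U) := by
      have h3 : F ⊓ KU i s' U ⊓ KU i 0 (0 : ℕ → Fin c → ℂ) = F ⊓ KU i s' U := by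
        rw [KU_zero, inf_top_eq]
      show finrank ℂ ↥(F ⊓ KU i s' U ⊓ KU i 0 (0 : ℕ → Fin c → ℂ)) = _
      rw [h3]
    rw [← h2, h1]
    rfl
  let b := Module.finBasis ℂ F
  have hb1 : LinearIndependent ℂ fun l => (b l : BG.Bil c) :=
    b.linearIndependent.map' F.subtype (Submodule.ker_subtype F)
  have hb2 : Submodule.span ℂ (Set.range fun l => (b l : BG.Bil c)) = F := by
    have h3 : (Set.range fun l => (b l : BG.Bil c)) = F.subtype '' Set.range b := by
      rw [← Set.range_comp]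
      rfl
    rw [h3, Submodule.span_image, b.span_eq, Submodule.map_top, Submodule.range_subtype]
  let gg : Fin (finrank ℂ F) → (Fin 2 → Fin c) → ℂ := fun l => (b l : BG.Bil c)
  obtain ⟨G, hdeg, h0, hG⟩ := BG.exists_poly_deg (k := ℂ) (BG.coe i i (n := s') (n' := 0) gg)
    (fun x : (Fin s' ⊕ Fin 0) × Fin c =>
      (Sum.elim (fun l : Fin s' => U₀ l) fun l : Fin 0 => (0 : Fin c → ℂ)) x.1 x.2)
  have hSl : ∀ p : Fin s' ⊕ Fin 0 → Fin c → ℂ, finrank ℂ (BG.Nl fun r l =>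
      MvPolynomial.aeval (fun x : (Fin s' ⊕ Fin 0) × Fin c => p x.1 x.2)
        (BG.coe i i (n := s') (n' := 0) gg r l)) = finrank ℂ (BG.Sl i i F p) := by
    intro p
    rw [BG.finrank_Sl_eq i i (fun l => (b l : BG.Bil c)) hb1 F hb2 p]
    have h3 : (fun (r : (Fin s' ⊕ Fin 0) × (Fin 2 → Fin c)) (l : Fin (finrank ℂ F)) =>
        MvPolynomial.aeval (fun x : (Fin s' ⊕ Fin 0) × Fin c => p x.1 x.2)
        (BG.coe i i (n := s') (n' := 0) gg r l)) = fun r l =>
        ∑ x, p r.1 x * (b l : BG.Bil c) (Function.update r.2 (BG.sl i i r.1) x) := by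
      funext r l
      rw [BG.aeval_coe]
      rfl
    rw [h3]
  have hdeg1 : G.totalDegree ≤ c ^ 2 := by
    refine (hdeg 1 ?_).trans ?_
    · intro r l
      refine MvPolynomial.totalDegree_finsetSum_le fun x _ => ?_
      refine (MvPolynomial.totalDegree_mul _ _).trans ?_
      rw [MvPolynomial.totalDegree_X, MvPolynomial.totalDegree_C]
    · rw [Fintype.card_fin, mul_one]
      exact finrank_le_cells F
  have hc0 : ∀ x : (Fin s' ⊕ Fin 0) × Fin c, 0 < c := fun x => lt_of_le_of_lt (Nat.zero_le _) x.2.2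
  let nm : Fin s' ⊕ Fin 0 → ℕ := Sum.elim (fun l : Fin s' => (l : ℕ)) fun l => l.elim0
  have hnm : ∀ x, nm x < s := by
    rintro (l | l)
    · exact lt_of_lt_of_le l.2 hs'
    · exact l.elim0
  have hnmi : Function.Injective nm := by
    rintro (l | l) (l' | l') h
    · exact congrArg Sum.inl (Fin.ext h)
    · exact l'.elim0
    · exact l.elim0
    · exact l.elim0
  let idx : (Fin s' ⊕ Fin 0) × Fin c → Fin (s * c) := fun x =>
    ⟨nm x.1 * c + x.2, by
      have h1 := hnm x.1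
      have h2 := x.2.2
      calc nm x.1 * c + x.2 < nm x.1 * c + c := by omega
        _ = (nm x.1 + 1) * c := by ring
        _ ≤ s * c := Nat.mul_le_mul_right _ h1⟩
  have hidx : Function.Injective idx := by
    rintro ⟨x, a⟩ ⟨x', a'⟩ h
    have h1 : nm x * c + a = nm x' * c + a' := Fin.val_eq_of_eq h
    have h2 : (nm x * c + a) / c = nm x := by
      rw [mul_comm, Nat.mul_add_div (hc0 ⟨x, a⟩), Nat.div_eq_of_lt a.2, add_zero]
    have h3 : (nm x' * c + a') / c = nm x' := by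
      rw [mul_comm, Nat.mul_add_div (hc0 ⟨x, a⟩), Nat.div_eq_of_lt a'.2, add_zero]
    have h4 : nm x = nm x' := by
      rw [← h2, h1, h3]
    have h5 : (a : ℕ) = a' := by
      rw [h4] at h1
      omega
    rw [hnmi h4, Fin.ext h5]
  have hG0 : G ≠ 0 := fun h => h0 (by rw [h, map_zero])
  obtain ⟨q, hq0, hqd, hq⟩ := kron (c ^ 2 + 1) (s * c) idx hidx G hG0 (by omega)
  have hsub : (T.filter fun t => finrank ℂ ↥(F ⊓ KU i s' U₀) <
      finrank ℂ ↥(F ⊓ KU i s' (kc (c ^ 2 + 1) c t))) ⊆ q.roots.toFinset := by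
    intro t ht
    rw [mem_filter] at ht
    rw [Multiset.mem_toFinset, Polynomial.mem_roots hq0, Polynomial.IsRoot.def]
    by_contra hne
    have h1 : (fun x : (Fin s' ⊕ Fin 0) × Fin c => t ^ ((c ^ 2 + 1) ^ (idx x : ℕ))) =
        fun x => (Sum.elim (fun l : Fin s' => kc (c ^ 2 + 1) c t l)
          fun l : Fin 0 => (0 : Fin c → ℂ)) x.1 x.2 := by
      funext x
      rcases x with ⟨l | l, a⟩
      · rfl
      · exact l.elim0
    rw [hq, h1] at hne
    have h2 := hG _ hne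
    rw [hSl, hSl, ← hdm, ← hdm] at h2
    exact absurd h2 (not_le.mpr ht.2)
  refine (card_le_card hsub).trans ((Multiset.toFinset_card_le _).trans ?_)
  exact (Polynomial.card_roots' q).trans hqd

theorem curve2 (c s : ℕ) : ∃ D B : ℕ, ∀ (F : Submodule ℂ ((Fin 2 → Fin c) → ℂ)) (τ τ' : Ty),
    τ.2 ≤ s → τ'.2 ≤ s → ∀ T T' : Finset ℂ,
    ((T ×ˢ T').filter fun z => gv F τ τ' < dm F τ τ' (kc D c z.1) (kc D c z.2)).card ≤
      B * (T.card + T'.card) := by
  classical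
  obtain ⟨D, B, h⟩ := curve1 c s
  refine ⟨D, B, fun F τ τ' hs hs' T T' => ?_⟩
  obtain ⟨U₀, U₀', hU⟩ := exists_gv F τ τ'
  have hA := h (F ⊓ KU τ'.1 τ'.2 U₀') τ.1 τ.2 hs U₀ T
  set A := T.filter fun t => finrank ℂ ↥(F ⊓ KU τ'.1 τ'.2 U₀' ⊓ KU τ.1 τ.2 U₀) <
    finrank ℂ ↥(F ⊓ KU τ'.1 τ'.2 U₀' ⊓ KU τ.1 τ.2 (kc D c t)) with hAdef
  have hB := fun t => h (F ⊓ KU τ.1 τ.2 (kc D c t)) τ'.1 τ'.2 hs' U₀' T'
  have hsub : ((T ×ˢ T').filter fun z => gv F τ τ' < dm F τ τ' (kc D c z.1) (kc D c z.2)) ⊆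
      A ×ˢ T' ∪ T.biUnion fun t => (T'.filter fun t' =>
        finrank ℂ ↥(F ⊓ KU τ.1 τ.2 (kc D c t) ⊓ KU τ'.1 τ'.2 U₀') <
          finrank ℂ ↥(F ⊓ KU τ.1 τ.2 (kc D c t) ⊓ KU τ'.1 τ'.2 (kc D c t'))).image
            fun t' => (t, t') := by
    rintro ⟨t, t'⟩ hz
    rw [mem_filter, mem_product] at hz
    obtain ⟨⟨h1, h2⟩, h3⟩ := hz
    rw [mem_union, mem_product]
    by_cases h4 : t ∈ A
    · exact Or.inl ⟨h4, h2⟩
    · refine Or.inr (mem_biUnion.mpr ⟨t, h1, mem_image.mpr ⟨t', mem_filter.mpr ⟨h2, ?_⟩, rfl⟩⟩)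
      have h5 : finrank ℂ ↥(F ⊓ KU τ'.1 τ'.2 U₀' ⊓ KU τ.1 τ.2 (kc D c t)) ≤
          finrank ℂ ↥(F ⊓ KU τ'.1 τ'.2 U₀' ⊓ KU τ.1 τ.2 U₀) := by
        by_contra hlt
        exact h4 (mem_filter.mpr ⟨h1, not_le.mp hlt⟩)
      have h6 : F ⊓ KU τ.1 τ.2 (kc D c t) ⊓ KU τ'.1 τ'.2 U₀' =
          F ⊓ KU τ'.1 τ'.2 U₀' ⊓ KU τ.1 τ.2 (kc D c t) := by
        rw [inf_assoc, inf_assoc, inf_comm (KU τ.1 τ.2 (kc D c t))]
      have h7 : F ⊓ KU τ'.1 τ'.2 U₀' ⊓ KU τ.1 τ.2 U₀ =
          F ⊓ KU τ.1 τ.2 U₀ ⊓ KU τ'.1 τ'.2 U₀' := by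
        rw [inf_assoc, inf_assoc, inf_comm (KU τ.1 τ.2 U₀)]
      rw [h6]
      refine lt_of_le_of_lt h5 ?_
      rw [h7]
      have h8 : finrank ℂ ↥(F ⊓ KU τ.1 τ.2 U₀ ⊓ KU τ'.1 τ'.2 U₀') = gv F τ τ' := hU
      rw [h8]
      exact h3
  refine (card_le_card hsub).trans ((card_union_le _ _).trans ?_)
  rw [card_product]
  have h1 : (T.biUnion fun t => (T'.filter fun t' =>
        finrank ℂ ↥(F ⊓ KU τ.1 τ.2 (kc D c t) ⊓ KU τ'.1 τ'.2 U₀') <
          finrank ℂ ↥(F ⊓ KU τ.1 τ.2 (kc D c t) ⊓ KU τ'.1 τ'.2 (kc D c t'))).image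
            fun t' => (t, t')).card ≤ T.card * B := by
    refine Finset.card_biUnion_le_card_mul _ _ _ fun t _ => ?_
    exact card_image_le.trans (hB t)
  have h2 := Nat.mul_le_mul_right T'.card hA
  nlinarith

end Pool.Agent.KZ.BE
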