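import Pool.Agent.KZ.Defs
import Pool.Agent.V7.Top.Lin

/-!
# KZ4, block BETA: definitions

Cells are `z : Fin 2 → Fin c` (coordinate functions `e_(z 0) ⊗ f_(z 1)`); `F` is a subspace of
`(Fin 2 → Fin c) → ℂ`.

* `cel i a b`: the cell with the `i`-th coordinate `a` and the other coordinate `b`;
* `KU i s U`: the `g` with `∑ a, U l a * g (cel i a b) = 0` for all `l < s` and `b`
  (the forms which vanish on the vectors `U l` in the block `i`);
* `CS S`: the `g` supported on `S`; `RR c k`: the cells whose coordinates are in different classes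
  modulo `k`;
* a type `τ : Ty` is a block `τ.1` and a number `τ.2` of vectors;
* `dm F τ τ' U U'` the dimension of `F ⊓ KU τ U ⊓ KU τ' U'`, `gv F τ τ'` its least value
  (generic value).
-/

set_option autoImplicit false
set_option linter.unusedSectionVars false

namespace Pool.Agent.KZ.BE

open Finset Module Pool.Agent.H51.TB
open Pool.Agent.V7 (msk Ex blk)
open Pool.Agent.V7.Top (IsB SF sl)

variable {c : ℕ}

/-- The cell with the `i`-th coordinate `a` and the other coordinate `b`. -/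
def cel (i : Fin 2) (a b : Fin c) : Fin 2 → Fin c := Function.update (fun _ => b) i a

theorem cel_zero (a b : Fin c) : cel 0 a b = ![a, b] := by
  funext x
  fin_cases x <;> rfl

theorem cel_one (a b : Fin c) : cel 1 a b = ![b, a] := by
  funext x
  fin_cases x <;> rfl

theorem cel_same (i : Fin 2) (a b : Fin c) : cel i a b i = a := by
  simp [cel]

theorem cel_ne {i i' : Fin 2} (h : i' ≠ i) (a b : Fin c) : cel i a b i' = b := by
  simp [cel, h]

/-- The forms which vanish on the vectors `U l`, `l < s`, in the block `i`. -/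
def KU (i : Fin 2) (s : ℕ) (U : ℕ → Fin c → ℂ) : Submodule ℂ ((Fin 2 → Fin c) → ℂ) where
  carrier := {g | ∀ l < s, ∀ b, ∑ a, U l a * g (cel i a b) = 0}
  zero_mem' := fun l _ b => by simp
  add_mem' := by
    intro f g hf hg l hl b
    have h1 := hf l hl b
    have h2 := hg l hl b
    simp only [Pi.add_apply, mul_add, sum_add_distrib]
    rw [h1, h2, add_zero]
  smul_mem' := by
    intro x g hg l hl b
    have h1 := hg l hl b
    have h2 : ∑ a, U l a * (x • g) (cel i a b) = x * ∑ a, U l a * g (cel i a b) := by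
      rw [mul_sum]
      refine sum_congr rfl fun a _ => ?_
      rw [Pi.smul_apply, smul_eq_mul]
      ring
    rw [h2, h1, mul_zero]

theorem mem_KU (i : Fin 2) (s : ℕ) (U : ℕ → Fin c → ℂ) (g : (Fin 2 → Fin c) → ℂ) :
    g ∈ KU i s U ↔ ∀ l < s, ∀ b, ∑ a, U l a * g (cel i a b) = 0 := Iff.rfl

theorem KU_zero (i : Fin 2) (U : ℕ → Fin c → ℂ) : KU i 0 U = ⊤ := by
  rw [eq_top_iff]
  intro g _ l hl
  exact absurd hl (Nat.not_lt_zero l)

/-- The functions supported on `S`. -/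
def CS (S : Finset (Fin 2 → Fin c)) : Submodule ℂ ((Fin 2 → Fin c) → ℂ) where
  carrier := {g | ∀ z, z ∉ S → g z = 0}
  zero_mem' := fun _ _ => rfl
  add_mem' := by
    intro f g hf hg z hz
    rw [Pi.add_apply, hf z hz, hg z hz, add_zero]
  smul_mem' := by
    intro x g hg z hz
    rw [Pi.smul_apply, hg z hz, smul_zero]

theorem mem_CS (S : Finset (Fin 2 → Fin c)) (g : (Fin 2 → Fin c) → ℂ) :
    g ∈ CS S ↔ ∀ z, z ∉ S → g z = 0 := Iff.rfl

theorem CS_mono {S S' : Finset (Fin 2 → Fin c)} (h : S ⊆ S') : CS S ≤ CS S' :=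
  fun _ hg z hz => hg z fun h' => hz (h h')

/-- The cells whose coordinates are in different classes modulo `k`. -/
def RR (c k : ℕ) : Finset (Fin 2 → Fin c) := univ.filter fun z => (z 0 : ℕ) % k ≠ (z 1 : ℕ) % k

theorem mem_RR {k : ℕ} (z : Fin 2 → Fin c) :
    z ∈ RR c k ↔ (z 0 : ℕ) % k ≠ (z 1 : ℕ) % k := by
  simp [RR]

/-- The types of the lines: a block and a number of vectors. -/
abbrev Ty : Type := Fin 2 × ℕ

/-- The dimension of the intersection. -/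
noncomputable def dm (F : Submodule ℂ ((Fin 2 → Fin c) → ℂ)) (τ τ' : Ty)
    (U U' : ℕ → Fin c → ℂ) : ℕ :=
  finrank ℂ ↥(F ⊓ KU τ.1 τ.2 U ⊓ KU τ'.1 τ'.2 U')

/-- The generic dimension. -/
noncomputable def gv (F : Submodule ℂ ((Fin 2 → Fin c) → ℂ)) (τ τ' : Ty) : ℕ :=
  sInf (Set.range fun u : (ℕ → Fin c → ℂ) × (ℕ → Fin c → ℂ) => dm F τ τ' u.1 u.2)

theorem gv_le (F : Submodule ℂ ((Fin 2 → Fin c) → ℂ)) (τ τ' : Ty) (U U' : ℕ → Fin c → ℂ) :
    gv F τ τ' ≤ dm F τ τ' U U' := Nat.sInf_le ⟨(U, U'), rfl⟩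

theorem exists_gv (F : Submodule ℂ ((Fin 2 → Fin c) → ℂ)) (τ τ' : Ty) :
    ∃ U U' : ℕ → Fin c → ℂ, dm F τ τ' U U' = gv F τ τ' := by
  obtain ⟨u, hu⟩ := Nat.sInf_mem (Set.range_nonempty
    fun u : (ℕ → Fin c → ℂ) × (ℕ → Fin c → ℂ) => dm F τ τ' u.1 u.2)
  exact ⟨u.1, u.2, hu⟩

theorem dm_comm (F : Submodule ℂ ((Fin 2 → Fin c) → ℂ)) (τ τ' : Ty) (U U' : ℕ → Fin c → ℂ) :
    dm F τ τ' U U' = dm F τ' τ U' U := by
  unfold dm
  rw [inf_assoc, inf_assoc, inf_comm (KU τ.1 τ.2 U)]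

theorem gv_comm (F : Submodule ℂ ((Fin 2 → Fin c) → ℂ)) (τ τ' : Ty) :
    gv F τ τ' = gv F τ' τ := by
  apply le_antisymm
  · obtain ⟨U, U', h⟩ := exists_gv F τ' τ
    rw [← h, dm_comm]
    exact gv_le F τ τ' U' U
  · obtain ⟨U, U', h⟩ := exists_gv F τ τ'
    rw [← h, dm_comm]
    exact gv_le F τ' τ U' U

theorem dm_mono {F F' : Submodule ℂ ((Fin 2 → Fin c) → ℂ)} (h : F ≤ F') (τ τ' : Ty)
    (U U' : ℕ → Fin c → ℂ) : dm F τ τ' U U' ≤ dm F' τ τ' U U' :=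
  Submodule.finrank_mono (inf_le_inf_right _ (inf_le_inf_right _ h))

theorem dm_le (F : Submodule ℂ ((Fin 2 → Fin c) → ℂ)) (τ τ' : Ty) (U U' : ℕ → Fin c → ℂ) :
    dm F τ τ' U U' ≤ finrank ℂ F :=
  Submodule.finrank_mono (inf_le_left.trans inf_le_left)

theorem gv_le_finrank (F : Submodule ℂ ((Fin 2 → Fin c) → ℂ)) (τ τ' : Ty) :
    gv F τ τ' ≤ finrank ℂ F := (gv_le F τ τ' 0 0).trans (dm_le F τ τ' 0 0)

theorem gv_mono {F F' : Submodule ℂ ((Fin 2 → Fin c) → ℂ)} (h : F ≤ F') (τ τ' : Ty) :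
    gv F τ τ' ≤ gv F' τ τ' := by
  obtain ⟨U, U', h1⟩ := exists_gv F' τ τ'
  rw [← h1]
  exact (gv_le F τ τ' U U').trans (dm_mono h τ τ' U U')

theorem finrank_cells : finrank ℂ ((Fin 2 → Fin c) → ℂ) = c ^ 2 := by
  rw [Module.finrank_fintype_fun_eq_card, Fintype.card_fun, Fintype.card_fin, Fintype.card_fin]

theorem finrank_le_cells (F : Submodule ℂ ((Fin 2 → Fin c) → ℂ)) : finrank ℂ F ≤ c ^ 2 := by
  rw [← finrank_cells (c := c)]
  exact Submodule.finrank_le F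

/-! ### Positions -/

/-- The vector with the coordinates `x` in the blocks `0`, `1` and `w` in the last variables. -/
def vec {n m : ℕ} (φ : (Fin 2 × Fin c) ⊕ Fin m ≃ Fin n) (x : Fin 2 → Fin c → ℂ) (w : Fin m → ℂ) :
    Fin n → ℂ :=
  fun s => Sum.elim (fun y : Fin 2 × Fin c => x y.1 y.2) w (φ.symm s)

theorem vec_inl {n m : ℕ} (φ : (Fin 2 × Fin c) ⊕ Fin m ≃ Fin n) (x : Fin 2 → Fin c → ℂ)
    (w : Fin m → ℂ) (i : Fin 2) (a : Fin c) : vec φ x w (φ (Sum.inl (i, a))) = x i a := by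
  simp [vec]

theorem vec_inr {n m : ℕ} (φ : (Fin 2 × Fin c) ⊕ Fin m ≃ Fin n) (x : Fin 2 → Fin c → ℂ)
    (w : Fin m → ℂ) (t : Fin m) : vec φ x w (φ (Sum.inr t)) = w t := by
  simp [vec]

/-- One of the objects has a triple point at `P`. -/
def HasPt {n : ℕ} (β : Fin n → ℕ) {κ : Type} (rest : κ → Kd) (p : κ → Fin n × Fin 3 → ℂ)
    (P : Fin n → ℂ) : Prop :=
  ∃ i x, mu (rest i) x = 3 ∧ pt β (rest i) x (p i) = P

/-- The position has points at all the cells outside `R`. -/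
def HasC {n m : ℕ} (φ : (Fin 2 × Fin c) ⊕ Fin m ≃ Fin n) (β : Fin n → ℕ) {κ : Type}
    (rest : κ → Kd) (p : κ → Fin n × Fin 3 → ℂ) (R : Finset (Fin 2 → Fin c)) : Prop :=
  ∀ z ∉ R, ∃ x : Fin 2 → ℂ, x 0 ≠ 0 ∧ x 1 ≠ 0 ∧
    HasPt β rest p (vec φ (fun i => Pi.single (z i) (x i)) 0)

/-- The position has, on the line `t`, points with the vectors `W l`, `l < τ.2`, in the
block `τ.1`. -/
def HasL {n m : ℕ} (φ : (Fin 2 × Fin c) ⊕ Fin m ≃ Fin n) (β : Fin n → ℕ) {κ : Type}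
    (rest : κ → Kd) (p : κ → Fin n × Fin 3 → ℂ) (t : Fin m) (τ : Ty) (W : ℕ → Fin c → ℂ) : Prop :=
  ∀ l < τ.2, ∃ x : ℂ, x ≠ 0 ∧ HasPt β rest p (vec φ (Pi.single τ.1 (x • W l)) (Pi.single t 1))

end Pool.Agent.KZ.BE
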