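import Pool.Agent.KZ.BE.Defs

/-!
# KZ4, block BETA, module Fold: `gv (CS (RR c k)) (0, s) (1, s')`

Folding maps `X a`, `Y b` of `Fin c` (idempotent): `a` in the class `κ = a % k` goes to
`a - κ + x κ`, resp. `a - κ + y κ`, `x κ = 2 * (κ / 2)` (`0,0,2,2,4` resp. `0,0,2,2,4,4`),
`y κ = 0,1,1,3,3` resp. `0,1,1,3,3,0`; `κ ↦ (x κ, y κ)` is injective, so `(a, b) ↦ (X a, Y b)` is
injective on the cells outside `RR c k`.  Choose `s` indices `a` with `X a ≠ a` (there are
`(k - 3) c / k`), `U` = the vectors `e_a - e_(X a)`, the same for `U'`.  `g ∈ KU 0 s U ⊓ KU 1 s' U'` is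
determined by its values at the `(c - s) (c - s')` cells with both coordinates not chosen, and the
restriction of `KU 0 s U ⊓ KU 1 s' U'` to the cells outside `RR c k` is surjective: the function
`z ↦ [X (z 0) = X (z₀ 0)] [Y (z 1) = Y (z₀ 1)]` is in the intersection.
-/

set_option autoImplicit false
set_option linter.unusedSectionVars false

namespace Pool.Agent.KZ.BE

open Finset Module

variable {c : ℕ}

/-- The difference of two coordinate vectors. -/
def cdv (a a' : Fin c) : Fin c → ℂ := fun b => (if b = a then 1 else 0) - (if b = a' then 1 else 0)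

theorem sum_cdv (a a' : Fin c) (G : Fin c → ℂ) : ∑ b, cdv a a' b * G b = G a - G a' := by
  simp only [cdv, sub_mul, ite_mul, one_mul, zero_mul, sum_sub_distrib, sum_ite_eq', mem_univ,
    if_true]

/-- The vectors of a retraction `r` with the moved indices `A`. -/
noncomputable def rvec (A : Finset (Fin c)) (r : Fin c → Fin c) (l : ℕ) : Fin c → ℂ :=
  if h : l < A.card then
    cdv ((A.equivFin).symm ⟨l, h⟩).1 (r ((A.equivFin).symm ⟨l, h⟩).1)
  else 0

theorem rvec_spec {A : Finset (Fin c)} {r : Fin c → Fin c} {a : Fin c} (ha : a ∈ A) :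
    ∃ l < A.card, rvec A r l = cdv a (r a) := by
  refine ⟨(A.equivFin ⟨a, ha⟩).1, (A.equivFin ⟨a, ha⟩).2, ?_⟩
  unfold rvec
  rw [dif_pos (A.equivFin ⟨a, ha⟩).2]
  simp

theorem gv_retract (s s' : ℕ) (R : Finset (Fin 2 → Fin c)) (r₀ r₁ : Fin c → Fin c)
    (A₀ A₁ : Finset (Fin c)) (h0 : A₀.card = s) (h1 : A₁.card = s')
    (hr0 : ∀ a, r₀ a ∉ A₀) (hr0' : ∀ a, a ∉ A₀ → r₀ a = a)
    (hr1 : ∀ a, r₁ a ∉ A₁) (hr1' : ∀ a, a ∉ A₁ → r₁ a = a) :
    gv (CS R) (0, s) (1, s') + (Rᶜ.image fun z : Fin 2 → Fin c => ![r₀ (z 0), r₁ (z 1)]).card ≤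
      (c - s) * (c - s') := by
  classical
  set rr : (Fin 2 → Fin c) → (Fin 2 → Fin c) := fun z => ![r₀ (z 0), r₁ (z 1)] with hrr
  set U := rvec A₀ r₀ with hU
  set U' := rvec A₁ r₁ with hU'
  have hK0 : ∀ g ∈ KU (c := c) 0 s U, ∀ a b, g ![a, b] = g ![r₀ a, b] := by
    intro g hg a b
    by_cases ha : a ∈ A₀
    · obtain ⟨l, hl, h2⟩ := rvec_spec (r := r₀) ha
      have h3 := hg l (h0 ▸ hl) b
      rw [hU, h2, sum_cdv a (r₀ a) fun x => g (cel 0 x b), cel_zero, cel_zero] at h3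
      exact sub_eq_zero.1 h3
    · rw [hr0' a ha]
  have hK1 : ∀ g ∈ KU (c := c) 1 s' U', ∀ a b, g ![b, a] = g ![b, r₁ a] := by
    intro g hg a b
    by_cases ha : a ∈ A₁
    · obtain ⟨l, hl, h2⟩ := rvec_spec (r := r₁) ha
      have h3 := hg l (h1 ▸ hl) b
      rw [hU', h2, sum_cdv a (r₁ a) fun x => g (cel 1 x b), cel_one, cel_one] at h3
      exact sub_eq_zero.1 h3
    · rw [hr1' a ha]
  have hz : ∀ z : Fin 2 → Fin c, z = ![z 0, z 1] := by
    intro z
    funext i
    fin_cases i <;> rfl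
  have hK : ∀ g ∈ CS R ⊓ KU 0 s U ⊓ KU 1 s' U', ∀ z : Fin 2 → Fin c, g z = g (rr z) := by
    intro g hg z
    conv_lhs => rw [hz z]
    rw [hK0 g hg.1.2, hK1 g hg.2]
  set Z : Finset (Fin 2 → Fin c) := Rᶜ.image rr with hZ
  set Q : Finset (Fin 2 → Fin c) := Fintype.piFinset ![A₀ᶜ, A₁ᶜ] with hQ
  have hrQ : ∀ z, rr z ∈ Q := by
    intro z
    rw [hQ, Fintype.mem_piFinset]
    intro i
    fin_cases i
    · simpa [hrr] using hr0 (z 0)
    · simpa [hrr] using hr1 (z 1)
  have hZQ : Z ⊆ Q := by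
    intro z hz
    obtain ⟨g, -, rfl⟩ := mem_image.1 hz
    exact hrQ g
  have hQc : Q.card = (c - s) * (c - s') := by
    rw [hQ, Fintype.card_piFinset, Fin.prod_univ_two]
    simp [card_compl, h0, h1]
  have hle : dm (CS R) (0, s) (1, s') U U' ≤ (Q \ Z).card := by
    unfold dm
    let M : Submodule ℂ ((Fin 2 → Fin c) → ℂ) := CS R ⊓ KU 0 s U ⊓ KU 1 s' U'
    let L : M →ₗ[ℂ] ({z // z ∈ Q \ Z} → ℂ) :=
      (LinearMap.funLeft ℂ ℂ (Subtype.val : {z // z ∈ Q \ Z} → Fin 2 → Fin c)).comp M.subtype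
    have hL : Function.Injective L := by
      rw [← LinearMap.ker_eq_bot, LinearMap.ker_eq_bot']
      rintro ⟨g, hg⟩ h
      have h' : ∀ z (hz : z ∈ Q \ Z), g z = 0 := fun z hz => congrFun h ⟨z, hz⟩
      apply Subtype.ext
      funext z
      change g z = 0
      rw [hK g hg z]
      by_cases hz : rr z ∈ Z
      · obtain ⟨z', hz', h2⟩ := mem_image.1 hz
        rw [← h2, ← hK g hg z']
        exact hg.1.1 z' (by simpa using hz')
      · exact h' _ (mem_sdiff.2 ⟨hrQ z, hz⟩)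
    have := LinearMap.finrank_le_finrank_of_injective hL
    rwa [Module.finrank_fintype_fun_eq_card, Fintype.card_coe] at this
  have h2 := gv_le (CS R) (0, s) (1, s') U U'
  have h3 : (Q \ Z).card + Z.card = Q.card := card_sdiff_add_card_eq_card hZQ
  rw [hQc] at h3
  omega

/-- The abstract form. -/
theorem gv_fold_abs (X Y : Fin c → Fin c) (hX : ∀ a, X (X a) = X a) (hY : ∀ a, Y (Y a) = Y a)
    (R : Finset (Fin 2 → Fin c))
    (hinj : ∀ z ∉ R, ∀ z' ∉ R, X (z 0) = X (z' 0) → Y (z 1) = Y (z' 1) → z = z') (s s' : ℕ)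
    (hs : s ≤ (univ.filter fun a => X a ≠ a).card)
    (hs' : s' ≤ (univ.filter fun a => Y a ≠ a).card) :
    gv (CS R) (0, s) (1, s') + (c ^ 2 - R.card) ≤ (c - s) * (c - s') := by
  classical
  obtain ⟨A₀, hA₀, hc0⟩ := exists_subset_card_eq hs
  obtain ⟨A₁, hA₁, hc1⟩ := exists_subset_card_eq hs'
  let r₀ : Fin c → Fin c := fun a => if a ∈ A₀ then X a else a
  let r₁ : Fin c → Fin c := fun a => if a ∈ A₁ then Y a else a
  have hr0 : ∀ a, r₀ a ∉ A₀ := by
    intro a
    by_cases h : a ∈ A₀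
    · simp only [r₀, if_pos h]
      exact fun h' => (mem_filter.1 (hA₀ h')).2 (hX a)
    · simp only [r₀, if_neg h]
      exact h
  have hr1 : ∀ a, r₁ a ∉ A₁ := by
    intro a
    by_cases h : a ∈ A₁
    · simp only [r₁, if_pos h]
      exact fun h' => (mem_filter.1 (hA₁ h')).2 (hY a)
    · simp only [r₁, if_neg h]
      exact h
  have i0 : ∀ a, X (r₀ a) = X a := by
    intro a
    by_cases h : a ∈ A₀
    · simp only [r₀, if_pos h]
      exact hX a
    · simp only [r₀, if_neg h]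
  have i1 : ∀ a, Y (r₁ a) = Y a := by
    intro a
    by_cases h : a ∈ A₁
    · simp only [r₁, if_pos h]
      exact hY a
    · simp only [r₁, if_neg h]
  have hmain := gv_retract s s' R r₀ r₁ A₀ A₁ hc0 hc1 hr0 (fun a h => if_neg h) hr1
    (fun a h => if_neg h)
  have hinj' : Set.InjOn (fun z : Fin 2 → Fin c => ![r₀ (z 0), r₁ (z 1)])
      (Rᶜ : Finset (Fin 2 → Fin c)) := by
    intro z hz z' hz' h
    rw [mem_coe, mem_compl] at hz hz'
    have h0 : r₀ (z 0) = r₀ (z' 0) := congrFun h 0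
    have h1 : r₁ (z 1) = r₁ (z' 1) := congrFun h 1
    refine hinj z hz z' hz' ?_ ?_
    · rw [← i0, h0, i0]
    · rw [← i1, h1, i1]
  rw [card_image_of_injOn hinj', card_compl, Fintype.card_fun, Fintype.card_fin,
    Fintype.card_fin] at hmain
  exact hmain

theorem count_fin_le {k m n : ℕ} (f : ℕ → ℕ) (P : Fin (k * m) → Prop) [DecidablePred P]
    (hf : ∀ i < n, f i < k) (hinj : ∀ i < n, ∀ j < n, f i = f j → i = j)
    (hP : ∀ i < n, ∀ a : Fin (k * m), (a : ℕ) % k = f i → P a) :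
    n * m ≤ (univ.filter P).card := by
  have h := card_le_card_of_injOn (s := (univ : Finset (Fin n × Fin m))) (t := univ.filter P)
    (fun x => ⟨k * x.2.1 + f x.1.1, by
      have h1 := hf x.1.1 x.1.2
      have h2 := x.2.2
      calc k * x.2.1 + f x.1.1 < k * x.2.1 + k := by omega
        _ = k * (x.2.1 + 1) := by ring
        _ ≤ k * m := Nat.mul_le_mul_left _ (by omega)⟩) (by
      intro x _
      rw [mem_coe, mem_filter]
      refine ⟨mem_univ _, hP x.1.1 x.1.2 _ ?_⟩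
      change (k * x.2.1 + f x.1.1) % k = f x.1.1
      rw [Nat.mul_add_mod, Nat.mod_eq_of_lt (hf x.1.1 x.1.2)]) (by
      intro x _ y _ hxy
      have h1 : k * x.2.1 + f x.1.1 = k * y.2.1 + f y.1.1 := congrArg Fin.val hxy
      have h2 : f x.1.1 = f y.1.1 := by
        have h3 := congrArg (· % k) h1
        simp only [Nat.mul_add_mod, Nat.mod_eq_of_lt (hf x.1.1 x.1.2),
          Nat.mod_eq_of_lt (hf y.1.1 y.1.2)] at h3
        exact h3
      have hk : 0 < k := lt_of_le_of_lt (Nat.zero_le _) (hf x.1.1 x.1.2)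
      refine Prod.ext (Fin.ext (hinj _ x.1.2 _ y.1.2 h2)) (Fin.ext ?_)
      rw [h2] at h1
      exact Nat.eq_of_mul_eq_mul_left hk (by omega))
  rwa [card_univ, Fintype.card_prod, Fintype.card_fin, Fintype.card_fin] at h

theorem gv_fold {k : ℕ} (hk : k = 5 ∨ k = 6) (hc : k ∣ c) (s s' : ℕ)
    (hs : k * s ≤ (k - 3) * c) (hs' : k * s' ≤ (k - 3) * c) :
    gv (CS (RR c k)) (0, s) (1, s') + (c ^ 2 - (RR c k).card) ≤ (c - s) * (c - s') := by
  obtain ⟨m, rfl⟩ := hc
  have hk0 : 0 < k := by omega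
  have e0 : s ≤ (k - 3) * m := by
    have h1 : k * s ≤ k * ((k - 3) * m) := by
      calc k * s ≤ (k - 3) * (k * m) := hs
        _ = k * ((k - 3) * m) := by ring
    exact Nat.le_of_mul_le_mul_left h1 hk0
  have e1 : s' ≤ (k - 3) * m := by
    have h1 : k * s' ≤ k * ((k - 3) * m) := by
      calc k * s' ≤ (k - 3) * (k * m) := hs'
        _ = k * ((k - 3) * m) := by ring
    exact Nat.le_of_mul_le_mul_left h1 hk0
  let X : Fin (k * m) → Fin (k * m) := fun a =>
    ⟨k * (a.1 / k) + a.1 % k % 3, by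
      have h1 := Nat.div_add_mod a.1 k
      have h2 := Nat.mod_le (a.1 % k) 3
      have h3 := a.2
      omega⟩
  let Y : Fin (k * m) → Fin (k * m) := fun a =>
    ⟨k * (a.1 / k) + 3 * (a.1 % k / 3), by
      have h1 := Nat.div_add_mod a.1 k
      have h2 := Nat.mul_div_le (a.1 % k) 3
      have h3 := a.2
      omega⟩
  have hdX : ∀ a : Fin (k * m), (X a).1 / k = a.1 / k ∧ (X a).1 % k = a.1 % k % 3 := by
    intro a
    have h1 : a.1 % k % 3 < k := by omega
    change (k * (a.1 / k) + a.1 % k % 3) / k = _ ∧ (k * (a.1 / k) + a.1 % k % 3) % k = _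
    rw [Nat.mul_add_div hk0, Nat.mul_add_mod, Nat.div_eq_of_lt h1, Nat.mod_eq_of_lt h1]
    exact ⟨rfl, rfl⟩
  have hdY : ∀ a : Fin (k * m), (Y a).1 / k = a.1 / k ∧ (Y a).1 % k = 3 * (a.1 % k / 3) := by
    intro a
    have h0 := Nat.mod_lt a.1 hk0
    have h1 : 3 * (a.1 % k / 3) < k := by omega
    change (k * (a.1 / k) + 3 * (a.1 % k / 3)) / k = _ ∧ (k * (a.1 / k) + 3 * (a.1 % k / 3)) % k = _
    rw [Nat.mul_add_div hk0, Nat.mul_add_mod, Nat.div_eq_of_lt h1, Nat.mod_eq_of_lt h1]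
    exact ⟨rfl, rfl⟩
  refine gv_fold_abs X Y ?_ ?_ _ ?_ s s' (e0.trans ?_) (e1.trans ?_)
  · intro a
    apply Fin.ext
    change k * ((X a).1 / k) + (X a).1 % k % 3 = k * (a.1 / k) + a.1 % k % 3
    rw [(hdX a).1, (hdX a).2]
    omega
  · intro a
    apply Fin.ext
    change k * ((Y a).1 / k) + 3 * ((Y a).1 % k / 3) = k * (a.1 / k) + 3 * (a.1 % k / 3)
    rw [(hdY a).1, (hdY a).2]
    omega
  · intro z hz z' hz' h0 h1
    rw [mem_RR, ne_eq, not_not] at hz hz'
    have a1 := hdX (z 0)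
    have a2 := hdX (z' 0)
    have a3 := hdY (z 1)
    have a4 := hdY (z' 1)
    rw [h0] at a1
    rw [h1] at a3
    have b1 : (z 0).1 / k = (z' 0).1 / k := a1.1.symm.trans a2.1
    have b2 : (z 0).1 % k % 3 = (z' 0).1 % k % 3 := a1.2.symm.trans a2.2
    have b3 : (z 1).1 / k = (z' 1).1 / k := a3.1.symm.trans a4.1
    have b4 : 3 * ((z 1).1 % k / 3) = 3 * ((z' 1).1 % k / 3) := a3.2.symm.trans a4.2
    have c1 := Nat.div_add_mod (z 0).1 k
    have c2 := Nat.div_add_mod (z' 0).1 k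
    have c3 := Nat.div_add_mod (z 1).1 k
    have c4 := Nat.div_add_mod (z' 1).1 k
    have d1 : (z 0).1 % k = (z' 0).1 % k := by omega
    have d2 : (z 1).1 % k = (z' 1).1 % k := by omega
    rw [b1, d1] at c1
    rw [b3, d2] at c3
    funext i
    fin_cases i
    · exact Fin.ext (c1.symm.trans c2)
    · exact Fin.ext (c3.symm.trans c4)
  · refine count_fin_le (fun i => i + 3) _ (fun i hi => by omega) (fun i _ j _ h => by omega) ?_
    intro i hi a ha h
    have h1 := (hdX a).2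
    rw [h, ha] at h1
    omega
  · refine count_fin_le (fun i => if i < 2 then i + 1 else i + 2) _ (fun i hi => ?_)
      (fun i hi j hj h => ?_) ?_
    · beta_reduce
      split_ifs <;> omega
    · beta_reduce at h
      split_ifs at h <;> omega
    · intro i hi a ha h
      have h1 := (hdY a).2
      rw [h, ha] at h1
      split_ifs at h1 <;> omega

end Pool.Agent.KZ.BE
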