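import Pool.Agent.KZ.BE.GenA

/-!
# KZ4, block BETA, module Gen: the weighted mean of the generic values
-/

set_option autoImplicit false
set_option linter.unusedSectionVars false

namespace Pool.Agent.KZ.BE

open Finset Module

variable {c : ℕ}

/-! ### Numbers -/

theorem xx_eq : 3 * xx ^ 2 - 6 * xx + 1 = 0 := by
  have h : Real.sqrt (2 / 3) ^ 2 = 2 / 3 := Real.sq_sqrt (by norm_num)
  unfold xx
  linear_combination 3 * h

theorem xx_lo : 0.1835 < xx := by
  have h : Real.sqrt (2 / 3) < 0.8165 := by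
    rw [Real.sqrt_lt' (by norm_num)]
    norm_num
  unfold xx
  linarith

theorem xx_hi : xx < 0.1836 := by
  have h : 0.8164 < Real.sqrt (2 / 3) := by
    rw [Real.lt_sqrt (by norm_num)]
    norm_num
  unfold xx
  linarith

/-- The density of the points on `L_0`. -/
noncomputable def k1 (k : ℕ) : ℝ := (3 * xx - 1 / k) / 2

/-- The mean number of vectors of a cluster. -/
noncomputable def nst (c k : ℕ) : ℝ := (xx + k1 k) * c

/-- The least number of vectors of a cluster. -/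
noncomputable def s0 (c k : ℕ) : ℕ := ⌊nst c k⌋₊

/-- The part of the clusters with one vector more. -/
noncomputable def th (c k : ℕ) : ℝ := nst c k - s0 c k

/-- The parts of the blocks. -/
noncomputable def pw (k : ℕ) (i : Fin 2) : ℝ :=
  if i = 0 then xx / (xx + k1 k) else k1 k / (xx + k1 k)

noncomputable def qw (c k : ℕ) (b : Fin 2) : ℝ := if b = 0 then 1 - th c k else th c k

/-- The weights of the four types. -/
noncomputable def tw (c k : ℕ) (x : Fin 2 × Fin 2) : ℝ := pw k x.1 * qw c k x.2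

/-- The four types. -/
noncomputable def ty (c k : ℕ) (x : Fin 2 × Fin 2) : Ty := (x.1, s0 c k + x.2)

theorem k1_bounds {k : ℕ} (hk : k = 5 ∨ k = 6) : 0.175 < k1 k ∧ k1 k < 0.1921 ∧
    k1 k < 0.377 - xx ∧ (k : ℝ) * (xx + k1 k) < k - 3 - 0.2 ∧
    2 * (xx + k1 k) < 1 - 1 / k - 0.08 := by
  have h1 := xx_lo
  have h2 := xx_hi
  unfold k1
  rcases hk with rfl | rfl
  · norm_num
    refine ⟨by linarith, by linarith, by linarith, by linarith, by linarith⟩
  · norm_num
    refine ⟨by linarith, by linarith, by linarith, by linarith, by linarith⟩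

theorem nst_bounds {k : ℕ} (hk : k = 5 ∨ k = 6) (hc : k ∣ c) (hc0 : 60 ≤ c) :
    1 ≤ s0 c k ∧ 2 * s0 c k + 2 < c - c / k ∧ k * (s0 c k + 1) ≤ (k - 3) * c ∧
      0 ≤ th c k ∧ th c k < 1 ∧ (s0 c k : ℝ) ≤ nst c k := by
  obtain ⟨a1, a2, a3, a4, a5⟩ := k1_bounds hk
  have h1 := xx_lo
  have h2 := xx_hi
  have hc' : (60 : ℝ) ≤ c := by exact_mod_cast hc0
  have hn0 : 0 ≤ nst c k := by
    unfold nst
    have : 0 < xx + k1 k := by linarith
    positivity
  have hf : (s0 c k : ℝ) ≤ nst c k := Nat.floor_le hn0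
  have hf' : nst c k < s0 c k + 1 := Nat.lt_floor_add_one _
  have hkc : (k : ℝ) * ((c / k : ℕ) : ℝ) = c := by
    exact_mod_cast Nat.mul_div_cancel' hc
  have hk0 : (0 : ℝ) < k := by
    rcases hk with rfl | rfl <;> norm_num
  refine ⟨?_, ?_, ?_, ?_, ?_, hf⟩
  · refine Nat.le_floor ?_
    push_cast
    unfold nst
    nlinarith
  · have h3 : c / k ≤ c := Nat.div_le_self c k
    zify [h3]
    have h4 : ((2 * (s0 c k : ℝ) + 2 : ℝ)) < c - ((c / k : ℕ) : ℝ) := by
      have h5 : ((c / k : ℕ) : ℝ) = c * (1 / k) := by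
        rw [← hkc]
        field_simp
      rw [h5]
      unfold nst at hf
      nlinarith
    exact_mod_cast h4
  · have h3 : 3 ≤ k := by omega
    zify [h3]
    have h4 : (k : ℝ) * (s0 c k + 1) ≤ (k - 3) * c := by
      unfold nst at hf
      have h5 : (k : ℝ) * s0 c k ≤ k * ((xx + k1 k) * c) := mul_le_mul_of_nonneg_left hf hk0.le
      have h6 : (k : ℝ) ≤ 6 := by
        rcases hk with rfl | rfl <;> norm_num
      nlinarith
    exact_mod_cast h4
  · unfold th
    linarith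
  · unfold th
    linarith

theorem pw_pos {k : ℕ} (hk : k = 5 ∨ k = 6) (i : Fin 2) : 0 < pw k i := by
  obtain ⟨a1, _⟩ := k1_bounds hk
  have h1 := xx_lo
  unfold pw
  have h2 : 0 < xx := by linarith
  have h3 : 0 < k1 k := by linarith
  split_ifs
  · positivity
  · positivity

theorem pw_sum {k : ℕ} (hk : k = 5 ∨ k = 6) : pw k 0 + pw k 1 = 1 := by
  obtain ⟨a1, _⟩ := k1_bounds hk
  have h1 := xx_lo
  unfold pw
  rw [if_pos rfl, if_neg one_ne_zero, ← add_div, div_self]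
  linarith

theorem pw_mul {k : ℕ} (hk : k = 5 ∨ k = 6) (c : ℕ) :
    pw k 0 * pw k 1 * nst c k ^ 2 = xx * k1 k * c ^ 2 := by
  obtain ⟨a1, _⟩ := k1_bounds hk
  have h1 := xx_lo
  have h2 : xx + k1 k ≠ 0 := by linarith
  unfold pw nst
  rw [if_pos rfl, if_neg one_ne_zero]
  field_simp

theorem qw_nonneg {k : ℕ} (hk : k = 5 ∨ k = 6) (hc : k ∣ c) (hc0 : 60 ≤ c) (b : Fin 2) :
    0 ≤ qw c k b := by
  obtain ⟨_, _, _, h1, h2, _⟩ := nst_bounds hk hc hc0
  unfold qw
  split_ifs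
  · linarith
  · exact h1

theorem tw_nonneg {k : ℕ} (hk : k = 5 ∨ k = 6) (hc : k ∣ c) (hc0 : 60 ≤ c) (x : Fin 2 × Fin 2) :
    0 ≤ tw c k x := mul_nonneg (pw_pos hk _).le (qw_nonneg hk hc hc0 _)

theorem tw_sum {k : ℕ} (hk : k = 5 ∨ k = 6) : ∑ x, tw c k x = 1 := by
  have h1 := pw_sum hk
  rw [Fintype.sum_prod_type]
  simp only [Fin.sum_univ_two, tw, qw, if_true, one_ne_zero, if_false]
  linear_combination h1

/-- The identity of the mean. -/
theorem mean_eq {k : ℕ} (hk : k = 5 ∨ k = 6) (hc0 : 0 < c) (U : Fin 2 × Fin 2 → Fin 2 × Fin 2 → ℝ)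
    (hA : ∀ i b b' : Fin 2, U (i, b) (i, b') =
      1 - (2 * s0 c k + b + b') / (c * (1 - 1 / k)))
    (hB : ∀ i b b' : Fin 2, U (i, b) (i + 1, b') =
      ((c - (s0 c k + b)) * (c - (s0 c k + b')) - c ^ 2 / k) / (c * (c * (1 - 1 / k)))) :
    ∑ x, ∑ y, tw c k x * tw c k y * U x y = xx := by
  have h1 := pw_sum hk
  have h2 := pw_mul hk c
  have hcr : (0 : ℝ) < c := by exact_mod_cast hc0
  have hk' : (0 : ℝ) < 1 - 1 / k := by
    rcases hk with rfl | rfl <;> norm_num
  have hk0 : (k : ℝ) ≠ 0 := by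
    rcases hk with rfl | rfl <;> norm_num
  have hn : nst c k = s0 c k + th c k := by
    unfold th
    ring
  simp only [Fintype.sum_prod_type, Fin.sum_univ_two]
  have e1 : ∀ b b' : Fin 2, U (1, b) (0, b') =
      ((c - (s0 c k + b)) * (c - (s0 c k + b')) - c ^ 2 / k) / (c * (c * (1 - 1 / k))) :=
    fun b b' => hB 1 b b'
  have e2 : ∀ b b' : Fin 2, U (0, b) (1, b') =
      ((c - (s0 c k + b)) * (c - (s0 c k + b')) - c ^ 2 / k) / (c * (c * (1 - 1 / k))) :=
    fun b b' => hB 0 b b'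
  simp only [hA, e1, e2, tw, qw]
  simp only [if_true, one_ne_zero, if_false]
  have hD : (c : ℝ) * (c * (1 - 1 / k)) ≠ 0 := by positivity
  have hD' : (c : ℝ) * (1 - 1 / k) ≠ 0 := by positivity
  have key : (pw k 0 ^ 2 + pw k 1 ^ 2) * (1 - 2 * nst c k / (c * (1 - 1 / k))) +
      2 * (pw k 0 * pw k 1) * (((c - nst c k) ^ 2 - c ^ 2 / k) / (c * (c * (1 - 1 / k)))) = xx := by
    have h3 : pw k 0 ^ 2 + pw k 1 ^ 2 = 1 - 2 * (pw k 0 * pw k 1) := by
      have : (pw k 0 + pw k 1) ^ 2 = 1 := by rw [h1, one_pow]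
      linear_combination this
    have h4 : (1 - 2 * nst c k / (c * (1 - 1 / k))) =
        (c * (c * (1 - 1 / k)) - 2 * nst c k * c) / (c * (c * (1 - 1 / k))) := by
      rw [sub_div, div_self hD, mul_comm (2 * nst c k) (c : ℝ),
        mul_div_mul_left _ _ (ne_of_gt hcr)]
    rw [h3, h4, mul_div_assoc', mul_div_assoc', ← add_div, div_eq_iff hD]
    have h5 : (c : ℝ) ^ 2 / k = c ^ 2 * (1 / k) := by ring
    rw [h5]
    have h6 : nst c k = (xx + k1 k) * c := rfl
    have h7 : k1 k = (3 * xx - 1 / k) / 2 := rfl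
    have h8 := xx_eq
    linear_combination 2 * h2 + (-2 * c : ℝ) * h6 + (2 * xx * c ^ 2 - 2 * c ^ 2 : ℝ) * h7 +
      (c : ℝ) ^ 2 * h8
  rw [← key, hn]
  simp only [Fin.val_zero, Fin.val_one, Nat.cast_zero, Nat.cast_one]
  field_simp
  ring

theorem gen {k : ℕ} (hk : k = 5 ∨ k = 6) (hc : k ∣ c) (hc0 : 60 ≤ c) :
    ∃ γ : ℝ, 0 < γ ∧ γ ≤ xx ∧ ∀ F : Submodule ℂ ((Fin 2 → Fin c) → ℂ), F ≠ ⊥ →
      finrank ℂ F < (RR c k).card →
      ∑ x, ∑ y, tw c k x * tw c k y * (gv (F ⊓ CS (RR c k)) (ty c k x) (ty c k y) : ℝ) ≤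
        (xx - γ) * finrank ℂ F := by
  obtain ⟨b1, b2, b3, b4, b5, b6⟩ := nst_bounds hk hc hc0
  have hk0 : 0 < k := by omega
  have hcr : (60 : ℝ) ≤ c := by exact_mod_cast hc0
  have hkr : (0 : ℝ) < k := by exact_mod_cast hk0
  have hk' : (0 : ℝ) < 1 - 1 / k := by
    rcases hk with rfl | rfl <;> norm_num
  have hkc : (k : ℝ) * ((c / k : ℕ) : ℝ) = c := by
    exact_mod_cast Nat.mul_div_cancel' hc
  have hdk : c / k ≤ c := Nat.div_le_self c k
  have hr0 : ((c - c / k : ℕ) : ℝ) = c * (1 - 1 / k) := by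
    rw [Nat.cast_sub hdk]
    have h5 : ((c / k : ℕ) : ℝ) = c * (1 / k) := by
      rw [← hkc]
      field_simp
    rw [h5]
    ring
  have hRc : ((RR c k).card : ℝ) = c * (c * (1 - 1 / k)) := by
    rw [card_RR hk0 hc, Nat.cast_mul, hr0]
  have hr0' : (0 : ℝ) < c * (1 - 1 / k) := by positivity
  have hxx := xx_lo
  -- the gain
  let g0 : ℝ := (min (pw k 0) (pw k 1) * (1 - th c k)) ^ 2 / (c * (1 - 1 / k))
  have hmin : 0 < min (pw k 0) (pw k 1) := lt_min (pw_pos hk 0) (pw_pos hk 1)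
  have hg0 : 0 < g0 := by
    have : 0 < 1 - th c k := by linarith
    positivity
  have hmin' : ∀ i, min (pw k 0) (pw k 1) ≤ pw k i := by
    intro i
    rcases Fin.exists_fin_two.mp ⟨i, rfl⟩ with rfl | rfl
    · exact min_le_left _ _
    · exact min_le_right _ _
  refine ⟨min (g0 / c ^ 2) xx, lt_min (by positivity) (by linarith), min_le_right _ _,
    fun F hF hFR => ?_⟩
  have hγ : ∀ z : ℝ, 0 ≤ z → (xx - g0 / c ^ 2) * z ≤ (xx - min (g0 / c ^ 2) xx) * z := by
    intro z hz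
    have := min_le_left (g0 / c ^ 2) xx
    nlinarith
  have hγ' : 0 ≤ xx - min (g0 / c ^ 2) xx := by
    have := min_le_right (g0 / c ^ 2) xx
    linarith
  have hz : (0 : ℝ) ≤ finrank ℂ F := Nat.cast_nonneg _
  set E := F ⊓ CS (RR c k) with hEdef
  have hEF : (finrank ℂ E : ℝ) ≤ finrank ℂ F := by
    exact_mod_cast Submodule.finrank_mono (inf_le_left : E ≤ F)
  by_cases hE0 : E = ⊥
  · have h1 : ∀ x y, (gv E (ty c k x) (ty c k y) : ℝ) = 0 := by
      intro x y
      have h2 := gv_le_finrank E (ty c k x) (ty c k y)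
      rw [hE0, finrank_bot] at h2
      rw [hE0]
      exact_mod_cast Nat.le_zero.mp h2
    simp only [h1, mul_zero, sum_const_zero]
    exact mul_nonneg hγ' hz
  have hER : finrank ℂ E < (RR c k).card :=
    lt_of_le_of_lt (Submodule.finrank_mono (inf_le_left : E ≤ F)) hFR
  obtain ⟨cA, ⟨i₀, cS⟩, cB⟩ := gv_bounds hk hc E inf_le_right hE0 hER (s0 c k) b1 b2 b3
  set e : ℝ := (finrank ℂ E : ℝ) with he
  have he0 : 0 ≤ e := Nat.cast_nonneg _
  -- the bounds in the reals
  let U : Fin 2 × Fin 2 → Fin 2 × Fin 2 → ℝ := fun x y => if x.1 = y.1 then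
    1 - (2 * s0 c k + x.2 + y.2) / (c * (1 - 1 / k)) else
    ((c - (s0 c k + x.2)) * (c - (s0 c k + y.2)) - c ^ 2 / k) / (c * (c * (1 - 1 / k)))
  have hUA : ∀ i b b' : Fin 2, U (i, b) (i, b') =
      1 - (2 * s0 c k + b + b') / (c * (1 - 1 / k)) := by
    intro i b b'
    show (if i = i then _ else _) = _
    rw [if_pos rfl]
  have hUB : ∀ i b b' : Fin 2, U (i, b) (i + 1, b') =
      ((c - (s0 c k + b)) * (c - (s0 c k + b')) - c ^ 2 / k) / (c * (c * (1 - 1 / k))) := by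
    intro i b b'
    have hi : i ≠ i + 1 := by
      rcases Fin.exists_fin_two.mp ⟨i, rfl⟩ with rfl | rfl
      · decide
      · decide
    show (if i = i + 1 then _ else _) = _
    rw [if_neg hi]
  have hb1 : ∀ b : Fin 2, (b : ℕ) ≤ 1 := fun b => Nat.lt_succ_iff.mp b.2
  have vA : ∀ i b b' : Fin 2, (gv E (ty c k (i, b)) (ty c k (i, b')) : ℝ) ≤ e * U (i, b) (i, b') := by
    intro i b b'
    have h1 := cA i b b' (hb1 b) (hb1 b')
    have h2 : s0 c k + b + (s0 c k + b') ≤ c - c / k := by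
      have := hb1 b
      have := hb1 b'
      omega
    have h3 : ((gv E (i, s0 c k + b) (i, s0 c k + b') * (c - c / k) : ℕ) : ℝ) ≤
        (((c - c / k - (s0 c k + b + (s0 c k + b'))) * finrank ℂ E : ℕ) : ℝ) := by
      exact_mod_cast h1
    rw [Nat.cast_mul, Nat.cast_mul, Nat.cast_sub h2, hr0] at h3
    push_cast at h3
    rw [hUA]
    show (gv E (i, s0 c k + b) (i, s0 c k + b') : ℝ) ≤ _
    have h4 : e * (1 - (2 * s0 c k + b + b') / (c * (1 - 1 / k))) =
        (c * (1 - 1 / k) - (s0 c k + b + (s0 c k + b'))) * e / (c * (1 - 1 / k)) := by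
      have h5 : ∀ D : ℝ, D ≠ 0 → e * (1 - (2 * s0 c k + b + b') / D) =
          (D - (s0 c k + b + (s0 c k + b'))) * e / D := by
        intro D hD
        field_simp
        ring
      exact h5 _ (ne_of_gt hr0')
    rw [h4, le_div_iff₀ hr0']
    exact h3
  have vS : (gv E (ty c k (i₀, 0)) (ty c k (i₀, 0)) : ℝ) ≤
      e * U (i₀, 0) (i₀, 0) - 1 / (c * (1 - 1 / k)) := by
    have h2 : s0 c k + s0 c k ≤ c - c / k := by omega
    have h3 : ((gv E (i₀, s0 c k) (i₀, s0 c k) * (c - c / k) + 1 : ℕ) : ℝ) ≤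
        (((c - c / k - (s0 c k + s0 c k)) * finrank ℂ E : ℕ) : ℝ) := by
      exact_mod_cast cS
    rw [Nat.cast_add, Nat.cast_mul, Nat.cast_mul, Nat.cast_sub h2, hr0] at h3
    push_cast at h3
    rw [hUA]
    show (gv E (i₀, s0 c k + 0) (i₀, s0 c k + 0) : ℝ) ≤ _
    rw [Nat.add_zero]
    have h4 : e * (1 - (2 * s0 c k + ((0 : Fin 2) : ℕ) + ((0 : Fin 2) : ℕ)) / (c * (1 - 1 / k))) -
        1 / (c * (1 - 1 / k)) =
        ((c * (1 - 1 / k) - (s0 c k + s0 c k)) * e - 1) / (c * (1 - 1 / k)) := by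
      have h5 : ∀ D : ℝ, D ≠ 0 → e * (1 - (2 * s0 c k + 0 + 0) / D) - 1 / D =
          ((D - (s0 c k + s0 c k)) * e - 1) / D := by
        intro D hD
        field_simp
        ring
      simp only [Fin.val_zero, Nat.cast_zero]
      exact h5 _ (ne_of_gt hr0')
    rw [h4, le_div_iff₀ hr0']
    linarith
  have vB : ∀ i b b' : Fin 2, (gv E (ty c k (i, b)) (ty c k (i + 1, b')) : ℝ) ≤
      e * U (i, b) (i + 1, b') := by
    intro i b b'
    have h1 := cB i b b' (hb1 b) (hb1 b')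
    have h2 : s0 c k + b ≤ c := by
      have := hb1 b
      have := Nat.sub_le c (c / k)
      omega
    have h2' : s0 c k + b' ≤ c := by
      have := hb1 b'
      have := Nat.sub_le c (c / k)
      omega
    have hRle : (RR c k).card ≤ c ^ 2 := by
      rw [card_RR hk0 hc, pow_two]
      exact Nat.mul_le_mul_left _ (Nat.sub_le _ _)
    have h3 : (((RR c k).card * gv E (i, s0 c k + b) (i + 1, s0 c k + b') +
        finrank ℂ E * (c ^ 2 - (RR c k).card) : ℕ) : ℝ) ≤
        ((finrank ℂ E * ((c - (s0 c k + b)) * (c - (s0 c k + b'))) : ℕ) : ℝ) := by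
      exact_mod_cast h1
    rw [Nat.cast_add, Nat.cast_mul, Nat.cast_mul, Nat.cast_mul, Nat.cast_mul, Nat.cast_sub h2,
      Nat.cast_sub h2', Nat.cast_sub hRle, hRc] at h3
    push_cast at h3
    rw [hUB]
    show (gv E (i, s0 c k + b) (i + 1, s0 c k + b') : ℝ) ≤ _
    have h4 : e * (((c - (s0 c k + b)) * (c - (s0 c k + b')) - c ^ 2 / k) /
        (c * (c * (1 - 1 / k)))) =
        (e * ((c - (s0 c k + b)) * (c - (s0 c k + b'))) - e * (c ^ 2 / k)) /
          (c * (c * (1 - 1 / k))) := by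
      rw [mul_div_assoc']
      ring
    have hD : (0 : ℝ) < c * (c * (1 - 1 / k)) := by positivity
    rw [h4, le_div_iff₀ hD]
    have h5 : (c : ℝ) ^ 2 - c * (c * (1 - 1 / k)) = c ^ 2 / k := by
      field_simp
      ring
    rw [h5] at h3
    linarith
  have hU : ∀ x y, (gv E (ty c k x) (ty c k y) : ℝ) ≤ e * U x y -
      (if x = (i₀, 0) ∧ y = (i₀, 0) then 1 / ((c : ℝ) * (1 - 1 / k)) else 0 : ℝ) := by
    rintro ⟨i, b⟩ ⟨j, b'⟩
    split_ifs with h
    · rw [h.1, h.2]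
      exact vS
    · rw [sub_zero]
      by_cases hij : j = i
      · rw [hij]
        exact vA i b b'
      · rw [fin2_other hij]
        exact vB i b b'
  have hsum : ∑ x, ∑ y, tw c k x * tw c k y * (gv E (ty c k x) (ty c k y) : ℝ) ≤
      ∑ x, ∑ y, (e * (tw c k x * tw c k y * U x y) -
        if x = (i₀, 0) ∧ y = (i₀, 0) then tw c k x * tw c k y * (1 / (c * (1 - 1 / k))) else 0) := by
    refine sum_le_sum fun x _ => sum_le_sum fun y _ => ?_
    have h1 := mul_le_mul_of_nonneg_left (hU x y)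
      (mul_nonneg (tw_nonneg hk hc hc0 x) (tw_nonneg hk hc hc0 y))
    refine h1.trans (le_of_eq ?_)
    split_ifs
    · ring
    · ring
  have hsum2 : ∑ x, ∑ y, (e * (tw c k x * tw c k y * U x y) -
        if x = (i₀, 0) ∧ y = (i₀, 0) then tw c k x * tw c k y * (1 / (c * (1 - 1 / k))) else 0) =
      e * xx - tw c k (i₀, 0) * tw c k (i₀, 0) * (1 / (c * (1 - 1 / k))) := by
    have h1 := mean_eq hk (c := c) (by omega) U hUA hUB
    simp only [sum_sub_distrib]
    congr 1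
    · rw [← h1, mul_sum]
      refine sum_congr rfl fun x _ => ?_
      rw [mul_sum]
    · rw [Finset.sum_eq_single (i₀, 0)]
      · rw [Finset.sum_eq_single (i₀, 0)]
        · rw [if_pos ⟨rfl, rfl⟩]
        · intro y _ hy
          rw [if_neg fun h => hy h.2]
        · intro h
          exact absurd (mem_univ _) h
      · intro x _ hx
        refine sum_eq_zero fun y _ => ?_
        rw [if_neg fun h => hx h.1]
      · intro h
        exact absurd (mem_univ _) h
  have hgain : g0 ≤ tw c k (i₀, 0) * tw c k (i₀, 0) * (1 / (c * (1 - 1 / k))) := by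
    have h1 : tw c k (i₀, 0) = pw k i₀ * (1 - th c k) := by
      show pw k i₀ * qw c k 0 = _
      unfold qw
      rw [if_pos rfl]
    have h2 : min (pw k 0) (pw k 1) * (1 - th c k) ≤ pw k i₀ * (1 - th c k) :=
      mul_le_mul_of_nonneg_right (hmin' i₀) (by linarith)
    have h3 : 0 ≤ min (pw k 0) (pw k 1) * (1 - th c k) := mul_nonneg hmin.le (by linarith)
    rw [h1]
    show (min (pw k 0) (pw k 1) * (1 - th c k)) ^ 2 / (c * (1 - 1 / k)) ≤ _
    rw [div_eq_mul_one_div, pow_two]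
    refine mul_le_mul_of_nonneg_right (mul_le_mul h2 h2 h3 (h3.trans h2)) (by positivity)
  refine hsum.trans ?_
  rw [hsum2]
  refine le_trans ?_ (hγ _ hz)
  have hle : (finrank ℂ F : ℝ) ≤ c ^ 2 := by
    exact_mod_cast finrank_le_cells F
  have h5 : g0 / c ^ 2 * finrank ℂ F ≤ g0 := by
    rw [div_mul_eq_mul_div, div_le_iff₀ (by positivity)]
    exact mul_le_mul_of_nonneg_left hle hg0.le
  have h6 : e * xx ≤ finrank ℂ F * xx := mul_le_mul_of_nonneg_right hEF (by linarith)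
  linarith

end Pool.Agent.KZ.BE
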