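import Pool.Agent.KZ.BE.Defs

/-!
# KZ4, block BETA, module Mix: two types of different blocks on a monomial subspace

* `gv_super`: `v S = gv (CS S) τ τ'` is supermodular: at vectors `U, U'` which are general for
  `CS (S ∪ S')` and `CS (S ∩ S')` (general position: `Pool.Agent.H51.TB.Gn`, `gn_gd` for a system
  `Sys` with one object)
  `dim (CS S ⊓ M) + dim (CS S' ⊓ M) ≤ dim (CS (S ∪ S') ⊓ M) + dim (CS (S ∩ S') ⊓ M)`;
* `gv_perm`: `v` is invariant under permutations of the coordinates in the two blocks;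
* `gv_mix`: `f S = |R| v S - |S| v R` is supermodular, `f ∅ = f R = 0`.  A maximiser `S ⊆ R` of `f` of
  largest cardinality is invariant under the pairs of permutations which preserve `R`, which are
  transitive on `R`, so it is `∅` or `R`.
-/

set_option autoImplicit false
set_option linter.unusedSectionVars false

namespace Pool.Agent.KZ.BE

open Finset Module MvPolynomial Pool.Agent.H51.TB

variable {c : ℕ}

/-! ### The system -/

theorem other : ∀ {i j : Fin 2}, j ≠ i → j = 1 - i := by decide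

/-- The cells with the coordinate `b` in the block other than `i`. -/
theorem sum_cel (i : Fin 2) (u : Fin c → ℂ) (g : (Fin 2 → Fin c) → ℂ) (b : Fin c) :
    ∑ a, u a * g (cel i a b) = ∑ z : Fin 2 → Fin c, (if z (1 - i) = b then u (z i) else 0) * g z := by
  classical
  have hne : ∀ j : Fin 2, (1 : Fin 2) - j ≠ j := by decide
  have h1 : ∑ a, u a * g (cel i a b) =
      ∑ z ∈ (univ : Finset (Fin c)).image fun a => cel i a b, u (z i) * g z := by
    rw [sum_image]
    · exact sum_congr rfl fun a _ => by rw [cel_same]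
    · intro a _ a' _ h
      have h2 : cel i a b i = cel i a' b i := congrFun h i
      rwa [cel_same, cel_same] at h2
  rw [h1]
  have h2 : ∀ z : Fin 2 → Fin c, (if z (1 - i) = b then u (z i) else 0) * g z =
      if z (1 - i) = b then u (z i) * g z else 0 := by
    intro z
    split_ifs
    · rfl
    · rw [zero_mul]
  simp only [h2]
  rw [← sum_filter]
  refine sum_congr ?_ fun _ _ => rfl
  ext z
  rw [mem_image, mem_filter]
  constructor
  · rintro ⟨a, _, rfl⟩
    exact ⟨mem_univ _, cel_ne (hne i) a b⟩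
  · rintro ⟨_, hz⟩
    refine ⟨z i, mem_univ _, ?_⟩
    funext j
    by_cases hj : j = i
    · subst hj
      rw [cel_same]
    · rw [cel_ne hj, ← hz]
      exact congrArg z (other hj).symm

/-- The system of the functions on the cells: a type is the set of cells where they may be
different from `0`. -/
noncomputable def mxS (c : ℕ) (τ τ' : Ty) :
    Sys (Fin 2 → Fin c) (Bool × ℕ × Fin c) (Finset (Fin 2 → Fin c)) where
  R := fun S => {z // z ∉ S} ⊕ ((Fin τ.2 × Fin c) ⊕ (Fin τ'.2 × Fin c))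
  fin := fun _ => inferInstance
  co := fun _ r z => Sum.elim (fun y => if z = y.1 then 1 else 0)
    (Sum.elim (fun y => if z (1 - τ.1) = y.2 then X (true, y.1.1, z τ.1) else 0)
      (fun y => if z (1 - τ'.1) = y.2 then X (false, y.1.1, z τ'.1) else 0)) r

theorem mxS_V (τ τ' : Ty) (S : Finset (Fin 2 → Fin c)) (q : Bool × ℕ × Fin c → ℂ) :
    (mxS c τ τ').V (fun _ : Unit => S) (fun _ => q) =
      CS S ⊓ KU τ.1 τ.2 (fun l a => q (true, l, a)) ⊓ KU τ'.1 τ'.2 (fun l a => q (false, l, a)) := by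
  classical
  ext g
  rw [Submodule.mem_inf, Submodule.mem_inf, mem_CS, mem_KU, mem_KU, Sys.mem_V]
  have e1 : ∀ (y : Fin 2 → Fin c), ∑ z : Fin 2 → Fin c,
      eval q (if z = y then (1 : MvPolynomial (Bool × ℕ × Fin c) ℂ) else 0) * g z = g y := by
    intro y
    rw [sum_eq_single y]
    · rw [if_pos rfl, map_one, one_mul]
    · intro z _ hz
      rw [if_neg hz, map_zero, zero_mul]
    · intro h
      exact absurd (mem_univ y) h
  have e2 : ∀ (i : Fin 2) (b : Fin c) (w : Bool) (l : ℕ), ∑ z : Fin 2 → Fin c,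
      eval q (if z (1 - i) = b then (X (w, l, z i) : MvPolynomial (Bool × ℕ × Fin c) ℂ) else 0) *
        g z = ∑ a, q (w, l, a) * g (cel i a b) := by
    intro i b w l
    rw [sum_cel i (fun a => q (w, l, a))]
    refine sum_congr rfl fun z _ => ?_
    congr 1
    split_ifs
    · rw [eval_X]
    · rw [map_zero]
  constructor
  · intro h
    refine ⟨⟨fun z hz => ?_, fun l hl b => ?_⟩, fun l hl b => ?_⟩
    · rw [← e1 z]
      exact h () (Sum.inl ⟨z, hz⟩)
    · rw [← e2 τ.1 b true l]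
      exact h () (Sum.inr (Sum.inl (⟨l, hl⟩, b)))
    · rw [← e2 τ'.1 b false l]
      exact h () (Sum.inr (Sum.inr (⟨l, hl⟩, b)))
  · rintro ⟨⟨h1, h2⟩, h3⟩ _ (y | (y | y))
    · exact (e1 y.1).trans (h1 y.1 y.2)
    · exact (e2 τ.1 y.2 true y.1.1).trans (h2 y.1.1 y.1.2 y.2)
    · exact (e2 τ'.1 y.2 false y.1.1).trans (h3 y.1.1 y.1.2 y.2)

theorem mxS_gd (τ τ' : Ty) (S : Finset (Fin 2 → Fin c)) :
    (mxS c τ τ').gd (fun _ : Unit => S) = gv (CS S) τ τ' := by
  apply le_antisymm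
  · obtain ⟨U, U', h⟩ := exists_gv (CS S) τ τ'
    rw [← h]
    have h1 := gd_le (mxS c τ τ') (fun _ : Unit => S)
      (fun _ x => if x.1 = true then U x.2.1 x.2.2 else U' x.2.1 x.2.2)
    rw [mxS_V] at h1
    exact h1
  · obtain ⟨p, hp⟩ := gd_attained (mxS c τ τ') (fun _ : Unit => S)
    rw [← hp]
    have h1 := mxS_V τ τ' S (p ())
    have h2 : (mxS c τ τ').V (fun _ : Unit => S) p =
        (mxS c τ τ').V (fun _ : Unit => S) (fun _ => p ()) := rfl
    rw [h2, h1]
    exact gv_le (CS S) τ τ' _ _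

theorem CS_inter (S S' : Finset (Fin 2 → Fin c)) : CS (S ∩ S') = CS S ⊓ CS S' := by
  ext g
  rw [Submodule.mem_inf, mem_CS, mem_CS, mem_CS]
  constructor
  · intro h
    exact ⟨fun z hz => h z fun h' => hz (mem_inter.1 h').1,
      fun z hz => h z fun h' => hz (mem_inter.1 h').2⟩
  · rintro ⟨h1, h2⟩ z hz
    by_cases h3 : z ∈ S
    · exact h2 z fun h4 => hz (mem_inter.2 ⟨h3, h4⟩)
    · exact h1 z h3

theorem gv_super (S S' : Finset (Fin 2 → Fin c)) (τ τ' : Ty) :
    gv (CS S) τ τ' + gv (CS S') τ τ' ≤ gv (CS (S ∪ S')) τ τ' + gv (CS (S ∩ S')) τ τ' := by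
  obtain ⟨p, h1, h2⟩ := ((gn_gd (mxS c τ τ') (fun _ : Unit => S ∪ S')).and
    (gn_gd (mxS c τ τ') (fun _ : Unit => S ∩ S'))).exists
  rw [mxS_gd] at h1 h2
  have e : ∀ S₀ : Finset (Fin 2 → Fin c), (mxS c τ τ').V (fun _ : Unit => S₀) p =
      CS S₀ ⊓ KU τ.1 τ.2 (fun l a => p () (true, l, a)) ⊓
        KU τ'.1 τ'.2 (fun l a => p () (false, l, a)) := fun S₀ => mxS_V τ τ' S₀ (p ())
  set M : Submodule ℂ ((Fin 2 → Fin c) → ℂ) := KU τ.1 τ.2 (fun l a => p () (true, l, a)) ⊓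
    KU τ'.1 τ'.2 (fun l a => p () (false, l, a)) with hM
  have e' : ∀ S₀ : Finset (Fin 2 → Fin c), (mxS c τ τ').V (fun _ : Unit => S₀) p = CS S₀ ⊓ M := by
    intro S₀
    rw [e, inf_assoc]
  have hle : ∀ S₀ : Finset (Fin 2 → Fin c), gv (CS S₀) τ τ' ≤ finrank ℂ ↥(CS S₀ ⊓ M) := by
    intro S₀
    rw [← e', e]
    exact gv_le _ _ _ _ _
  rw [← h1, ← h2, e', e']
  have h3 := Submodule.finrank_sup_add_finrank_inf_eq (CS S ⊓ M) (CS S' ⊓ M)
  have h4 : (CS S ⊓ M) ⊓ (CS S' ⊓ M) = CS (S ∩ S') ⊓ M := by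
    rw [CS_inter]
    exact (inf_inf_distrib_right _ _ _).symm
  have h5 : (CS S ⊓ M) ⊔ (CS S' ⊓ M) ≤ CS (S ∪ S') ⊓ M :=
    sup_le (inf_le_inf_right _ (CS_mono subset_union_left))
      (inf_le_inf_right _ (CS_mono subset_union_right))
  have h6 := Submodule.finrank_mono h5
  rw [h4] at h3
  have h7 := hle S
  have h8 := hle S'
  omega

/-- The action of two permutations on the cells. -/
def pm (σ : Fin 2 → Equiv.Perm (Fin c)) : (Fin 2 → Fin c) ↪ (Fin 2 → Fin c) :=
  ⟨fun z i => σ i (z i), fun _ _ h => funext fun i => (σ i).injective (congrFun h i)⟩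

theorem pm_apply (σ : Fin 2 → Equiv.Perm (Fin c)) (z : Fin 2 → Fin c) (i : Fin 2) :
    pm σ z i = σ i (z i) := rfl

theorem pm_symm (σ : Fin 2 → Equiv.Perm (Fin c)) (z : Fin 2 → Fin c) :
    pm (fun i => (σ i).symm) (pm σ z) = z := by
  funext i
  rw [pm_apply, pm_apply, Equiv.symm_apply_apply]

theorem pm_symm' (σ : Fin 2 → Equiv.Perm (Fin c)) (z : Fin 2 → Fin c) :
    pm σ (pm (fun i => (σ i).symm) z) = z := by
  funext i
  rw [pm_apply, pm_apply, Equiv.apply_symm_apply]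

theorem pm_cel (σ : Fin 2 → Equiv.Perm (Fin c)) (i : Fin 2) (a b : Fin c) :
    pm (fun i => (σ i).symm) (cel i a b) = cel i ((σ i).symm a) ((σ (1 - i)).symm b) := by
  funext j
  rw [pm_apply]
  by_cases hj : j = i
  · subst hj
    rw [cel_same, cel_same]
  · rw [cel_ne hj, cel_ne hj]
    rw [← other hj]

theorem KU_pm (σ : Fin 2 → Equiv.Perm (Fin c)) (i : Fin 2) (s : ℕ) (U : ℕ → Fin c → ℂ)
    (g : (Fin 2 → Fin c) → ℂ) (hg : g ∈ KU i s fun l a => U l (σ i a)) :
    (fun z => g (pm (fun i => (σ i).symm) z)) ∈ KU i s U := by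
  intro l hl b
  have h1 := hg l hl ((σ (1 - i)).symm b)
  rw [← h1]
  refine (Equiv.sum_comp (σ i) fun a =>
    U l a * g (pm (fun i => (σ i).symm) (cel i a b))).symm.trans ?_
  refine sum_congr rfl fun a _ => ?_
  show U l (σ i a) * g (pm (fun i => (σ i).symm) (cel i (σ i a) b)) = _
  rw [pm_cel, Equiv.symm_apply_apply]

theorem dm_pm (S : Finset (Fin 2 → Fin c)) (σ : Fin 2 → Equiv.Perm (Fin c)) (τ τ' : Ty)
    (U U' : ℕ → Fin c → ℂ) :
    dm (CS S) τ τ' (fun l a => U l (σ τ.1 a)) (fun l a => U' l (σ τ'.1 a)) ≤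
      dm (CS (S.map (pm σ))) τ τ' U U' := by
  unfold dm
  let L : ((Fin 2 → Fin c) → ℂ) →ₗ[ℂ] ((Fin 2 → Fin c) → ℂ) :=
    LinearMap.funLeft ℂ ℂ (pm fun i => (σ i).symm)
  have hL : ∀ g z, L g z = g (pm (fun i => (σ i).symm) z) := fun g z => rfl
  have hmem : ∀ g ∈ CS S ⊓ KU τ.1 τ.2 (fun l a => U l (σ τ.1 a)) ⊓
      KU τ'.1 τ'.2 (fun l a => U' l (σ τ'.1 a)), L g ∈
      CS (S.map (pm σ)) ⊓ KU τ.1 τ.2 U ⊓ KU τ'.1 τ'.2 U' := by
    rintro g ⟨⟨h1, h2⟩, h3⟩
    refine ⟨⟨?_, KU_pm σ τ.1 τ.2 U g h2⟩, KU_pm σ τ'.1 τ'.2 U' g h3⟩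
    intro z hz
    rw [hL]
    apply h1
    intro h4
    apply hz
    rw [mem_map]
    exact ⟨_, h4, pm_symm' σ z⟩
  have hinj : Function.Injective L := by
    intro g g' h
    funext z
    have h1 := congrFun h (pm σ z)
    rw [hL, hL, pm_symm] at h1
    exact h1
  let L' := (L.domRestrict (CS S ⊓ KU τ.1 τ.2 (fun l a => U l (σ τ.1 a)) ⊓
      KU τ'.1 τ'.2 (fun l a => U' l (σ τ'.1 a)))).codRestrict
      (CS (S.map (pm σ)) ⊓ KU τ.1 τ.2 U ⊓ KU τ'.1 τ'.2 U') fun g => hmem g.1 g.2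
  refine LinearMap.finrank_le_finrank_of_injective (f := L') ?_
  intro g g' h
  apply Subtype.ext
  apply hinj
  exact congrArg Subtype.val h

theorem gv_perm_le (S : Finset (Fin 2 → Fin c)) (σ : Fin 2 → Equiv.Perm (Fin c)) (τ τ' : Ty) :
    gv (CS S) τ τ' ≤ gv (CS (S.map (pm σ))) τ τ' := by
  obtain ⟨U, U', h⟩ := exists_gv (CS (S.map (pm σ))) τ τ'
  rw [← h]
  exact (gv_le _ _ _ _ _).trans (dm_pm S σ τ τ' U U')

theorem gv_perm (S : Finset (Fin 2 → Fin c)) (σ : Fin 2 → Equiv.Perm (Fin c)) (τ τ' : Ty) :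
    gv (CS (S.map (pm σ))) τ τ' = gv (CS S) τ τ' := by
  refine le_antisymm ?_ (gv_perm_le S σ τ τ')
  have h1 := gv_perm_le (S.map (pm σ)) (fun i => (σ i).symm) τ τ'
  have h2 : (S.map (pm σ)).map (pm fun i => (σ i).symm) = S := by
    ext z
    rw [mem_map]
    constructor
    · rintro ⟨y, hy, rfl⟩
      rw [mem_map] at hy
      obtain ⟨x, hx, rfl⟩ := hy
      rw [pm_symm]
      exact hx
    · intro hz
      exact ⟨pm σ z, mem_map_of_mem _ hz, pm_symm σ z⟩
  rwa [h2] at h1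

/-- A permutation with two given values. -/
theorem exists_perm2 {α : Type} [DecidableEq α] (x₀ x₁ y₀ y₁ : α) (hx : x₀ ≠ x₁) (hy : y₀ ≠ y₁) :
    ∃ π : Equiv.Perm α, π x₀ = y₀ ∧ π x₁ = y₁ := by
  refine ⟨(Equiv.swap x₀ y₀).trans (Equiv.swap (Equiv.swap x₀ y₀ x₁) y₁), ?_, ?_⟩
  · rw [Equiv.trans_apply, Equiv.swap_apply_left, Equiv.swap_apply_of_ne_of_ne]
    · intro h
      have h1 : Equiv.swap x₀ y₀ x₀ = Equiv.swap x₀ y₀ x₁ := by
        rw [Equiv.swap_apply_left]
        exact h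
      exact hx ((Equiv.swap x₀ y₀).injective h1)
    · exact hy
  · rw [Equiv.trans_apply, Equiv.swap_apply_left]

/-- The pairs of permutations which preserve `RR c k` are transitive on it. -/
theorem RR_trans {k : ℕ} (hc : k ∣ c) (z z' : Fin 2 → Fin c) (hz : z ∈ RR c k)
    (hz' : z' ∈ RR c k) :
    ∃ σ : Fin 2 → Equiv.Perm (Fin c), (RR c k).map (pm σ) = RR c k ∧ pm σ z = z' := by
  classical
  rw [mem_RR] at hz hz'
  obtain ⟨d, rfl⟩ := hc
  have hk : 0 < k := by
    rcases Nat.eq_zero_or_pos k with h | h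
    · subst h
      have h1 : (z 0 : ℕ) < 0 := (z 0).2.trans_eq (zero_mul d)
      exact absurd h1 (Nat.not_lt_zero _)
    · exact h
  -- the coordinates
  let E : Fin (k * d) ≃ Fin d × Fin k := (finCongr (mul_comm k d)).trans finProdFinEquiv.symm
  have hE2 : ∀ a, ((E a).2 : ℕ) = (a : ℕ) % k := fun a => rfl
  obtain ⟨π, hπ0, hπ1⟩ := exists_perm2 (E (z 0)).2 (E (z 1)).2 (E (z' 0)).2 (E (z' 1)).2
    (fun h => hz (by rw [← hE2, ← hE2, h])) (fun h => hz' (by rw [← hE2, ← hE2, h]))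
  let σ : Fin 2 → Equiv.Perm (Fin (k * d)) := fun i =>
    (E.trans (Equiv.prodCongr (Equiv.swap (E (z i)).1 (E (z' i)).1) π)).trans E.symm
  have hσ : ∀ i a, (E (σ i a)).2 = π (E a).2 := by
    intro i a
    show (E (E.symm (Equiv.prodCongr (Equiv.swap (E (z i)).1 (E (z' i)).1) π (E a)))).2 = _
    rw [Equiv.apply_symm_apply]
    rfl
  have hpres : ∀ y : Fin 2 → Fin (k * d), pm σ y ∈ RR (k * d) k ↔ y ∈ RR (k * d) k := by
    intro y
    rw [mem_RR, mem_RR, pm_apply, pm_apply, ← hE2, ← hE2, ← hE2, ← hE2, hσ, hσ]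
    constructor
    · intro h h'
      exact h (by rw [Fin.ext h'])
    · intro h h'
      exact h (by rw [π.injective (Fin.ext h')])
  refine ⟨σ, ?_, ?_⟩
  · ext y
    rw [mem_map]
    constructor
    · rintro ⟨x, hx, rfl⟩
      exact (hpres x).2 hx
    · intro hy
      refine ⟨pm (fun i => (σ i).symm) y, ?_, pm_symm' σ y⟩
      rw [← hpres, pm_symm']
      exact hy
  · funext i
    rw [pm_apply]
    show E.symm (Equiv.prodCongr (Equiv.swap (E (z i)).1 (E (z' i)).1) π (E (z i))) = z' i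
    rw [Equiv.symm_apply_eq]
    apply Prod.ext
    · show Equiv.swap (E (z i)).1 (E (z' i)).1 (E (z i)).1 = (E (z' i)).1
      rw [Equiv.swap_apply_left]
    · show π (E (z i)).2 = (E (z' i)).2
      fin_cases i
      · exact hπ0
      · exact hπ1

theorem gv_CS_empty (τ τ' : Ty) : gv (CS (∅ : Finset (Fin 2 → Fin c))) τ τ' = 0 := by
  have h1 := gv_le_finrank (CS (∅ : Finset (Fin 2 → Fin c))) τ τ'
  have h2 : CS (∅ : Finset (Fin 2 → Fin c)) = ⊥ := by
    rw [eq_bot_iff]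
    intro g hg
    rw [Submodule.mem_bot]
    funext z
    exact hg z (notMem_empty z)
  rw [h2, finrank_bot] at h1
  rw [h2]
  omega

theorem gv_mix {k : ℕ} (hc : k ∣ c) (S : Finset (Fin 2 → Fin c)) (hS : S ⊆ RR c k) (τ τ' : Ty) :
    (RR c k).card * gv (CS S) τ τ' ≤ S.card * gv (CS (RR c k)) τ τ' := by
  classical
  set R := RR c k with hR
  let f : Finset (Fin 2 → Fin c) → ℤ := fun S =>
    (R.card : ℤ) * gv (CS S) τ τ' - (S.card : ℤ) * gv (CS R) τ τ'
  have hsup : ∀ S S', f S + f S' ≤ f (S ∪ S') + f (S ∩ S') := by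
    intro S S'
    have h1 := gv_super S S' τ τ'
    have h2 := card_union_add_card_inter S S'
    have h3 : ((gv (CS S) τ τ' : ℤ) + gv (CS S') τ τ') ≤
        gv (CS (S ∪ S')) τ τ' + gv (CS (S ∩ S')) τ τ' := by exact_mod_cast h1
    have h4 : ((S ∪ S').card : ℤ) + (S ∩ S').card = S.card + S'.card := by exact_mod_cast h2
    have h5 := mul_le_mul_of_nonneg_left h3 (Int.natCast_nonneg R.card)
    have h6 : ((S ∪ S').card : ℤ) * gv (CS R) τ τ' + (S ∩ S').card * gv (CS R) τ τ' =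
        S.card * gv (CS R) τ τ' + S'.card * gv (CS R) τ τ' := by
      rw [← add_mul, h4, add_mul]
    simp only [f]
    linarith
  have hperm : ∀ S (σ : Fin 2 → Equiv.Perm (Fin c)), f (S.map (pm σ)) = f S := by
    intro S σ
    simp only [f]
    rw [gv_perm, card_map]
  have h0 : f ∅ = 0 := by
    simp only [f]
    rw [gv_CS_empty, card_empty]
    simp
  have hRR : f R = 0 := by
    simp only [f]
    ring
  -- a maximiser
  obtain ⟨S₁, hS₁, hmax⟩ := exists_max_image R.powerset f ⟨∅, empty_mem_powerset R⟩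
  have hmain : f S₁ ≤ 0 := by
    by_contra hpos
    push Not at hpos
    obtain ⟨S₀, hS₀, hcard⟩ := exists_max_image (R.powerset.filter fun S => f S = f S₁)
      (fun S => S.card) ⟨S₁, mem_filter.2 ⟨hS₁, rfl⟩⟩
    rw [mem_filter, mem_powerset] at hS₀
    obtain ⟨hS₀R, hS₀f⟩ := hS₀
    have hne : S₀.Nonempty := by
      rw [nonempty_iff_ne_empty]
      rintro rfl
      rw [h0] at hS₀f
      omega
    obtain ⟨z, hz⟩ := hne
    have hall : R ⊆ S₀ := by
      intro z' hz'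
      obtain ⟨σ, hσ, hσz⟩ := RR_trans hc z z' (hS₀R hz) hz'
      have h1 : S₀.map (pm σ) ⊆ R := by
        have h1' : S₀.map (pm σ) ⊆ R.map (pm σ) := map_subset_map.2 hS₀R
        exact h1'.trans hσ.subset
      have h2 := hsup S₀ (S₀.map (pm σ))
      rw [hperm] at h2
      have h3 := hmax (S₀ ∩ S₀.map (pm σ))
        (mem_powerset.2 (inter_subset_left.trans hS₀R))
      have h4 := hmax (S₀ ∪ S₀.map (pm σ)) (mem_powerset.2 (union_subset hS₀R h1))
      have h5 : f (S₀ ∪ S₀.map (pm σ)) = f S₁ := by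
        rw [hS₀f] at h2
        omega
      have h6 := hcard (S₀ ∪ S₀.map (pm σ))
        (mem_filter.2 ⟨mem_powerset.2 (union_subset hS₀R h1), h5⟩)
      have h7 : S₀ = S₀ ∪ S₀.map (pm σ) := eq_of_subset_of_card_le subset_union_left h6
      rw [h7, ← hσz]
      exact mem_union_right _ (mem_map_of_mem _ hz)
    have h8 : S₀ = R := subset_antisymm hS₀R hall
    rw [h8, hRR] at hS₀f
    omega
  have h1 := (hmax S (mem_powerset.2 hS)).trans hmain
  have h2 : (R.card : ℤ) * gv (CS S) τ τ' ≤ S.card * gv (CS R) τ τ' := by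
    simp only [f] at h1
    linarith
  exact_mod_cast h2

end Pool.Agent.KZ.BE
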