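import Pool.Agent.KZ.BE.Adp
import Pool.Agent.KZ.BE.Mix
import Pool.Agent.KZ.BE.Fold

/-!
# KZ4, block BETA, module GenA: the bounds for the generic values
-/

set_option autoImplicit false
set_option linter.unusedSectionVars false

namespace Pool.Agent.KZ.BE

open Finset Module

variable {c : ℕ}

theorem card_class (k q r : ℕ) (hr : r < k) :
    (univ.filter fun b : Fin (k * q) => (b : ℕ) % k = r).card = q := by
  have h1 : (univ : Finset (Fin q)).card = q := by simp
  conv_rhs => rw [← h1]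
  symm
  have hlt : ∀ j : Fin q, k * (j : ℕ) + r < k * q := by
    intro j
    calc k * (j : ℕ) + r < k * (j : ℕ) + k := by omega
      _ = k * ((j : ℕ) + 1) := by ring
      _ ≤ k * q := Nat.mul_le_mul_left _ j.2
  refine card_bij (fun j _ => ⟨k * (j : ℕ) + r, hlt j⟩) ?_ ?_ ?_
  · intro j _
    rw [mem_filter]
    refine ⟨mem_univ _, ?_⟩
    show (k * (j : ℕ) + r) % k = r
    rw [Nat.mul_add_mod, Nat.mod_eq_of_lt hr]
  · intro j _ j' _ h
    have h2 : k * (j : ℕ) + r = k * (j' : ℕ) + r := Fin.val_eq_of_eq h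
    apply Fin.ext
    exact Nat.eq_of_mul_eq_mul_left (by omega) (Nat.add_right_cancel h2)
  · intro b hb
    rw [mem_filter] at hb
    have h2 := Nat.div_add_mod (b : ℕ) k
    have h3 : (b : ℕ) / k < q := by
      rw [Nat.div_lt_iff_lt_mul (by omega)]
      exact lt_of_lt_of_eq b.2 (mul_comm k q)
    refine ⟨⟨(b : ℕ) / k, h3⟩, mem_univ _, ?_⟩
    apply Fin.ext
    show k * ((b : ℕ) / k) + r = b
    rw [← hb.2]
    exact h2

theorem card_nclass {k : ℕ} (hk : 0 < k) (hc : k ∣ c) (r : ℕ) (hr : r < k) :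
    (univ.filter fun b : Fin c => (b : ℕ) % k ≠ r).card = c - c / k := by
  obtain ⟨q, rfl⟩ := hc
  have h1 := Finset.card_filter_add_card_filter_not (s := (univ : Finset (Fin (k * q))))
    (fun b : Fin (k * q) => (b : ℕ) % k = r)
  rw [card_class k q r hr, Finset.card_univ, Fintype.card_fin] at h1
  rw [Nat.mul_div_cancel_left q hk]
  have h2 : (univ.filter fun b : Fin (k * q) => (b : ℕ) % k ≠ r).card =
      (univ.filter fun b : Fin (k * q) => ¬ (b : ℕ) % k = r).card := rfl
  rw [h2]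
  omega

theorem card_RR_line {k : ℕ} (hk : 0 < k) (hc : k ∣ c) (i : Fin 2) (a : Fin c) :
    ((RR c k).filter fun f => f i = a).card = c - c / k := by
  rw [← card_nclass hk hc ((a : ℕ) % k) (Nat.mod_lt _ hk)]
  have hi : i + 1 ≠ i := by
    rcases Fin.exists_fin_two.mp ⟨i, rfl⟩ with rfl | rfl
    · decide
    · decide
  have hmem : ∀ f : Fin 2 → Fin c, f ∈ RR c k ↔ (f (i + 1) : ℕ) % k ≠ (f i : ℕ) % k := by
    intro f
    rw [mem_RR]
    rcases Fin.exists_fin_two.mp ⟨i, rfl⟩ with rfl | rfl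
    · exact ne_comm
    · rfl
  refine card_bij (fun f _ => f (i + 1)) ?_ ?_ ?_
  · intro f hf
    rw [mem_filter, hmem] at hf
    rw [mem_filter, ← hf.2]
    exact ⟨mem_univ _, hf.1⟩
  · intro f hf g hg h
    rw [mem_filter] at hf hg
    funext x
    by_cases hx : x = i
    · rw [hx, hf.2, hg.2]
    · rw [fin2_other hx]
      exact h
  · intro b hb
    rw [mem_filter] at hb
    refine ⟨cel i a b, mem_filter.mpr ⟨?_, cel_same i a b⟩, cel_ne hi a b⟩
    rw [hmem, cel_same, cel_ne hi]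
    exact hb.2

theorem card_RR {k : ℕ} (hk : 0 < k) (hc : k ∣ c) : (RR c k).card = c * (c - c / k) := by
  rw [Finset.card_eq_sum_card_fiberwise (f := fun f => f 0) (t := univ) fun f _ => by simp]
  rw [Finset.sum_congr rfl fun a _ => card_RR_line hk hc 0 a, Finset.sum_const, Finset.card_univ,
    Fintype.card_fin, smul_eq_mul]

/-- The rows and columns of `RR` connect everything. -/
theorem RR_conn {k : ℕ} (hk : 3 ≤ k) (hc : k ∣ c) (S : Finset (Fin 2 → Fin c)) (hS : S ⊆ RR c k)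
    (h : ∀ (i : Fin 2), ∀ f ∈ S, ∀ g ∈ RR c k, g i = f i → g ∈ S) : S = ∅ ∨ S = RR c k := by
  rcases S.eq_empty_or_nonempty with h0 | ⟨f, hf⟩
  · exact Or.inl h0
  refine Or.inr (Subset.antisymm hS fun g hg => ?_)
  have hfR := (mem_RR f).mp (hS hf)
  have hgR := (mem_RR g).mp hg
  have hkc : k ≤ c := Nat.le_of_dvd (lt_of_le_of_lt (Nat.zero_le _) (f 0).2) hc
  obtain ⟨r, hr, h1, h2⟩ : ∃ r < k, (f 0 : ℕ) % k ≠ r ∧ (g 0 : ℕ) % k ≠ r := by
    by_contra hne
    push Not at hne
    have e0 := hne 0 (by omega)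
    have e1 := hne 1 (by omega)
    have e2 := hne 2 (by omega)
    by_cases a0 : (f 0 : ℕ) % k = 0
    · have := e1 (by omega)
      have := e2 (by omega)
      omega
    · have b0 := e0 a0
      by_cases a1 : (f 0 : ℕ) % k = 1
      · have := e2 (by omega)
        omega
      · have := e1 a1
        omega
  have hrc : r < c := by omega
  have s1 : (![f 0, ⟨r, hrc⟩] : Fin 2 → Fin c) ∈ S := by
    refine h 0 f hf _ ?_ rfl
    rw [mem_RR]
    show (f 0 : ℕ) % k ≠ r % k
    rw [Nat.mod_eq_of_lt hr]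
    exact h1
  have s2 : (![g 0, ⟨r, hrc⟩] : Fin 2 → Fin c) ∈ S := by
    refine h 1 _ s1 _ ?_ rfl
    rw [mem_RR]
    show (g 0 : ℕ) % k ≠ r % k
    rw [Nat.mod_eq_of_lt hr]
    exact h2
  exact h 0 _ s2 g hg rfl

/-- The bounds, with a gain for the two pairs of types `(i, s), (i, s')`. -/
theorem gv_bounds {k : ℕ} (hk : k = 5 ∨ k = 6) (hc : k ∣ c)
    (E : Submodule ℂ ((Fin 2 → Fin c) → ℂ)) (hE : E ≤ CS (RR c k)) (h0 : E ≠ ⊥)
    (h1 : finrank ℂ E < (RR c k).card) (s : ℕ) (hs : 1 ≤ s) (hs' : 2 * s + 2 < c - c / k)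
    (hs1 : k * (s + 1) ≤ (k - 3) * c) :
    (∀ (i : Fin 2) (b b' : ℕ), b ≤ 1 → b' ≤ 1 → gv E (i, s + b) (i, s + b') * (c - c / k) ≤
      (c - c / k - (s + b + (s + b'))) * finrank ℂ E) ∧
    (∃ i : Fin 2, gv E (i, s) (i, s) * (c - c / k) + 1 ≤
      (c - c / k - (s + s)) * finrank ℂ E) ∧
    (∀ (i : Fin 2) (b b' : ℕ), b ≤ 1 → b' ≤ 1 →
      (RR c k).card * gv E (i, s + b) (i + 1, s + b') + finrank ℂ E * (c ^ 2 - (RR c k).card) ≤
        finrank ℂ E * ((c - (s + b)) * (c - (s + b')))) := by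
  have hk0 : 0 < k := by omega
  have hr : ∀ (i : Fin 2) (a : Fin c), ((RR c k).filter fun f => f i = a).card = c - c / k :=
    fun i a => card_RR_line hk0 hc i a
  have key := fun (b b' l l' : ℕ) (hb : b ≤ 1) (hb' : b' ≤ 1) (hl : l ≤ 1) (hl' : l' ≤ 1) =>
    BG.gv_strict (RR c k) (c - c / k) (s + b) (s + b') (s + l) (s + l') hr (by omega) (by omega)
      (by omega) (by omega) (fun S hS h => RR_conn (by omega) hc S hS h) E hE h0 h1
  refine ⟨?_, ?_, ?_⟩
  · intro i b b' hb hb'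
    rw [gv_eq]
    rcases Fin.exists_fin_two.mp ⟨i, rfl⟩ with rfl | rfl
    · exact (key b b' b b' hb hb' hb hb').1
    · exact (key b b' b b' hb hb' hb hb').2.1
  · obtain ⟨_, _, h2⟩ := key 0 0 0 0 (by omega) (by omega) (by omega) (by omega)
    rcases h2 with h2 | h2
    · exact ⟨0, by rw [gv_eq]; exact h2⟩
    · exact ⟨1, by rw [gv_eq]; exact h2⟩
  · have h01 : ∀ b b' : ℕ, b ≤ 1 → b' ≤ 1 →
        (RR c k).card * gv E (0, s + b) (1, s + b') + finrank ℂ E * (c ^ 2 - (RR c k).card) ≤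
          finrank ℂ E * ((c - (s + b)) * (c - (s + b'))) := by
      intro b b' hb hb'
      have h2 := BG.gv_slope 0 1 (s + b) (s + b') (RR c k) (by
        intro r hr r' hr'
        obtain ⟨σ, h2, h3⟩ := RR_trans hc r r' hr hr'
        refine ⟨σ, fun f => ?_, h3⟩
        constructor
        · intro hf
          rw [← h2]
          exact mem_map_of_mem _ hf
        · intro hf
          have h4 : pm σ f ∈ (RR c k).map (pm σ) := by
            rw [h2]
            exact hf
          exact (mem_map' _).mp h4) E hE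
      have h3 : BG.gv 0 1 (s + b) (s + b') E = gv E (0, s + b) (1, s + b') :=
        (gv_eq E (0, s + b) (1, s + b')).symm
      have h4 : BG.gv 0 1 (s + b) (s + b') (BG.CS (RR c k)) =
          gv (CS (RR c k)) (0, s + b) (1, s + b') :=
        (gv_eq (CS (RR c k)) (0, s + b) (1, s + b')).symm
      rw [h3, h4] at h2
      have h5 : k * (s + b) ≤ (k - 3) * c :=
        (Nat.mul_le_mul_left _ (by omega)).trans hs1
      have h6 : k * (s + b') ≤ (k - 3) * c :=
        (Nat.mul_le_mul_left _ (by omega)).trans hs1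
      have h7 := gv_fold hk hc (s + b) (s + b') h5 h6
      calc (RR c k).card * gv E (0, s + b) (1, s + b') + finrank ℂ E * (c ^ 2 - (RR c k).card)
          ≤ gv (CS (RR c k)) (0, s + b) (1, s + b') * finrank ℂ E +
            finrank ℂ E * (c ^ 2 - (RR c k).card) := by
            rw [mul_comm (RR c k).card]
            exact Nat.add_le_add_right h2 _
        _ = finrank ℂ E * (gv (CS (RR c k)) (0, s + b) (1, s + b') +
            (c ^ 2 - (RR c k).card)) := by ring
        _ ≤ _ := Nat.mul_le_mul_left _ h7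
    intro i b b' hb hb'
    rcases Fin.exists_fin_two.mp ⟨i, rfl⟩ with rfl | rfl
    · exact h01 b b' hb hb'
    · rw [show (1 : Fin 2) + 1 = 0 from rfl, gv_comm, mul_comm (c - (s + b))]
      exact h01 b' b hb' hb

end Pool.Agent.KZ.BE
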