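import Pool.Agent.KZ.BE.Rank

/-!
# KZ4, BETA: generic values of slices of spaces of bilinear forms

`Bil c` = bilinear forms on `X × Y`, `X = Y = ℂ^c`, as functions of pairs of indices (slot `0` = `X`,
slot `1` = `Y`).  `K i u` = the forms which vanish if one of the vectors `u s` is inserted in the
slot `i`.  `gv i j n n' E` = the smallest dimension of `E ∩ K i u ∩ K j u'`, `n` vectors `u`, `n'`
vectors `u'`.
-/

set_option autoImplicit false

namespace Pool.Agent.KZ.BG

open Finset MvPolynomial Module Pool.Agent.H51.TB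

/-- Bilinear forms. -/
abbrev Bil (c : ℕ) : Type := (Fin 2 → Fin c) → ℂ

variable {c : ℕ}

/-- The forms killed by the vectors `u s` in the slot `i`. -/
def K (i : Fin 2) {κ : Type} (u : κ → Fin c → ℂ) : Submodule ℂ (Bil c) where
  carrier := {g | ∀ (s : κ) (f : Fin 2 → Fin c), ∑ b, u s b * g (Function.update f i b) = 0}
  zero_mem' := fun s f => by simp
  add_mem' := by
    intro g h hg hh s f
    simp only [Pi.add_apply, mul_add, sum_add_distrib]
    rw [hg s f, hh s f, add_zero]
  smul_mem' := by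
    intro z g hg s f
    have h : ∀ b, u s b * (z • g) (Function.update f i b) =
        z * (u s b * g (Function.update f i b)) := by
      intro b
      rw [Pi.smul_apply, smul_eq_mul]
      ring
    simp only [h, ← mul_sum]
    rw [hg s f, mul_zero]

theorem mem_K (i : Fin 2) {κ : Type} (u : κ → Fin c → ℂ) (g : Bil c) :
    g ∈ K i u ↔ ∀ (s : κ) (f : Fin 2 → Fin c), ∑ b, u s b * g (Function.update f i b) = 0 := Iff.rfl

/-- The slice of `E` at a position. -/
def Sl (i j : Fin 2) {n n' : ℕ} (E : Submodule ℂ (Bil c)) (p : Fin n ⊕ Fin n' → Fin c → ℂ) :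
    Submodule ℂ (Bil c) :=
  E ⊓ (K i (fun s => p (.inl s)) ⊓ K j fun s => p (.inr s))

/-- The generic value. -/
noncomputable def gv (i j : Fin 2) (n n' : ℕ) (E : Submodule ℂ (Bil c)) : ℕ :=
  sInf (Set.range fun p : Fin n ⊕ Fin n' → Fin c → ℂ => finrank ℂ (Sl i j E p))

/-- Monomial subspaces. -/
def CS (S : Finset (Fin 2 → Fin c)) : Submodule ℂ (Bil c) where
  carrier := {g | ∀ f, f ∉ S → g f = 0}
  zero_mem' := fun _ _ => rfl
  add_mem' := by
    intro g h hg hh f hf
    rw [Pi.add_apply, hg f hf, hh f hf, add_zero]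
  smul_mem' := by
    intro z g hg f hf
    rw [Pi.smul_apply, hg f hf, smul_zero]

theorem mem_CS (S : Finset (Fin 2 → Fin c)) (g : Bil c) : g ∈ CS S ↔ ∀ f, f ∉ S → g f = 0 := Iff.rfl

theorem finrank_CS (S : Finset (Fin 2 → Fin c)) : finrank ℂ (CS S) = S.card := by
  classical
  let e : CS S ≃ₗ[ℂ] ({f // f ∈ S} → ℂ) :=
    { toFun := fun g f => g.1 f.1
      map_add' := fun g h => rfl
      map_smul' := fun z g => rfl
      invFun := fun x => ⟨fun f => if h : f ∈ S then x ⟨f, h⟩ else 0, fun f hf => dif_neg hf⟩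
      left_inv := by
        intro g
        apply Subtype.ext
        funext f
        by_cases hf : f ∈ S
        · simp [hf]
        · simp [hf, g.2 f hf]
      right_inv := by
        intro x
        funext f
        simp [f.2] }
  rw [e.finrank_eq, Module.finrank_fintype_fun_eq_card, Fintype.card_coe]

/-! ### Generic values -/

/-- The slots of the vectors. -/
def sl (i j : Fin 2) {n n' : ℕ} : Fin n ⊕ Fin n' → Fin 2 := Sum.elim (fun _ => i) fun _ => j

theorem mem_Sl (i j : Fin 2) {n n' : ℕ} (E : Submodule ℂ (Bil c))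
    (p : Fin n ⊕ Fin n' → Fin c → ℂ) (g : Bil c) :
    g ∈ Sl i j E p ↔ g ∈ E ∧ ∀ (s : Fin n ⊕ Fin n') (f : Fin 2 → Fin c),
      ∑ b, p s b * g (Function.update f (sl i j s) b) = 0 := by
  constructor
  · rintro ⟨h1, h2, h3⟩
    refine ⟨h1, ?_⟩
    rintro (s | s) f
    · exact h2 s f
    · exact h3 s f
  · rintro ⟨h1, h2⟩
    exact ⟨h1, fun s f => h2 (.inl s) f, fun s f => h2 (.inr s) f⟩

theorem gv_le (i j : Fin 2) {n n' : ℕ} (E : Submodule ℂ (Bil c))
    (p : Fin n ⊕ Fin n' → Fin c → ℂ) : gv i j n n' E ≤ finrank ℂ (Sl i j E p) :=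
  Nat.sInf_le ⟨p, rfl⟩

theorem gv_attained (i j : Fin 2) (n n' : ℕ) (E : Submodule ℂ (Bil c)) :
    ∃ p : Fin n ⊕ Fin n' → Fin c → ℂ, finrank ℂ (Sl i j E p) = gv i j n n' E := by
  obtain ⟨p, hp⟩ := Nat.sInf_mem (Set.range_nonempty
    fun p : Fin n ⊕ Fin n' → Fin c → ℂ => finrank ℂ (Sl i j E p))
  exact ⟨p, hp⟩

theorem gv_le_of (i j i' j' : Fin 2) (n n' m m' : ℕ) (E E' : Submodule ℂ (Bil c))
    (h : ∀ p : Fin m ⊕ Fin m' → Fin c → ℂ, ∃ p' : Fin n ⊕ Fin n' → Fin c → ℂ,
      finrank ℂ (Sl i j E p') ≤ finrank ℂ (Sl i' j' E' p)) :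
    gv i j n n' E ≤ gv i' j' m m' E' := by
  obtain ⟨p, hp⟩ := gv_attained i' j' m m' E'
  obtain ⟨p', hp'⟩ := h p
  rw [← hp]
  exact (gv_le i j E p').trans hp'

/-- The combination of the forms `g l`. -/
noncomputable def comb {d : Type} [Fintype d] (g : d → Bil c) : (d → ℂ) →ₗ[ℂ] Bil c :=
  Fintype.linearCombination ℂ g

theorem comb_apply {d : Type} [Fintype d] (g : d → Bil c) (x : d → ℂ) (f : Fin 2 → Fin c) :
    comb g x f = ∑ l, x l * g l f := by
  unfold comb
  rw [Fintype.linearCombination_apply, Finset.sum_apply]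
  rfl

/-- Slices as spaces of solutions. -/
theorem finrank_Sl_eq (i j : Fin 2) {n n' : ℕ} {d : Type} [Fintype d] (g : d → Bil c)
    (hg : LinearIndependent ℂ g) (E : Submodule ℂ (Bil c))
    (hE : Submodule.span ℂ (Set.range g) = E) (p : Fin n ⊕ Fin n' → Fin c → ℂ) :
    finrank ℂ (Sl i j E p) = finrank ℂ (Nl fun (r : (Fin n ⊕ Fin n') × (Fin 2 → Fin c)) (l : d) =>
      ∑ b, p r.1 b * g l (Function.update r.2 (sl i j r.1) b)) := by
  have hinj : Function.Injective (comb g) := by
    rw [← LinearMap.ker_eq_bot, LinearMap.ker_eq_bot']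
    intro x hx
    unfold comb at hx
    rw [Fintype.linearCombination_apply] at hx
    exact funext (Fintype.linearIndependent_iff.mp hg x hx)
  have hmap : (Nl fun (r : (Fin n ⊕ Fin n') × (Fin 2 → Fin c)) (l : d) =>
      ∑ b, p r.1 b * g l (Function.update r.2 (sl i j r.1) b)).map (comb g) = Sl i j E p := by
    have key : ∀ (x : d → ℂ) (s : Fin n ⊕ Fin n') (f : Fin 2 → Fin c),
        ∑ b, p s b * comb g x (Function.update f (sl i j s) b) =
          ∑ l, (∑ b, p s b * g l (Function.update f (sl i j s) b)) * x l := by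
      intro x s f
      have h1 : ∀ b, p s b * comb g x (Function.update f (sl i j s) b) =
          ∑ l, p s b * g l (Function.update f (sl i j s) b) * x l := by
        intro b
        rw [comb_apply, mul_sum]
        refine sum_congr rfl fun l _ => ?_
        ring
      simp only [h1]
      rw [sum_comm]
      refine sum_congr rfl fun l _ => ?_
      rw [sum_mul]
    ext y
    rw [Submodule.mem_map, mem_Sl]
    constructor
    · rintro ⟨x, hx, rfl⟩
      refine ⟨?_, ?_⟩
      · rw [← hE]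
        unfold comb
        rw [Fintype.linearCombination_apply]
        exact Submodule.sum_mem _ fun l _ => Submodule.smul_mem _ _
          (Submodule.subset_span ⟨l, rfl⟩)
      · intro s f
        rw [key]
        exact hx (s, f)
    · rintro ⟨h1, h2⟩
      rw [← hE, ← Fintype.range_linearCombination ℂ] at h1
      obtain ⟨x, hx⟩ := h1
      have hx' : comb g x = y := hx
      refine ⟨x, ?_, hx'⟩
      rintro ⟨s, f⟩
      rw [← hx'] at h2
      have h3 := h2 s f
      rw [key] at h3
      exact h3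
  rw [← hmap]
  exact (Submodule.equivMapOfInjective _ hinj _).symm.finrank_eq

/-- The coefficients of the conditions. -/
noncomputable def coe (i j : Fin 2) {n n' : ℕ} {k : Type} [Field k] {d : Type}
    (g : d → (Fin 2 → Fin c) → k) (r : (Fin n ⊕ Fin n') × (Fin 2 → Fin c)) (l : d) :
    MvPolynomial ((Fin n ⊕ Fin n') × Fin c) k :=
  ∑ b, X (r.1, b) * C (g l (Function.update r.2 (sl i j r.1) b))

theorem aeval_coe (i j : Fin 2) {n n' : ℕ} {k : Type} [Field k] [Algebra k ℂ] {d : Type}
    (g : d → (Fin 2 → Fin c) → k) (p : Fin n ⊕ Fin n' → Fin c → ℂ)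
    (r : (Fin n ⊕ Fin n') × (Fin 2 → Fin c)) (l : d) :
    aeval (fun x : (Fin n ⊕ Fin n') × Fin c => p x.1 x.2) (coe i j g r l) =
      ∑ b, p r.1 b * algebraMap k ℂ (g l (Function.update r.2 (sl i j r.1) b)) := by
  unfold coe
  rw [map_sum]
  refine sum_congr rfl fun b _ => ?_
  rw [map_mul, aeval_X, aeval_C]

/-- The generic value is attained at all positions where a certain polynomial over the field of
definition of `E` does not vanish. -/
theorem exists_poly_gv (i j : Fin 2) (n n' : ℕ) {k : Type} [Field k] [Algebra k ℂ] {d : Type}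
    [Fintype d] (g : d → (Fin 2 → Fin c) → k)
    (hg : LinearIndependent ℂ fun l => (fun f => algebraMap k ℂ (g l f) : Bil c))
    (E : Submodule ℂ (Bil c))
    (hE : Submodule.span ℂ (Set.range fun l => (fun f => algebraMap k ℂ (g l f) : Bil c)) = E) :
    ∃ G : MvPolynomial ((Fin n ⊕ Fin n') × Fin c) k, G ≠ 0 ∧
      ∀ p : Fin n ⊕ Fin n' → Fin c → ℂ,
        aeval (fun x : (Fin n ⊕ Fin n') × Fin c => p x.1 x.2) G ≠ 0 →
          finrank ℂ (Sl i j E p) = gv i j n n' E := by
  obtain ⟨p₀, hp₀⟩ := gv_attained i j n n' E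
  obtain ⟨G, hG, h⟩ := exists_poly (coe i j (n := n) (n' := n') g)
    (fun x : (Fin n ⊕ Fin n') × Fin c => p₀ x.1 x.2)
  refine ⟨G, fun h0 => hG (by rw [h0, map_zero]), fun p hp => ?_⟩
  have h1 := h _ hp
  refine le_antisymm ?_ (gv_le i j E p)
  rw [← hp₀, finrank_Sl_eq i j _ hg E hE, finrank_Sl_eq i j _ hg E hE]
  have e1 : ∀ (q : Fin n ⊕ Fin n' → Fin c → ℂ),
      (fun (r : (Fin n ⊕ Fin n') × (Fin 2 → Fin c)) (l : d) =>
        aeval (fun x : (Fin n ⊕ Fin n') × Fin c => q x.1 x.2) (coe i j g r l)) =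
      fun r l => ∑ b, q r.1 b * algebraMap k ℂ (g l (Function.update r.2 (sl i j r.1) b)) :=
    fun q => funext fun r => funext fun l => aeval_coe i j g q r l
  rw [e1 p, e1 p₀] at h1
  exact h1

/-- The generic value is attained at general positions. -/
theorem gn_gv (i j : Fin 2) (n n' : ℕ) (E : Submodule ℂ (Bil c)) :
    Gn (Fin n ⊕ Fin n') (Fin c) fun p => finrank ℂ (Sl i j E p) = gv i j n n' E := by
  let b := Module.finBasis ℂ E
  have h1 : LinearIndependent ℂ fun l => (b l : Bil c) :=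
    b.linearIndependent.map' E.subtype (Submodule.ker_subtype E)
  have h2 : Submodule.span ℂ (Set.range fun l => (b l : Bil c)) = E := by
    have h3 : (Set.range fun l => (b l : Bil c)) = E.subtype '' Set.range b := by
      rw [← Set.range_comp]
      rfl
    rw [h3, Submodule.span_image, b.span_eq, Submodule.map_top, Submodule.range_subtype]
  obtain ⟨G, hG, h⟩ := exists_poly_gv (k := ℂ) i j n n' (fun l => (b l : Bil c)) h1 E h2
  refine ⟨G, hG, fun p hp => h p ?_⟩
  rw [aeval_eq_eval]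
  exact hp

/-- The generic value is attained at algebraically independent vectors over a field of definition of
`E`. -/
theorem finrank_of_algInd (i j : Fin 2) {n n' : ℕ} {k : Type} [Field k] [Algebra k ℂ] {d : Type}
    [Fintype d] (g : d → (Fin 2 → Fin c) → k)
    (hg : LinearIndependent ℂ fun l => (fun f => algebraMap k ℂ (g l f) : Bil c))
    (E : Submodule ℂ (Bil c))
    (hE : Submodule.span ℂ (Set.range fun l => (fun f => algebraMap k ℂ (g l f) : Bil c)) = E)
    (p : Fin n ⊕ Fin n' → Fin c → ℂ)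
    (hp : AlgebraicIndependent k fun x : (Fin n ⊕ Fin n') × Fin c => p x.1 x.2) :
    finrank ℂ (Sl i j E p) = gv i j n n' E := by
  obtain ⟨G, hG, h⟩ := exists_poly_gv i j n n' g hg E hE
  refine h p fun h0 => hG ?_
  exact (algebraicIndependent_iff.mp hp) G h0

theorem gv_bot (i j : Fin 2) (n n' : ℕ) : gv i j n n' (⊥ : Submodule ℂ (Bil c)) = 0 := by
  have h1 := gv_le i j (n := n) (n' := n') (⊥ : Submodule ℂ (Bil c)) 0
  have h2 : Sl i j (n := n) (n' := n') (⊥ : Submodule ℂ (Bil c)) 0 = ⊥ := by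
    rw [Sl, bot_inf_eq]
  rw [h2, finrank_bot] at h1
  omega

theorem gv_le_finrank (i j : Fin 2) (n n' : ℕ) (E : Submodule ℂ (Bil c)) :
    gv i j n n' E ≤ finrank ℂ E :=
  (gv_le i j E 0).trans (Submodule.finrank_mono inf_le_left)

theorem gv_mono (i j : Fin 2) (n n' : ℕ) {E F : Submodule ℂ (Bil c)} (h : E ≤ F) :
    gv i j n n' E ≤ gv i j n n' F :=
  gv_le_of i j i j n n' n n' E F fun p => ⟨p, Submodule.finrank_mono (inf_le_inf_right _ h)⟩

theorem gv_supermod (i j : Fin 2) (n n' : ℕ) (E F : Submodule ℂ (Bil c)) :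
    gv i j n n' E + gv i j n n' F ≤ gv i j n n' (E ⊔ F) + gv i j n n' (E ⊓ F) := by
  obtain ⟨p, hp1, hp2⟩ := ((gn_gv i j n n' (E ⊔ F)).and (gn_gv i j n n' (E ⊓ F))).exists
  rw [← hp1, ← hp2]
  refine (add_le_add (gv_le i j E p) (gv_le i j F p)).trans ?_
  rw [← Submodule.finrank_sup_add_finrank_inf_eq]
  refine add_le_add (Submodule.finrank_mono ?_) (Submodule.finrank_mono ?_)
  · refine sup_le (inf_le_inf_right _ le_sup_left) (inf_le_inf_right _ le_sup_right)
  · unfold Sl
    refine le_inf (le_inf (inf_le_left.trans inf_le_left) (inf_le_right.trans inf_le_left))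
      (inf_le_left.trans inf_le_right)

theorem gv_symm (i j : Fin 2) (n n' : ℕ) (E : Submodule ℂ (Bil c)) :
    gv i j n n' E = gv j i n' n E := by
  have key : ∀ (i j : Fin 2) (n n' : ℕ), gv i j n n' E ≤ gv j i n' n E := by
    intro i j n n'
    refine gv_le_of i j j i n n' n' n E E fun p => ⟨fun s => p s.swap, ?_⟩
    refine Submodule.finrank_mono ?_
    rintro g ⟨h1, h2, h3⟩
    exact ⟨h1, h3, h2⟩
  exact le_antisymm (key i j n n') (key j i n' n)

/-- Multiplication of the coordinates by `∏ i, x i (f i)`. -/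
def sc (x : Fin 2 → Fin c → ℂ) : Bil c →ₗ[ℂ] Bil c where
  toFun g := fun f => (∏ i, x i (f i)) * g f
  map_add' g h := by
    funext f
    simp only [Pi.add_apply]
    ring
  map_smul' z g := by
    funext f
    simp only [Pi.smul_apply, smul_eq_mul, RingHom.id_apply]
    ring

theorem sc_apply (x : Fin 2 → Fin c → ℂ) (g : Bil c) (f : Fin 2 → Fin c) :
    sc x g f = (∏ i, x i (f i)) * g f := rfl

/-- Permutation of the indices. -/
def pm (σ : Fin 2 → Equiv.Perm (Fin c)) : Bil c →ₗ[ℂ] Bil c where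
  toFun g := fun f => g fun i => σ i (f i)
  map_add' _ _ := rfl
  map_smul' _ _ := rfl

theorem pm_apply (σ : Fin 2 → Equiv.Perm (Fin c)) (g : Bil c) (f : Fin 2 → Fin c) :
    pm σ g f = g fun i => σ i (f i) := rfl

theorem prod_update (x : Fin 2 → Fin c → ℂ) (f : Fin 2 → Fin c) (i : Fin 2) (b : Fin c) :
    ∏ k, x k (Function.update f i b k) = x i b * ∏ k ∈ univ.erase i, x k (f k) := by
  rw [← Finset.mul_prod_erase univ _ (mem_univ i), Function.update_self]
  congr 1
  refine prod_congr rfl fun k hk => ?_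
  rw [Function.update_of_ne (ne_of_mem_erase hk)]

theorem sc_sum (x : Fin 2 → Fin c → ℂ) (g : Bil c) (u : Fin c → ℂ) (f : Fin 2 → Fin c)
    (i : Fin 2) : ∑ b, u b * sc x g (Function.update f i b) =
      (∏ k ∈ univ.erase i, x k (f k)) * ∑ b, u b * x i b * g (Function.update f i b) := by
  rw [mul_sum]
  refine sum_congr rfl fun b _ => ?_
  rw [sc_apply, prod_update]
  ring

theorem sc_inj (x : Fin 2 → Fin c → ℂ) (hx : ∀ i a, x i a ≠ 0) : Function.Injective (sc x) := by
  intro g h hgh
  funext f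
  have h1 := congrFun hgh f
  rw [sc_apply, sc_apply] at h1
  exact mul_left_cancel₀ (prod_ne_zero_iff.mpr fun i _ => hx i _) h1

theorem gv_sc_le (i j : Fin 2) (n n' : ℕ) (E : Submodule ℂ (Bil c)) (x : Fin 2 → Fin c → ℂ)
    (hx : ∀ i a, x i a ≠ 0) : gv i j n n' (E.map (sc x)) ≤ gv i j n n' E := by
  refine gv_le_of i j i j n n' n n' _ E fun p =>
    ⟨fun s b => p s b * (x (sl i j s) b)⁻¹, ?_⟩
  have h1 : Sl i j (E.map (sc x)) (fun s b => p s b * (x (sl i j s) b)⁻¹) ≤
      (Sl i j E p).map (sc x) := by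
    intro y hy
    rw [mem_Sl] at hy
    obtain ⟨⟨g, hg, rfl⟩, h2⟩ := hy
    refine ⟨g, ?_, rfl⟩
    rw [SetLike.mem_coe, mem_Sl]
    refine ⟨hg, fun s f => ?_⟩
    have h3 := h2 s f
    rw [sc_sum] at h3
    rcases mul_eq_zero.mp h3 with h4 | h4
    · exact absurd h4 (prod_ne_zero_iff.mpr fun k _ => hx k _)
    · rw [← h4]
      refine sum_congr rfl fun b _ => ?_
      rw [mul_assoc (p s b), inv_mul_cancel₀ (hx _ _), mul_one]
  exact (Submodule.finrank_mono h1).trans (Submodule.finrank_map_le _ _)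

theorem gv_sc (i j : Fin 2) (n n' : ℕ) (E : Submodule ℂ (Bil c)) (x : Fin 2 → Fin c → ℂ)
    (hx : ∀ i a, x i a ≠ 0) : gv i j n n' (E.map (sc x)) = gv i j n n' E := by
  refine le_antisymm (gv_sc_le i j n n' E x hx) ?_
  have h1 := gv_sc_le i j n n' (E.map (sc x)) (fun i a => (x i a)⁻¹)
    (fun i a => inv_ne_zero (hx i a))
  have h2 : (E.map (sc x)).map (sc fun i a => (x i a)⁻¹) = E := by
    rw [← Submodule.map_comp]
    have h3 : (sc fun i a => (x i a)⁻¹) ∘ₗ sc x = LinearMap.id := by
      ext g f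
      rw [LinearMap.comp_apply, LinearMap.comp_apply, sc_apply, sc_apply, ← mul_assoc,
        ← prod_mul_distrib, prod_eq_one, one_mul]
      · rfl
      · intro i _
        exact inv_mul_cancel₀ (hx i _)
    rw [h3, Submodule.map_id]
  rw [h2] at h1
  exact h1

theorem pm_sum (σ : Fin 2 → Equiv.Perm (Fin c)) (g : Bil c) (u : Fin c → ℂ) (f : Fin 2 → Fin c)
    (i : Fin 2) : ∑ b, u b * pm σ g (Function.update f i b) =
      ∑ b, u ((σ i).symm b) * g (Function.update (fun k => σ k (f k)) i b) := by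
  rw [← Equiv.sum_comp (σ i) fun b => u ((σ i).symm b) *
    g (Function.update (fun k => σ k (f k)) i b)]
  refine sum_congr rfl fun b _ => ?_
  rw [pm_apply, Equiv.symm_apply_apply]
  congr 2
  funext k
  by_cases hk : k = i
  · subst hk
    rw [Function.update_self, Function.update_self]
  · rw [Function.update_of_ne hk, Function.update_of_ne hk]

theorem gv_pm_le (i j : Fin 2) (n n' : ℕ) (E : Submodule ℂ (Bil c))
    (σ : Fin 2 → Equiv.Perm (Fin c)) : gv i j n n' (E.map (pm σ)) ≤ gv i j n n' E := by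
  refine gv_le_of i j i j n n' n n' _ E fun p => ⟨fun s b => p s (σ (sl i j s) b), ?_⟩
  have h1 : Sl i j (E.map (pm σ)) (fun s b => p s (σ (sl i j s) b)) ≤
      (Sl i j E p).map (pm σ) := by
    intro y hy
    rw [mem_Sl] at hy
    obtain ⟨⟨g, hg, rfl⟩, h2⟩ := hy
    refine ⟨g, ?_, rfl⟩
    rw [SetLike.mem_coe, mem_Sl]
    refine ⟨hg, fun s f => ?_⟩
    have h3 := h2 s fun k => (σ k).symm (f k)
    rw [pm_sum (u := fun b => p s (σ (sl i j s) b))] at h3
    simp only [Equiv.apply_symm_apply] at h3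
    exact h3
  exact (Submodule.finrank_mono h1).trans (Submodule.finrank_map_le _ _)

theorem gv_pm (i j : Fin 2) (n n' : ℕ) (E : Submodule ℂ (Bil c))
    (σ : Fin 2 → Equiv.Perm (Fin c)) : gv i j n n' (E.map (pm σ)) = gv i j n n' E := by
  refine le_antisymm (gv_pm_le i j n n' E σ) ?_
  have h1 := gv_pm_le i j n n' (E.map (pm σ)) (fun i => (σ i).symm)
  have h2 : (E.map (pm σ)).map (pm fun i => (σ i).symm) = E := by
    rw [← Submodule.map_comp]
    have h3 : (pm fun i => (σ i).symm) ∘ₗ pm σ = LinearMap.id := by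
      ext g f
      rw [LinearMap.comp_apply, LinearMap.comp_apply, pm_apply, pm_apply]
      simp only [Equiv.apply_symm_apply]
      rfl
    rw [h3, Submodule.map_id]
  rw [h2] at h1
  exact h1

/-- A subspace which is invariant under the changes of signs contains the components of its
elements. -/
theorem single_mem (E : Submodule ℂ (Bil c))
    (hE : ∀ x : Fin 2 → Fin c → ℂ, (∀ i a, x i a = 1 ∨ x i a = -1) → E.map (sc x) ≤ E)
    (g : Bil c) (hg : g ∈ E) (r : Fin 2 → Fin c) : (Pi.single r (g r) : Bil c) ∈ E := by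
  classical
  have key : ∀ (i : Fin 2) (h : Bil c), h ∈ E → (fun f => if f i = r i then h f else 0) ∈ E := by
    intro i h hh
    let x : Fin 2 → Fin c → ℂ := fun k a => if k = i ∧ a = r i then -1 else 1
    have h1 : sc x h ∈ E := hE x (fun k a => by
      show (if k = i ∧ a = r i then (-1 : ℂ) else 1) = 1 ∨
        (if k = i ∧ a = r i then (-1 : ℂ) else 1) = -1
      split_ifs
      · exact Or.inr rfl
      · exact Or.inl rfl) ⟨h, hh, rfl⟩
    have h2 : (fun f => if f i = r i then h f else 0) = (1 / 2 : ℂ) • (h - sc x h) := by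
      funext f
      have h3 : ∏ k, x k (f k) = if f i = r i then -1 else 1 := by
        rw [← Finset.mul_prod_erase univ _ (mem_univ i), prod_eq_one, mul_one]
        · simp only [x, true_and]
        · intro k hk
          simp only [x]
          rw [if_neg fun h => ne_of_mem_erase hk h.1]
      rw [Pi.smul_apply, Pi.sub_apply, sc_apply, h3]
      split_ifs
      · rw [smul_eq_mul]
        ring
      · rw [smul_eq_mul]
        ring
    rw [h2]
    exact E.smul_mem _ (E.sub_mem hh h1)
  have h1 := key 1 _ (key 0 g hg)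
  have h2 : (Pi.single r (g r) : Bil c) =
      fun f => if f 1 = r 1 then (if f 0 = r 0 then g f else 0) else 0 := by
    funext f
    by_cases hf : f = r
    · subst hf
      simp
    · rw [Pi.single_eq_of_ne hf]
      split_ifs with h3 h4
      · exact absurd (funext fun k => by
          rcases Fin.exists_fin_two.mp ⟨k, rfl⟩ with rfl | rfl
          · exact h4
          · exact h3) hf
      · rfl
      · rfl
  rw [h2]
  exact h1

/-- All slopes are at most the slope of `CS R` if the permutations of the two slots which preserve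
`R` are transitive on `R`. -/
theorem gv_slope (i j : Fin 2) (n n' : ℕ) (R : Finset (Fin 2 → Fin c))
    (hR : ∀ r ∈ R, ∀ r' ∈ R, ∃ σ : Fin 2 → Equiv.Perm (Fin c),
      (∀ f : Fin 2 → Fin c, f ∈ R ↔ (fun i => σ i (f i)) ∈ R) ∧ (fun i => σ i (r i)) = r')
    (E : Submodule ℂ (Bil c)) (hE : E ≤ CS R) :
    gv i j n n' E * R.card ≤ gv i j n n' (CS R) * finrank ℂ E := by
  classical
  let v : Submodule ℂ (Bil c) → ℤ := fun F => (gv i j n n' F : ℤ)
  let Λ : ℤ := gv i j n n' (CS R)
  let N : ℤ := R.card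
  let φ : Submodule ℂ (Bil c) → ℤ := fun F => v F * N - Λ * (finrank ℂ F : ℤ)
  let h : Submodule ℂ (Bil c) → ℤ := fun F => φ F * (N + 1) + (finrank ℂ F : ℤ)
  have hN : 0 ≤ N := Int.natCast_nonneg _
  have hΛ : 0 ≤ Λ := Int.natCast_nonneg _
  have hfr : ∀ F ≤ CS R, (finrank ℂ F : ℤ) ≤ N := by
    intro F hF
    have h1 := Submodule.finrank_mono hF
    rw [finrank_CS] at h1
    exact Int.ofNat_le.mpr h1
  have hbd : ∀ F ≤ CS R, h F ≤ N * N * (N + 1) + N := by
    intro F hF
    have h1 : v F ≤ N := (Int.ofNat_le.mpr (gv_le_finrank i j n n' F)).trans (hfr F hF)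
    have h2 : φ F ≤ N * N := by
      have h3 : v F * N ≤ N * N := mul_le_mul_of_nonneg_right h1 hN
      have h4 : 0 ≤ Λ * (finrank ℂ F : ℤ) := mul_nonneg hΛ (Int.natCast_nonneg _)
      show v F * N - Λ * (finrank ℂ F : ℤ) ≤ N * N
      omega
    exact add_le_add (mul_le_mul_of_nonneg_right h2 (by omega)) (hfr F hF)
  obtain ⟨F, hF, hmax⟩ : ∃ F ≤ CS R, ∀ F' ≤ CS R, h F' ≤ h F := by
    obtain ⟨z, ⟨F, hF, rfl⟩, hz⟩ := Int.exists_greatest_of_bdd
      (P := fun z => ∃ F ≤ CS R, h F = z)
      ⟨N * N * (N + 1) + N, by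
        rintro z ⟨F, hF, rfl⟩
        exact hbd F hF⟩ ⟨h E, E, hE, rfl⟩
    exact ⟨F, hF, fun F' hF' => hz _ ⟨F', hF', rfl⟩⟩
  have hφmax : ∀ F' ≤ CS R, φ F' ≤ φ F := by
    intro F' hF'
    by_contra hcon
    push Not at hcon
    have h1 := hmax F' hF'
    have h2 := hfr F hF
    have h3 : 0 ≤ (finrank ℂ F' : ℤ) := Int.natCast_nonneg _
    have h4 : (φ F + 1) * (N + 1) ≤ φ F' * (N + 1) :=
      mul_le_mul_of_nonneg_right (by omega) (by omega)
    have h5 : φ F' * (N + 1) + (finrank ℂ F' : ℤ) ≤ φ F * (N + 1) + (finrank ℂ F : ℤ) := h1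
    have h6 : (φ F + 1) * (N + 1) = φ F * (N + 1) + (N + 1) := by ring
    omega
  have hinv : ∀ T : Bil c →ₗ[ℂ] Bil c, Function.Injective T → (CS R).map T ≤ CS R →
      (∀ G : Submodule ℂ (Bil c), gv i j n n' (G.map T) = gv i j n n' G) → F.map T ≤ F := by
    intro T hT hTR hTv
    have h1 : finrank ℂ (F.map T) = finrank ℂ F :=
      (Submodule.equivMapOfInjective T hT F).symm.finrank_eq
    have h2 : φ (F.map T) = φ F := by
      show (gv i j n n' (F.map T) : ℤ) * N - Λ * (finrank ℂ (F.map T) : ℤ) = _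
      rw [hTv, h1]
    have h3 : F.map T ≤ CS R := (Submodule.map_mono hF).trans hTR
    have h4 : F ⊔ F.map T ≤ CS R := sup_le hF h3
    have h5 : F ⊓ F.map T ≤ CS R := inf_le_left.trans hF
    have h6 : φ F + φ (F.map T) ≤ φ (F ⊔ F.map T) + φ (F ⊓ F.map T) := by
      have h7 := gv_supermod i j n n' F (F.map T)
      have h8 := Submodule.finrank_sup_add_finrank_inf_eq F (F.map T)
      have h9 : (v F + v (F.map T)) * N ≤ (v (F ⊔ F.map T) + v (F ⊓ F.map T)) * N :=
        mul_le_mul_of_nonneg_right (by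
          show (gv i j n n' F : ℤ) + gv i j n n' (F.map T) ≤
            gv i j n n' (F ⊔ F.map T) + gv i j n n' (F ⊓ F.map T)
          exact_mod_cast h7) hN
      have h10 : Λ * ((finrank ℂ (F ⊔ F.map T : Submodule ℂ (Bil c)) : ℤ) +
          (finrank ℂ (F ⊓ F.map T : Submodule ℂ (Bil c)) : ℤ)) =
          Λ * ((finrank ℂ F : ℤ) + (finrank ℂ (F.map T) : ℤ)) := by
        congr 1
        exact_mod_cast h8
      show v F * N - Λ * (finrank ℂ F : ℤ) + (v (F.map T) * N - Λ * (finrank ℂ (F.map T) : ℤ)) ≤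
        v (F ⊔ F.map T) * N - Λ * (finrank ℂ (F ⊔ F.map T : Submodule ℂ (Bil c)) : ℤ) +
        (v (F ⊓ F.map T) * N - Λ * (finrank ℂ (F ⊓ F.map T : Submodule ℂ (Bil c)) : ℤ))
      linarith
    have h7 : φ (F ⊔ F.map T) = φ F := by
      have := hφmax _ h4
      have := hφmax _ h5
      omega
    have h8 := hmax _ h4
    have h9 : φ (F ⊔ F.map T) * (N + 1) +
        (finrank ℂ (F ⊔ F.map T : Submodule ℂ (Bil c)) : ℤ) ≤
        φ F * (N + 1) + (finrank ℂ F : ℤ) := h8
    rw [h7] at h9
    have h10 : finrank ℂ (F ⊔ F.map T : Submodule ℂ (Bil c)) ≤ finrank ℂ F := by omega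
    have h11 : F = F ⊔ F.map T := Submodule.eq_of_le_of_finrank_le le_sup_left h10
    calc F.map T ≤ F ⊔ F.map T := le_sup_right
      _ = F := h11.symm
  have hsc : ∀ x : Fin 2 → Fin c → ℂ, (∀ i a, x i a = 1 ∨ x i a = -1) → F.map (sc x) ≤ F := by
    intro x hx
    have hx0 : ∀ i a, x i a ≠ 0 := by
      intro i a
      rcases hx i a with h | h
      · rw [h]
        exact one_ne_zero
      · rw [h]
        exact neg_ne_zero.mpr one_ne_zero
    refine hinv _ (sc_inj x hx0) ?_ fun G => gv_sc i j n n' G x hx0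
    rintro _ ⟨g, hg, rfl⟩
    rw [mem_CS]
    intro f hf
    rw [sc_apply, (mem_CS _ _).mp hg f hf, mul_zero]
  have hpm : ∀ σ : Fin 2 → Equiv.Perm (Fin c),
      (∀ f : Fin 2 → Fin c, f ∈ R ↔ (fun i => σ i (f i)) ∈ R) → F.map (pm σ) ≤ F := by
    intro σ hσ
    refine hinv _ ?_ ?_ fun G => gv_pm i j n n' G σ
    · intro g h hgh
      funext f
      have h1 := congrFun hgh fun i => (σ i).symm (f i)
      rw [pm_apply, pm_apply] at h1
      simp only [Equiv.apply_symm_apply] at h1
      exact h1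
    · rintro _ ⟨g, hg, rfl⟩
      rw [mem_CS]
      intro f hf
      rw [pm_apply]
      exact (mem_CS _ _).mp hg _ fun h => hf ((hσ f).mpr h)
  have hfin : φ F = 0 := by
    by_cases hF0 : F = ⊥
    · show (gv i j n n' F : ℤ) * N - Λ * (finrank ℂ F : ℤ) = 0
      rw [hF0, gv_bot, finrank_bot]
      simp
    · obtain ⟨g, hg, hg0⟩ := Submodule.exists_mem_ne_zero_of_ne_bot hF0
      obtain ⟨r, hr⟩ := Function.ne_iff.mp hg0
      rw [Pi.zero_apply] at hr
      have hrR : r ∈ R := by
        by_contra hcon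
        exact hr ((mem_CS _ _).mp (hF hg) r hcon)
      have h1 : (Pi.single r (1 : ℂ) : Bil c) ∈ F := by
        have h2 := F.smul_mem (g r)⁻¹ (single_mem F hsc g hg r)
        rw [← Pi.single_smul, smul_eq_mul, inv_mul_cancel₀ hr] at h2
        exact h2
      have h2 : ∀ r' ∈ R, (Pi.single r' (1 : ℂ) : Bil c) ∈ F := by
        intro r' hr'
        obtain ⟨σ, hσ, hσ'⟩ := hR r' hr' r hrR
        have h3 : pm σ (Pi.single r (1 : ℂ)) = (Pi.single r' (1 : ℂ) : Bil c) := by
          funext f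
          rw [pm_apply]
          by_cases hf : f = r'
          · subst hf
            rw [hσ', Pi.single_eq_same, Pi.single_eq_same]
          · rw [Pi.single_eq_of_ne hf, Pi.single_eq_of_ne]
            intro h
            apply hf
            funext k
            have h4 := congrFun (h.trans hσ'.symm) k
            exact (σ k).injective h4
        rw [← h3]
        exact hpm σ hσ ⟨_, h1, rfl⟩
      have h3 : F = CS R := by
        refine le_antisymm hF ?_
        intro g hg
        have h4 : g = ∑ r ∈ R, g r • (Pi.single r (1 : ℂ) : Bil c) := by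
          funext f
          rw [Finset.sum_apply]
          by_cases hf : f ∈ R
          · rw [Finset.sum_eq_single f]
            · simp
            · intro r _ hr
              rw [Pi.smul_apply, Pi.single_eq_of_ne (Ne.symm hr), smul_zero]
            · intro h
              exact absurd hf h
          · rw [(mem_CS _ _).mp hg f hf, Finset.sum_eq_zero]
            intro r hr
            rw [Pi.smul_apply, Pi.single_eq_of_ne, smul_zero]
            intro h
            exact hf (h ▸ hr)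
        rw [h4]
        exact F.sum_mem fun r hr => F.smul_mem _ (h2 r hr)
      show (gv i j n n' F : ℤ) * N - Λ * (finrank ℂ F : ℤ) = 0
      rw [h3, finrank_CS]
      exact sub_self _
  have h1 := hφmax E hE
  rw [hfin] at h1
  have h2 : (gv i j n n' E : ℤ) * (R.card : ℤ) - (gv i j n n' (CS R) : ℤ) * (finrank ℂ E : ℤ) ≤ 0 :=
    h1
  have h3 : (gv i j n n' E : ℤ) * (R.card : ℤ) ≤
      (gv i j n n' (CS R) : ℤ) * (finrank ℂ E : ℤ) := by omega
  exact_mod_cast h3

end Pool.Agent.KZ.BG
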