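import Pool.Agent.KZ.BE.Adp

/-!
# KZ4, block BETA, module Ini: the initial subspace
-/

set_option autoImplicit false
set_option linter.unusedSectionVars false

namespace Pool.Agent.KZ.BE

open Finset Module

variable {c : ℕ}

theorem initial (F : Submodule ℂ ((Fin 2 → Fin c) → ℂ)) (R : Finset (Fin 2 → Fin c))
    (hF : F ≤ CS R) :
    ∃ S ⊆ R, S.card = finrank ℂ F ∧ ∀ τ τ' : Ty, gv F τ τ' ≤ gv (CS S) τ τ' := by
  obtain ⟨S, hS, h1, h2⟩ := BG.exists_init R F hF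
  refine ⟨S, hS, h1, fun τ τ' => ?_⟩
  rw [gv_eq, gv_eq, CS_eq]
  exact h2 _ _ _ _

end Pool.Agent.KZ.BE
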