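import Pool.Agent.KZ.BE.Gen

/-!
# KZ4, block BETA, module Nums: the numbers of the clusters
-/

set_option autoImplicit false
set_option linter.unusedSectionVars false

namespace Pool.Agent.KZ.BE

open Finset Module

variable {c : ℕ}

/-- A list of clusters with given numbers of clusters of each type. -/
theorem exists_list (cnt : Fin 2 × Fin 2 → ℕ) : ∃ x : Fin (∑ y, cnt y) → Fin 2 × Fin 2,
    ∀ g : Fin 2 × Fin 2 → ℕ, ∑ j, g (x j) = ∑ y, cnt y * g y := by
  have h1 : Fintype.card (Σ y : Fin 2 × Fin 2, Fin (cnt y)) = ∑ y, cnt y := by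
    rw [Fintype.card_sigma]
    exact sum_congr rfl fun y _ => Fintype.card_fin _
  refine ⟨fun j => ((Fintype.equivFinOfCardEq h1).symm j).1, fun g => ?_⟩
  rw [Equiv.sum_comp (Fintype.equivFinOfCardEq h1).symm
    fun z : Σ y : Fin 2 × Fin 2, Fin (cnt y) => g z.1, Fintype.sum_sigma]
  refine sum_congr rfl fun y _ => ?_
  show ∑ _z : Fin (cnt y), g y = _
  rw [sum_const, card_univ, Fintype.card_fin, smul_eq_mul]

theorem tw_block {k : ℕ} (i : Fin 2) :
    ∑ b : Fin 2, tw c k (i, b) * ((s0 c k + b : ℕ) : ℝ) = pw k i * nst c k := by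
  have hn : nst c k = s0 c k + th c k := by
    unfold th
    ring
  rw [Fin.sum_univ_two, hn]
  simp only [tw, qw, if_true, one_ne_zero, if_false, Fin.val_zero, Fin.val_one, Nat.add_zero]
  push_cast
  ring

theorem pw_nst_zero {k : ℕ} (hk : k = 5 ∨ k = 6) : pw k 0 * nst c k = xx * c := by
  obtain ⟨a1, _⟩ := k1_bounds hk
  have h1 := xx_lo
  have h2 : xx + k1 k ≠ 0 := by linarith
  unfold pw nst
  rw [if_pos rfl]
  field_simp

theorem pw_nst_one {k : ℕ} (hk : k = 5 ∨ k = 6) : pw k 1 * nst c k = k1 k * c := by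
  obtain ⟨a1, _⟩ := k1_bounds hk
  have h1 := xx_lo
  have h2 : xx + k1 k ≠ 0 := by linarith
  unfold pw nst
  rw [if_neg one_ne_zero]
  field_simp

theorem nums {k : ℕ} (hk : k = 5 ∨ k = 6) (hc : k ∣ c) (hc0 : 240 ≤ c) (η : ℝ) (hη : 0 < η) :
    ∃ e : ℝ, 0 < e ∧ ∃ n₀ : ℕ, ∀ n, n₀ ≤ n → ∀ a : L2, Cls2' c n e k a →
      ∃ (N : ℕ) (x : Fin N → Fin 2 × Fin 2), 3 * N + 2 * c ≤ n ∧ (1 - η) * n ≤ 3 * N ∧
        (∀ y, ((univ.filter fun j => x j = y).card : ℝ) ≤ tw c k y * n / 3) ∧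
        3 * ∑ j with (ty c k (x j)).1 = 0, (ty c k (x j)).2 ≤ a.Y ∧
        a.py + a.qy ≤ ∑ j with (ty c k (x j)).1 = 0, (ty c k (x j)).2 ∧
        3 * ∑ j with (ty c k (x j)).1 = 1, (ty c k (x j)).2 ≤ a.U ∧
        a.pu ≤ ∑ j with (ty c k (x j)).1 = 1, (ty c k (x j)).2 := by
  have hc60 : 60 ≤ c := by omega
  obtain ⟨b1, b2, b3, b4, b5, b6⟩ := nst_bounds hk hc hc60
  obtain ⟨a1, _⟩ := k1_bounds hk
  have hx1 := xx_lo
  have hx2 := xx_hi
  have hcr : (240 : ℝ) ≤ c := by exact_mod_cast hc0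
  set ε : ℝ := min η 1 / 2 with hε
  have hε0 : 0 < ε := by
    rw [hε]
    have : 0 < min η 1 := lt_min hη one_pos
    positivity
  have hε1 : ε ≤ 1 / 2 := by
    rw [hε]
    have := min_le_right η 1
    linarith
  have hε2 : ε ≤ η / 2 := by
    rw [hε]
    have := min_le_left η 1
    linarith
  clear_value ε
  refine ⟨ε * (0.17 * c), by positivity, ⌈2 * c / ε⌉₊ + ⌈24 / η⌉₊ + c, fun n hn a ha => ?_⟩
  have hn1 : 2 * (c : ℝ) ≤ ε * n := by
    have h1 : 2 * (c : ℝ) / ε ≤ n := by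
      refine (Nat.le_ceil _).trans ?_
      exact_mod_cast (by omega : ⌈2 * (c : ℝ) / ε⌉₊ ≤ n)
    rw [div_le_iff₀ hε0] at h1
    linarith
  have hn2 : 24 ≤ η * n := by
    have h1 : 24 / η ≤ (n : ℝ) := by
      refine (Nat.le_ceil _).trans ?_
      exact_mod_cast (by omega : ⌈24 / η⌉₊ ≤ n)
    rw [div_le_iff₀ hη] at h1
    linarith
  have hn3 : (c : ℝ) ≤ n := by exact_mod_cast (by omega : c ≤ n)
  have hn0 : (0 : ℝ) ≤ n := Nat.cast_nonneg n
  set r : Fin 2 × Fin 2 → ℝ := fun y => (1 - ε) * (tw c k y * n / 3) with hr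
  have htw := tw_nonneg (c := c) hk hc hc60
  have hr0 : ∀ y, 0 ≤ r y := by
    intro y
    have h1 : 0 ≤ tw c k y * n / 3 := by
      have := htw y
      positivity
    exact mul_nonneg (by linarith) h1
  have hr1 : ∀ y, r y ≤ tw c k y * n / 3 := by
    intro y
    have h1 : 0 ≤ tw c k y * n / 3 := by
      have := htw y
      positivity
    show (1 - ε) * (tw c k y * n / 3) ≤ _
    nlinarith
  set cnt : Fin 2 × Fin 2 → ℕ := fun y => ⌊r y⌋₊ with hcnt
  have hle : ∀ y, (cnt y : ℝ) ≤ r y := fun y => Nat.floor_le (hr0 y)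
  have hlt : ∀ y, r y ≤ cnt y + 1 := fun y => (Nat.lt_floor_add_one _).le
  obtain ⟨x, hx⟩ := exists_list cnt
  have hsr : ∑ y, r y = (1 - ε) * n / 3 := by
    have h1 := tw_sum (c := c) hk
    calc ∑ y, r y = (1 - ε) * n / 3 * ∑ y, tw c k y := by
          rw [mul_sum]
          refine sum_congr rfl fun y _ => ?_
          show (1 - ε) * (tw c k y * n / 3) = _
          ring
      _ = _ := by rw [h1, mul_one]
  have hN1 : (((∑ y, cnt y : ℕ)) : ℝ) ≤ (1 - ε) * n / 3 := by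
    rw [← hsr]
    push_cast
    exact sum_le_sum fun y _ => hle y
  have hN2 : (1 - ε) * n / 3 - 4 ≤ (((∑ y, cnt y : ℕ)) : ℝ) := by
    have h1 : ∑ y, r y ≤ ∑ y, ((cnt y : ℝ) + 1) := sum_le_sum fun y _ => hlt y
    rw [sum_add_distrib, sum_const, card_univ, hsr] at h1
    have h2 : Fintype.card (Fin 2 × Fin 2) = 4 := by simp
    rw [h2] at h1
    push_cast
    simp only [nsmul_eq_mul, mul_one] at h1
    push_cast at h1
    linarith
  have hfil : ∀ i : Fin 2, ∑ j with (ty c k (x j)).1 = i, (ty c k (x j)).2 =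
      ∑ b : Fin 2, cnt (i, b) * (s0 c k + b) := by
    intro i
    rw [sum_filter]
    have h1 := hx fun y => if (ty c k y).1 = i then (ty c k y).2 else 0
    rw [h1, Fintype.sum_prod_type]
    rw [sum_eq_single i]
    · refine sum_congr rfl fun b _ => ?_
      rw [if_pos (show (ty c k (i, b)).1 = i from rfl)]
      rfl
    · intro i' _ hi'
      refine sum_eq_zero fun b _ => ?_
      rw [if_neg (show ¬ (ty c k (i', b)).1 = i from hi'), mul_zero]
    · intro h
      exact absurd (mem_univ _) h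
  have hup : ∀ i : Fin 2, 3 * (((∑ b : Fin 2, cnt (i, b) * (s0 c k + b) : ℕ)) : ℝ) ≤
      (1 - ε) * n * (pw k i * nst c k) := by
    intro i
    rw [← tw_block]
    push_cast
    rw [mul_sum, mul_sum]
    refine sum_le_sum fun b _ => ?_
    have h1 := hle (i, b)
    have h2 : (0 : ℝ) ≤ s0 c k + b := by positivity
    have h3 := mul_le_mul_of_nonneg_right h1 h2
    have h4 : r (i, b) = (1 - ε) * (tw c k (i, b) * n / 3) := rfl
    rw [h4] at h3
    linarith
  have hlo : ∀ i : Fin 2, (1 - ε) * n * (pw k i * nst c k) - 3 * c ≤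
      3 * (((∑ b : Fin 2, cnt (i, b) * (s0 c k + b) : ℕ)) : ℝ) := by
    intro i
    have h5 : (2 * (s0 c k : ℝ) + 1) ≤ c := by
      have h7 := Nat.sub_le c (c / k)
      have h6 : 2 * s0 c k + 1 ≤ c := by omega
      exact_mod_cast h6
    rw [← tw_block, Fin.sum_univ_two, Fin.sum_univ_two]
    have h1 := hlt (i, 0)
    have h2 := hlt (i, 1)
    have h3 : r (i, 0) = (1 - ε) * (tw c k (i, 0) * n / 3) := rfl
    have h4 : r (i, 1) = (1 - ε) * (tw c k (i, 1) * n / 3) := rfl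
    rw [h3] at h1
    rw [h4] at h2
    simp only [Fin.val_zero, Fin.val_one]
    push_cast
    have h6 : (0 : ℝ) ≤ s0 c k := Nat.cast_nonneg _
    have h7 := mul_le_mul_of_nonneg_right h1 h6
    have h8 := mul_le_mul_of_nonneg_right h2 (by linarith : (0 : ℝ) ≤ s0 c k + 1)
    nlinarith
  have hY := ha.Y
  have hU := ha.U
  rw [abs_le] at hY hU
  have hk1 : (3 * xx - 1 / (k : ℝ)) / 2 = k1 k := rfl
  rw [hk1] at hU
  have hpy : 50 * (a.py : ℝ) ≤ 21 * n := by exact_mod_cast ha.py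
  have hqy : 10 * (a.qy : ℝ) ≤ 11 * n := by exact_mod_cast ha.qy
  have hpu : 100 * (a.pu : ℝ) ≤ 83 * n := by exact_mod_cast ha.pu
  have hcn : 0 ≤ (c : ℝ) * n := by positivity
  have e0 : ε * (0.17 * c) * n ≤ ε * n * (xx * c) := by
    have h1 : 0.17 ≤ xx := by linarith
    have h2 : 0 ≤ ε * ((c : ℝ) * n) := by positivity
    nlinarith
  have e1 : ε * (0.17 * c) * n ≤ ε * n * (k1 k * c) := by
    have h1 : 0.17 ≤ k1 k := by linarith
    have h2 : 0 ≤ ε * ((c : ℝ) * n) := by positivity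
    nlinarith
  have e2 : 40 * (n : ℝ) ≤ xx * c * n := by
    have h1 : 40 ≤ xx * c := by nlinarith
    exact mul_le_mul_of_nonneg_right h1 hn0
  have e3 : 40 * (n : ℝ) ≤ k1 k * c * n := by
    have h1 : 40 ≤ k1 k * c := by nlinarith
    exact mul_le_mul_of_nonneg_right h1 hn0
  refine ⟨∑ y, cnt y, x, ?_, ?_, ?_, ?_, ?_, ?_, ?_⟩
  · have h1 : 3 * (((∑ y, cnt y : ℕ)) : ℝ) + 2 * c ≤ n := by linarith
    exact_mod_cast h1
  · have h1 : ε * n ≤ η / 2 * n := mul_le_mul_of_nonneg_right hε2 hn0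
    linarith
  · intro y
    have h1 : (univ.filter fun j => x j = y).card = cnt y := by
      rw [card_filter, hx fun z => if z = y then 1 else 0]
      simp
    rw [h1]
    exact (hle y).trans (hr1 y)
  · rw [hfil]
    have h1 := hup 0
    rw [pw_nst_zero hk] at h1
    have h2 : 3 * (((∑ b : Fin 2, cnt (0, b) * (s0 c k + b) : ℕ)) : ℝ) ≤ a.Y := by linarith
    exact_mod_cast h2
  · rw [hfil]
    have h1 := hlo 0
    rw [pw_nst_zero hk] at h1
    have h2 : ((a.py : ℝ) + a.qy) ≤ ((∑ b : Fin 2, cnt (0, b) * (s0 c k + b) : ℕ) : ℝ) := by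
      have h3 : ε * (xx * c * n) ≤ 1 / 2 * (xx * c * n) :=
        mul_le_mul_of_nonneg_right hε1 (by linarith)
      linarith
    exact_mod_cast h2
  · rw [hfil]
    have h1 := hup 1
    rw [pw_nst_one hk] at h1
    have h2 : 3 * (((∑ b : Fin 2, cnt (1, b) * (s0 c k + b) : ℕ)) : ℝ) ≤ a.U := by linarith
    exact_mod_cast h2
  · rw [hfil]
    have h1 := hlo 1
    rw [pw_nst_one hk] at h1
    have h2 : (a.pu : ℝ) ≤ ((∑ b : Fin 2, cnt (1, b) * (s0 c k + b) : ℕ) : ℝ) := by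
      have h3 : ε * (k1 k * c * n) ≤ 1 / 2 * (k1 k * c * n) :=
        mul_le_mul_of_nonneg_right hε1 (by linarith)
      linarith
    exact_mod_cast h2

end Pool.Agent.KZ.BE
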