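import Pool.Agent.KZ.BE.Defs

/-!
# KZ4, block BETA, module PosA: packing of the cells outside `RR c k`

Cells outside `RR c k`: `a = κ + k i`, `b = κ + k j`, `κ < k`, `i, j < c / k`.
Pairs (`p ≤ c`): at most one in every row `a`, at `j = 0, 1`; triples of the first kind (`q ≤ 2 c`): at
most two in every row, at `j = 2, 3, 4` and `j = 5, 6, 7`; triples of the second kind (`r ≤ c`): at most
two in every column `b` with `j ≥ 8`, at `i = 0, 1, 2` and `i = 3, 4, 5`; the single ones are in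
bijection with the remaining cells (`t + 2 p + 3 q + 3 r = c ^ 2 / k`).
-/

set_option autoImplicit false
set_option linter.unusedSectionVars false

namespace Pool.Agent.KZ.BE

open Finset

/-- Enumeration of a finite set. -/
theorem exists_enum {α : Type*} (S : Finset α) (x₀ : α) {t : ℕ} (h : S.card ≤ t) :
    ∃ f : ℕ → α, ∀ z ∈ S, ∃ l < t, f l = z := by
  refine ⟨fun l => S.toList.getD l x₀, fun z hz => ?_⟩
  obtain ⟨l, hl, h1⟩ := List.mem_iff_getElem.1 (Finset.mem_toList.2 hz)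
  refine ⟨l, ?_, ?_⟩
  · rw [Finset.length_toList] at hl
    omega
  · show S.toList.getD l x₀ = z
    rw [List.getD_eq_getElem _ _ hl, h1]

/-- The element with the number `a`. -/
def gf {c : ℕ} (hc : 0 < c) (a : ℕ) : Fin c := ⟨min a (c - 1), by omega⟩

theorem gf_val {c : ℕ} (hc : 0 < c) (a : ℕ) : (gf hc a : ℕ) = min a (c - 1) := rfl

/-- The cell with the numbers `a`, `b`. -/
def gc {c : ℕ} (hc : 0 < c) (a b : ℕ) : Fin 2 → Fin c := ![gf hc a, gf hc b]

theorem gc_zero {c : ℕ} (hc : 0 < c) (a b : ℕ) : gc hc a b 0 = gf hc a := rfl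

theorem gc_one {c : ℕ} (hc : 0 < c) (a b : ℕ) : gc hc a b 1 = gf hc b := rfl

theorem gc_inj {c : ℕ} (hc : 0 < c) {a b a' b' : ℕ} (h : gc hc a b = gc hc a' b') :
    min a (c - 1) = min a' (c - 1) ∧ min b (c - 1) = min b' (c - 1) :=
  ⟨congrArg (fun z : Fin 2 → Fin c => (z 0 : ℕ)) h, congrArg (fun z : Fin 2 → Fin c => (z 1 : ℕ)) h⟩

/-- The number of the cells outside `RR c k`. -/
theorem card_compl_RR {c k d : ℕ} (hk : 0 < k) (hc : c = k * d) :
    ((univ : Finset (Fin 2 → Fin c)) \ RR c k).card ≤ c * d := by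
  have h1 : ((range c) ×ˢ (range d)).card = c * d := by
    rw [card_product, card_range, card_range]
  rw [← h1]
  refine card_le_card_of_injOn (fun z => ((z 0 : ℕ), (z 1 : ℕ) / k)) ?_ ?_
  · intro z _
    simp only [coe_product, coe_range, Set.mem_prod, Set.mem_Iio]
    refine ⟨(z 0).2, ?_⟩
    rw [Nat.div_lt_iff_lt_mul hk, mul_comm, ← hc]
    exact (z 1).2
  · intro z hz z' hz' h
    have h2 : (z 0 : ℕ) % k = (z 1 : ℕ) % k := by
      by_contra h3
      exact (mem_sdiff.1 hz).2 ((mem_RR z).2 h3)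
    have h3 : (z' 0 : ℕ) % k = (z' 1 : ℕ) % k := by
      by_contra h3
      exact (mem_sdiff.1 hz').2 ((mem_RR z').2 h3)
    have h4 : (z 0 : ℕ) = z' 0 := congrArg Prod.fst h
    have h5 : (z 1 : ℕ) / k = (z' 1 : ℕ) / k := congrArg Prod.snd h
    have h6 : (z 1 : ℕ) = z' 1 := by
      rw [← Nat.div_add_mod (z 1 : ℕ) k, ← Nat.div_add_mod (z' 1 : ℕ) k, h5, ← h2, ← h3, h4]
    funext i
    fin_cases i
    · exact Fin.ext h4
    · exact Fin.ext h6

/-- The cells of the pairs. -/
def zpA {c : ℕ} (hc : 0 < c) (k l x : ℕ) : Fin 2 → Fin c := gc hc l (l % k + k * x)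

/-- The cells of the triples of the first kind. -/
def zqA {c : ℕ} (hc : 0 < c) (k l x : ℕ) : Fin 2 → Fin c :=
  if l < c then gc hc l (l % k + k * (2 + x)) else gc hc (l - c) ((l - c) % k + k * (5 + x))

/-- The cells of the triples of the second kind. -/
def zrA {c : ℕ} (hc : 0 < c) (k l x : ℕ) : Fin 2 → Fin c :=
  if l < c - 8 * k then gc hc (l % k + k * x) (8 * k + l)
  else gc hc ((l - (c - 8 * k)) % k + k * (3 + x)) (8 * k + (l - (c - 8 * k)))

/-- All the cells of the pairs and of the triples. -/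
def fA {c : ℕ} (hc : 0 < c) (k p q r : ℕ) :
    (Fin p × Fin 2) ⊕ ((Fin q × Fin 3) ⊕ (Fin r × Fin 3)) → Fin 2 → Fin c :=
  Sum.elim (fun y => zpA hc k y.1 y.2)
    (Sum.elim (fun y => zqA hc k y.1 y.2) fun y => zrA hc k y.1 y.2)

theorem fA_inj {c k : ℕ} (hk : k = 5 ∨ k = 6) (hc : k ∣ c) (hc0 : 240 ≤ c) (h0 : 0 < c) (p q r : ℕ)
    (hp : p ≤ c) (hq : q ≤ 2 * c) (hr : r ≤ c) : Function.Injective (fA h0 k p q r) := by
  obtain ⟨d, hd⟩ := hc
  rintro (⟨l, x⟩ | ⟨l, x⟩ | ⟨l, x⟩) (⟨l', x'⟩ | ⟨l', x'⟩ | ⟨l', x'⟩) h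
  · have h1 : zpA h0 k l x = zpA h0 k l' x' := h
    have h2 := gc_inj h0 h1
    have h3 : (l : ℕ) = l' ∧ (x : ℕ) = x' := by
      rcases hk with rfl | rfl <;> omega
    rw [Fin.ext h3.1, Fin.ext h3.2]
  · exfalso
    have h1 : zpA h0 k l x = zqA h0 k l' x' := h
    unfold zpA zqA at h1
    split_ifs at h1
    · have h2 := gc_inj h0 h1
      rcases hk with rfl | rfl <;> omega
    · have h2 := gc_inj h0 h1
      rcases hk with rfl | rfl <;> omega
  · exfalso
    have h1 : zpA h0 k l x = zrA h0 k l' x' := h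
    unfold zpA zrA at h1
    split_ifs at h1
    · have h2 := gc_inj h0 h1
      rcases hk with rfl | rfl <;> omega
    · have h2 := gc_inj h0 h1
      rcases hk with rfl | rfl <;> omega
  · exfalso
    have h1 : zqA h0 k l x = zpA h0 k l' x' := h
    unfold zpA zqA at h1
    split_ifs at h1
    · have h2 := gc_inj h0 h1
      rcases hk with rfl | rfl <;> omega
    · have h2 := gc_inj h0 h1
      rcases hk with rfl | rfl <;> omega
  · have h1 : zqA h0 k l x = zqA h0 k l' x' := h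
    have h3 : (l : ℕ) = l' ∧ (x : ℕ) = x' := by
      unfold zqA at h1
      split_ifs at h1
      · have h2 := gc_inj h0 h1
        rcases hk with rfl | rfl <;> omega
      · have h2 := gc_inj h0 h1
        rcases hk with rfl | rfl <;> omega
      · have h2 := gc_inj h0 h1
        rcases hk with rfl | rfl <;> omega
      · have h2 := gc_inj h0 h1
        rcases hk with rfl | rfl <;> omega
    rw [Fin.ext h3.1, Fin.ext h3.2]
  · exfalso
    have h1 : zqA h0 k l x = zrA h0 k l' x' := h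
    unfold zqA zrA at h1
    split_ifs at h1
    · have h2 := gc_inj h0 h1
      rcases hk with rfl | rfl <;> omega
    · have h2 := gc_inj h0 h1
      rcases hk with rfl | rfl <;> omega
    · have h2 := gc_inj h0 h1
      rcases hk with rfl | rfl <;> omega
    · have h2 := gc_inj h0 h1
      rcases hk with rfl | rfl <;> omega
  · exfalso
    have h1 : zrA h0 k l x = zpA h0 k l' x' := h
    unfold zpA zrA at h1
    split_ifs at h1
    · have h2 := gc_inj h0 h1
      rcases hk with rfl | rfl <;> omega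
    · have h2 := gc_inj h0 h1
      rcases hk with rfl | rfl <;> omega
  · exfalso
    have h1 : zrA h0 k l x = zqA h0 k l' x' := h
    unfold zqA zrA at h1
    split_ifs at h1
    · have h2 := gc_inj h0 h1
      rcases hk with rfl | rfl <;> omega
    · have h2 := gc_inj h0 h1
      rcases hk with rfl | rfl <;> omega
    · have h2 := gc_inj h0 h1
      rcases hk with rfl | rfl <;> omega
    · have h2 := gc_inj h0 h1
      rcases hk with rfl | rfl <;> omega
  · have h1 : zrA h0 k l x = zrA h0 k l' x' := h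
    have h3 : (l : ℕ) = l' ∧ (x : ℕ) = x' := by
      unfold zrA at h1
      split_ifs at h1
      · have h2 := gc_inj h0 h1
        rcases hk with rfl | rfl <;> omega
      · have h2 := gc_inj h0 h1
        rcases hk with rfl | rfl <;> omega
      · have h2 := gc_inj h0 h1
        rcases hk with rfl | rfl <;> omega
      · have h2 := gc_inj h0 h1
        rcases hk with rfl | rfl <;> omega
    rw [Fin.ext h3.1, Fin.ext h3.2]

theorem gc_notMem {c : ℕ} (h0 : 0 < c) {k a b : ℕ} (h : min a (c - 1) % k = min b (c - 1) % k) :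
    gc h0 a b ∉ RR c k := by
  rw [mem_RR, not_not]
  exact h

theorem fA_mem {c k : ℕ} (hk : k = 5 ∨ k = 6) (hc : k ∣ c) (hc0 : 240 ≤ c) (h0 : 0 < c) (p q r : ℕ)
    (hp : p ≤ c) (hq : q ≤ 2 * c) (hr : r ≤ c)
    (y : (Fin p × Fin 2) ⊕ ((Fin q × Fin 3) ⊕ (Fin r × Fin 3))) : fA h0 k p q r y ∉ RR c k := by
  obtain ⟨d, hd⟩ := hc
  rcases y with ⟨l, x⟩ | ⟨l, x⟩ | ⟨l, x⟩
  · show zpA h0 k l x ∉ RR c k
    unfold zpA
    apply gc_notMem
    rcases hk with rfl | rfl <;> omega
  · show zqA h0 k l x ∉ RR c k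
    unfold zqA
    split_ifs
    · apply gc_notMem
      rcases hk with rfl | rfl <;> omega
    · apply gc_notMem
      rcases hk with rfl | rfl <;> omega
  · show zrA h0 k l x ∉ RR c k
    unfold zrA
    split_ifs
    · apply gc_notMem
      rcases hk with rfl | rfl <;> omega
    · apply gc_notMem
      rcases hk with rfl | rfl <;> omega

theorem packing {c k : ℕ} (hk : k = 5 ∨ k = 6) (hc : k ∣ c) (hc0 : 240 ≤ c) (t p q r : ℕ)
    (hT : k * (t + 2 * p + 3 * q + 3 * r) = c ^ 2) (hp : p ≤ c) (hq : q ≤ 2 * c) (hr : r ≤ c) :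
    ∃ (zt : ℕ → Fin 2 → Fin c) (zp : ℕ → Fin 2 → Fin 2 → Fin c)
      (zq zr : ℕ → Fin 3 → Fin 2 → Fin c),
      (∀ l x x', zp l x 0 = zp l x' 0) ∧ (∀ l x x', zq l x 0 = zq l x' 0) ∧
      (∀ l x x', zr l x 1 = zr l x' 1) ∧
      ∀ z ∉ RR c k, (∃ l < t, zt l = z) ∨ (∃ l < p, ∃ x, zp l x = z) ∨
        (∃ l < q, ∃ x, zq l x = z) ∨ ∃ l < r, ∃ x, zr l x = z := by
  classical
  have h0 : 0 < c := by omega
  have hk0 : 0 < k := by omega
  obtain ⟨d, hd⟩ := id hc
  set C : Finset (Fin 2 → Fin c) := univ.image (fA h0 k p q r) with hC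
  have h1 : C.card = 2 * p + 3 * q + 3 * r := by
    rw [hC, card_image_of_injective _ (fA_inj hk hc hc0 h0 p q r hp hq hr), card_univ,
      Fintype.card_sum, Fintype.card_sum, Fintype.card_prod, Fintype.card_prod, Fintype.card_prod,
      Fintype.card_fin, Fintype.card_fin, Fintype.card_fin, Fintype.card_fin, Fintype.card_fin]
    ring
  have h2 : C ⊆ univ \ RR c k := by
    intro z hz
    obtain ⟨y, _, rfl⟩ := mem_image.1 hz
    exact mem_sdiff.2 ⟨mem_univ _, fA_mem hk hc hc0 h0 p q r hp hq hr y⟩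
  have h3 := card_compl_RR hk0 hd
  have h4 : t + 2 * p + 3 * q + 3 * r = c * d := by
    apply Nat.eq_of_mul_eq_mul_left hk0
    rw [hT, pow_two]
    calc c * c = c * (k * d) := by rw [← hd]
      _ = k * (c * d) := by ring
  have h5 : ((univ \ RR c k) \ C).card ≤ t := by
    rw [card_sdiff_of_subset h2, h1]
    omega
  obtain ⟨zt, hzt⟩ := exists_enum ((univ \ RR c k) \ C) (gc h0 0 0) h5
  refine ⟨zt, fun l x => zpA h0 k l x, fun l x => zqA h0 k l x, fun l x => zrA h0 k l x,
    ?_, ?_, ?_, ?_⟩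
  · intro l x x'
    rfl
  · intro l x x'
    show zqA h0 k l x 0 = zqA h0 k l x' 0
    unfold zqA
    split_ifs
    · rfl
    · rfl
  · intro l x x'
    show zrA h0 k l x 1 = zrA h0 k l x' 1
    unfold zrA
    split_ifs
    · rfl
    · rfl
  · intro z hz
    by_cases h6 : z ∈ C
    · right
      obtain ⟨y, _, rfl⟩ := mem_image.1 h6
      rcases y with ⟨l, x⟩ | ⟨l, x⟩ | ⟨l, x⟩
      · exact Or.inl ⟨l, l.2, x, rfl⟩
      · exact Or.inr (Or.inl ⟨l, l.2, x, rfl⟩)
      · exact Or.inr (Or.inr ⟨l, l.2, x, rfl⟩)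
    · left
      exact hzt z (mem_sdiff.2 ⟨mem_sdiff.2 ⟨mem_univ _, hz⟩, h6⟩)

end Pool.Agent.KZ.BE
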