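import Pool.Agent.H51.TB.Gd

/-!
# KZ4, BETA: semicontinuity of ranks with coefficients in a subfield
-/

set_option autoImplicit false

namespace Pool.Agent.KZ.BG

open Finset MvPolynomial Module

/-- Points of a family with independent values. -/
theorem exists_rows {ι X : Type} [Fintype ι] [DecidableEq ι] (v : X → ι → ℂ)
    (h : ∀ c : ι → ℂ, (∀ x, ∑ τ, c τ * v x τ = 0) → c = 0) :
    ∃ x : ι → X, (Matrix.of fun τ τ' => v (x τ) τ').det ≠ 0 := by
  classical
  have hspan : Submodule.span ℂ (Set.range v) = ⊤ := by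
    by_contra hne
    obtain ⟨f, hf0, hf⟩ := Submodule.exists_le_ker_of_lt_top _ (lt_top_iff_ne_top.mpr hne)
    have hfe : ∀ w : ι → ℂ, f w = ∑ τ, f (Pi.single τ 1) * w τ := by
      intro w
      conv_lhs => rw [← Finset.univ_sum_single w]
      rw [map_sum]
      refine Finset.sum_congr rfl fun τ _ => ?_
      have : (Pi.single τ (w τ) : ι → ℂ) = w τ • Pi.single τ 1 := by
        rw [← Pi.single_smul, smul_eq_mul, mul_one]
      rw [this, map_smul, smul_eq_mul, mul_comm]
    have hc := h (fun τ => f (Pi.single τ 1)) (fun x => by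
      rw [← hfe]
      exact LinearMap.mem_ker.mp (hf (Submodule.subset_span ⟨x, rfl⟩)))
    apply hf0
    ext w
    have := congrFun hc w
    simpa using this
  obtain ⟨b, hb, hbs, hbl⟩ := exists_linearIndependent ℂ (Set.range v)
  rw [hspan] at hbs
  let B : Module.Basis b ℂ (ι → ℂ) := Module.Basis.mk hbl (by
    rw [Subtype.range_coe_subtype, Set.ofPred_mem_eq, hbs])
  have hfin : Finite b := Module.Finite.finite_basis B
  let _ : Fintype b := Fintype.ofFinite b
  have hcard : Fintype.card ι = Fintype.card b := by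
    rw [← Module.finrank_eq_card_basis B, Module.finrank_fintype_fun_eq_card]
  let e : ι ≃ b := Fintype.equivOfCardEq hcard
  have hx : ∀ τ : ι, ∃ x : X, v x = (e τ : ι → ℂ) := fun τ => hb (e τ).2
  choose x hx using hx
  refine ⟨x, ?_⟩
  have hli : LinearIndependent ℂ (Matrix.of fun τ τ' => v (x τ) τ').row := by
    have : (Matrix.of fun τ τ' => v (x τ) τ').row = fun τ => (e τ : ι → ℂ) := by
      funext τ
      exact hx τ
    rw [this]
    exact hbl.comp e e.injective
  rw [Matrix.linearIndependent_rows_iff_isUnit, Matrix.isUnit_iff_isUnit_det] at hli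
  exact hli.ne_zero

/-- A subspace has a complement spanned by coordinate vectors. -/
theorem exists_cols {d : Type} [Fintype d] [DecidableEq d] (N : Submodule ℂ (d → ℂ)) :
    ∃ (κ : Type) (_ : Fintype κ) (a : κ → d), Function.Injective a ∧
      Fintype.card κ + finrank ℂ N = Fintype.card d ∧
      (∀ x ∈ N, (∀ l ∉ Set.range a, x l = 0) → x = 0) := by
  obtain ⟨κ, a, ha, hs, hl⟩ := exists_linearIndependent' ℂ
    (fun l : d => N.mkQ (Pi.single l 1))
  have hfin : Finite κ := Finite.of_injective a ha
  let _ : Fintype κ := Fintype.ofFinite κ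
  refine ⟨κ, inferInstance, a, ha, ?_, ?_⟩
  · have h1 : Submodule.span ℂ (Set.range fun l : d => N.mkQ (Pi.single l 1)) = ⊤ := by
      have h2 : (Set.range fun l : d => N.mkQ (Pi.single l (1 : ℂ))) =
          N.mkQ '' (Set.range fun l : d => (Pi.single l (1 : ℂ) : d → ℂ)) := by
        rw [← Set.range_comp]
        rfl
      rw [h2, Submodule.span_image]
      have h3 : Submodule.span ℂ (Set.range fun l : d => (Pi.single l (1 : ℂ) : d → ℂ)) = ⊤ := by
        have := (Pi.basisFun ℂ d).span_eq
        rw [← this]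
        congr 1
        ext x
        simp
      rw [h3, Submodule.map_top, Submodule.range_mkQ]
    rw [h1] at hs
    have h2 := finrank_span_eq_card hl
    rw [hs, finrank_top] at h2
    have h3 := Submodule.finrank_quotient_add_finrank N
    rw [Module.finrank_fintype_fun_eq_card] at h3
    omega
  · intro x hx hx0
    have h1 : N.mkQ x = 0 := by
      rw [Submodule.mkQ_apply, Submodule.Quotient.mk_eq_zero]
      exact hx
    have h2 : x = ∑ k, x (a k) • (Pi.single (a k) 1 : d → ℂ) := by
      funext l
      rw [Finset.sum_apply]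
      by_cases hl : l ∈ Set.range a
      · obtain ⟨k, rfl⟩ := hl
        rw [Finset.sum_eq_single k]
        · rw [Pi.smul_apply, Pi.single_eq_same, smul_eq_mul, mul_one]
        · intro k' _ hk'
          rw [Pi.smul_apply, Pi.single_eq_of_ne, smul_zero]
          intro h
          exact hk' (ha h).symm
        · intro h
          exact absurd (Finset.mem_univ k) h
      · rw [hx0 l hl, Finset.sum_eq_zero]
        intro k _
        rw [Pi.smul_apply, Pi.single_eq_of_ne, smul_zero]
        intro h
        exact hl ⟨k, h.symm⟩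
    rw [h2, map_sum] at h1
    have h3 := Fintype.linearIndependent_iff.mp hl (fun k => x (a k)) (by
      rw [← h1]
      refine Finset.sum_congr rfl fun k _ => ?_
      rw [map_smul]
      rfl)
    rw [h2]
    refine Finset.sum_eq_zero fun k _ => ?_
    rw [h3 k, zero_smul]

/-- The solutions of a system of linear equations. -/
def Nl {m d : Type} [Fintype d] (A : m → d → ℂ) : Submodule ℂ (d → ℂ) where
  carrier := {x | ∀ r, ∑ l, A r l * x l = 0}
  zero_mem' := fun r => by simp
  add_mem' := by
    intro x y hx hy r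
    simp only [Pi.add_apply, mul_add, sum_add_distrib]
    rw [hx r, hy r, add_zero]
  smul_mem' := by
    intro z x hx r
    have h : ∀ l, A r l * (z • x) l = z * (A r l * x l) := by
      intro l
      rw [Pi.smul_apply, smul_eq_mul]
      ring
    simp only [h, ← mul_sum]
    rw [hx r, mul_zero]

theorem mem_Nl {m d : Type} [Fintype d] (A : m → d → ℂ) (x : d → ℂ) :
    x ∈ Nl A ↔ ∀ r, ∑ l, A r l * x l = 0 := Iff.rfl

/-- The degree of a determinant. -/
theorem totalDegree_det {k σ κ : Type} [CommRing k] [Fintype κ] [DecidableEq κ]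
    (M : Matrix κ κ (MvPolynomial σ k)) (e : ℕ) (h : ∀ x y, (M x y).totalDegree ≤ e) :
    M.det.totalDegree ≤ Fintype.card κ * e := by
  rw [Matrix.det_apply]
  refine totalDegree_finsetSum_le fun τ _ => ?_
  refine (totalDegree_smul_le _ _).trans ?_
  refine (totalDegree_finsetProd _ _).trans ?_
  refine (Finset.sum_le_card_nsmul _ _ e fun x _ => h _ _).trans ?_
  rw [Finset.card_univ, smul_eq_mul]

/-- Semicontinuity, with a witness over the field of the coefficients, with its degree. -/
theorem exists_poly_deg {k : Type} [Field k] [Algebra k ℂ] {σ m d : Type} [Fintype d]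
    (A : m → d → MvPolynomial σ k) (p₀ : σ → ℂ) :
    ∃ G : MvPolynomial σ k, (∀ e : ℕ, (∀ r l, (A r l).totalDegree ≤ e) →
      G.totalDegree ≤ Fintype.card d * e) ∧ aeval p₀ G ≠ 0 ∧
      ∀ p : σ → ℂ, aeval p G ≠ 0 →
      finrank ℂ (Nl fun r l => aeval p (A r l)) ≤ finrank ℂ (Nl fun r l => aeval p₀ (A r l)) := by
  classical
  obtain ⟨κ, _, a, ha, hcard, hinj⟩ := exists_cols (Nl fun r l => aeval p₀ (A r l))
  obtain ⟨x, hx⟩ := exists_rows (ι := κ) (fun (r : m) (τ : κ) => aeval p₀ (A r (a τ))) (by
    intro c hc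
    let y : d → ℂ := fun l => ∑ τ, if a τ = l then c τ else 0
    have hy1 : ∀ τ, y (a τ) = c τ := by
      intro τ
      show ∑ τ', (if a τ' = a τ then c τ' else 0) = c τ
      rw [Finset.sum_eq_single τ]
      · rw [if_pos rfl]
      · intro τ' _ h
        rw [if_neg fun h' => h (ha h')]
      · intro h
        exact absurd (Finset.mem_univ τ) h
    have hy2 : ∀ l ∉ Set.range a, y l = 0 := by
      intro l hl
      refine Finset.sum_eq_zero fun τ _ => ?_
      rw [if_neg fun h => hl ⟨τ, h⟩]
    have hy3 : y = 0 := by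
      refine hinj y ?_ hy2
      intro r
      have h1 : ∑ l, aeval p₀ (A r l) * y l = ∑ l, ∑ τ, if a τ = l then
          aeval p₀ (A r l) * c τ else 0 := by
        refine Finset.sum_congr rfl fun l _ => ?_
        show aeval p₀ (A r l) * (∑ τ, if a τ = l then c τ else 0) = _
        rw [Finset.mul_sum]
        refine Finset.sum_congr rfl fun τ _ => ?_
        split_ifs
        · rfl
        · rw [mul_zero]
      rw [h1, Finset.sum_comm]
      refine (Finset.sum_congr rfl fun τ _ => ?_).trans (hc r)
      rw [Finset.sum_ite_eq Finset.univ (a τ), if_pos (Finset.mem_univ _), mul_comm]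
    funext τ
    rw [← hy1 τ, hy3]
    rfl)
  let M : Matrix κ κ (MvPolynomial σ k) := Matrix.of fun τ τ' => A (x τ) (a τ')
  have hM : ∀ p : σ → ℂ, aeval p M.det = (Matrix.of fun τ τ' => aeval p (A (x τ) (a τ'))).det := by
    intro p
    have h1 := RingHom.map_det (aeval p : MvPolynomial σ k →ₐ[k] ℂ).toRingHom M
    rw [show aeval p M.det = (aeval p : MvPolynomial σ k →ₐ[k] ℂ).toRingHom M.det from rfl, h1]
    rfl
  refine ⟨M.det, fun e he => ?_, ?_, fun p hp => ?_⟩
  · refine (totalDegree_det M e fun x y => he _ _).trans (Nat.mul_le_mul_right _ ?_)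
    omega
  · rw [hM]
    exact hx
  · rw [hM] at hp
    have hsurj : ∀ y : κ → ℂ, ∃ w : κ → ℂ, ∀ τ, ∑ τ', aeval p (A (x τ) (a τ')) * w τ' = y τ := by
      intro y
      rw [← isUnit_iff_ne_zero, ← Matrix.isUnit_iff_isUnit_det] at hp
      obtain ⟨c, hc⟩ := (Matrix.mulVec_surjective_iff_isUnit.mpr hp) y
      refine ⟨c, fun τ => ?_⟩
      rw [← hc]
      rfl
    let Φ : (d → ℂ) →ₗ[ℂ] (κ → ℂ) :=
      LinearMap.pi fun τ => ∑ l, (aeval p (A (x τ) l)) • LinearMap.proj l
    have hΦ : ∀ w τ, Φ w τ = ∑ l, aeval p (A (x τ) l) * w l := by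
      intro w τ
      simp only [Φ, LinearMap.pi_apply, LinearMap.sum_apply, LinearMap.smul_apply,
        LinearMap.proj_apply, smul_eq_mul]
    have hle : (Nl fun r l => aeval p (A r l)) ≤ LinearMap.ker Φ := by
      intro w hw
      rw [LinearMap.mem_ker]
      funext τ
      rw [hΦ]
      exact hw (x τ)
    have hr : LinearMap.range Φ = ⊤ := by
      rw [LinearMap.range_eq_top]
      intro y
      obtain ⟨w, hw⟩ := hsurj y
      refine ⟨fun l => ∑ τ, if a τ = l then w τ else 0, ?_⟩
      funext τ
      rw [hΦ, ← hw τ]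
      have h1 : ∀ l, aeval p (A (x τ) l) * (∑ τ', if a τ' = l then w τ' else 0) =
          ∑ τ', if a τ' = l then aeval p (A (x τ) l) * w τ' else 0 := by
        intro l
        rw [Finset.mul_sum]
        refine Finset.sum_congr rfl fun τ' _ => ?_
        split_ifs
        · rfl
        · rw [mul_zero]
      simp only [h1]
      rw [Finset.sum_comm]
      refine Finset.sum_congr rfl fun τ' _ => ?_
      rw [Finset.sum_ite_eq Finset.univ (a τ'), if_pos (Finset.mem_univ _)]
    have h1 := LinearMap.finrank_range_add_finrank_ker Φ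
    rw [hr, finrank_top, Module.finrank_fintype_fun_eq_card,
      Module.finrank_fintype_fun_eq_card] at h1
    have h3 := Submodule.finrank_mono hle
    omega

/-- Semicontinuity, with a witness over the field of the coefficients. -/
theorem exists_poly {k : Type} [Field k] [Algebra k ℂ] {σ m d : Type} [Fintype d]
    (A : m → d → MvPolynomial σ k) (p₀ : σ → ℂ) :
    ∃ G : MvPolynomial σ k, aeval p₀ G ≠ 0 ∧ ∀ p : σ → ℂ, aeval p G ≠ 0 →
      finrank ℂ (Nl fun r l => aeval p (A r l)) ≤ finrank ℂ (Nl fun r l => aeval p₀ (A r l)) := by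
  obtain ⟨G, _, h⟩ := exists_poly_deg A p₀
  exact ⟨G, h⟩

end Pool.Agent.KZ.BG
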