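import Pool.Agent.KZ.BE.Adp

/-!
# KZ4, block BETA, module Row: two types of the same block on a monomial subspace
-/

set_option autoImplicit false
set_option linter.unusedSectionVars false

namespace Pool.Agent.KZ.BE

open Finset Module

variable {c : ℕ}

/-- The number of cells of `S` on a line in the direction `i`. -/
def ln (S : Finset (Fin 2 → Fin c)) (i : Fin 2) (b : Fin c) : ℕ :=
  (univ.filter fun a => cel i a b ∈ S).card

theorem card_ln (S : Finset (Fin 2 → Fin c)) (i : Fin 2) (b : Fin c) :
    (S.filter fun f => f (i + 1) = b).card = ln S i b := by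
  have hi : i + 1 ≠ i := by
    rcases Fin.exists_fin_two.mp ⟨i, rfl⟩ with rfl | rfl
    · decide
    · decide
  refine card_bij (fun f _ => f i) ?_ ?_ ?_
  · intro f hf
    rw [mem_filter] at hf
    rw [mem_filter]
    refine ⟨mem_univ _, ?_⟩
    rw [← hf.2, ← update_eq_cel, Function.update_eq_self]
    exact hf.1
  · intro f hf g hg h
    rw [mem_filter] at hf hg
    funext x
    by_cases hx : x = i
    · rw [hx]
      exact h
    · rw [fin2_other hx, hf.2, hg.2]
  · intro a ha
    rw [mem_filter] at ha
    refine ⟨cel i a b, mem_filter.mpr ⟨ha.2, cel_ne hi a b⟩, cel_same i a b⟩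

theorem gv_row (S : Finset (Fin 2 → Fin c)) (i : Fin 2) (s s' : ℕ) :
    gv (CS S) (i, s) (i, s') ≤ ∑ b, (ln S i b - (s + s')) := by
  rw [gv_eq, CS_eq]
  refine (BG.gv_mono_le i s s' S).trans (le_of_eq ?_)
  refine sum_congr rfl fun b _ => ?_
  rw [card_ln]

end Pool.Agent.KZ.BE
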