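import Pool.Agent.KZ.BE.Nums
import Pool.Agent.KZ.BE.Crv

/-!
# KZ4, block BETA, module Sum: the sum over the pairs of lines
-/

set_option autoImplicit false
set_option linter.unusedSectionVars false

namespace Pool.Agent.KZ.BE

open Finset Module

variable {c : ℕ}

theorem sum_fib {ι α : Type} [Fintype ι] [Fintype α] [DecidableEq α] (g : ι → α) (H : α → ℕ) :
    ∑ t, H (g t) = ∑ o, (univ.filter fun t => g t = o).card * H o := by
  rw [← Finset.sum_fiberwise univ g]
  refine sum_congr rfl fun o _ => ?_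
  rw [card_eq_sum_ones, sum_mul]
  refine sum_congr rfl fun t ht => ?_
  rw [(mem_filter.1 ht).2, one_mul]

/-- The sum over the pairs `t < t'` is at most half of the sum over all pairs. -/
theorem two_sum_Ioi {m : ℕ} (f : Fin m → Fin m → ℕ) (hf : ∀ t t', f t t' = f t' t) :
    2 * ∑ t, ∑ t' ∈ Ioi t, f t t' ≤ ∑ t, ∑ t', f t t' := by
  have h1 : ∑ t, ∑ t' ∈ Ioi t, f t t' = ∑ t, ∑ t' ∈ Iio t, f t t' := by
    have h2 : ∀ t, ∑ t' ∈ Ioi t, f t t' = ∑ t', if t < t' then f t t' else 0 := by
      intro t
      rw [← sum_filter]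
      refine sum_congr ?_ fun _ _ => rfl
      ext t'
      simp
    have h3 : ∀ t, ∑ t' ∈ Iio t, f t t' = ∑ t', if t' < t then f t t' else 0 := by
      intro t
      rw [← sum_filter]
      refine sum_congr ?_ fun _ _ => rfl
      ext t'
      simp
    rw [sum_congr rfl fun t _ => h2 t, sum_congr rfl fun t _ => h3 t, sum_comm]
    refine sum_congr rfl fun t _ => sum_congr rfl fun t' _ => ?_
    rw [hf t' t]
  rw [two_mul]
  nth_rewrite 2 [h1]
  rw [← sum_add_distrib]
  refine sum_le_sum fun t _ => ?_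
  rw [← sum_union]
  · exact sum_le_sum_of_subset (subset_univ _)
  · rw [disjoint_left]
    intro t' h2 h3
    rw [mem_Ioi] at h2
    rw [mem_Iio] at h3
    exact absurd h3 (not_lt.2 h2.le)

/-- The cluster of a line. -/
def clu {m : ℕ} (N : ℕ) (t : Fin m) : Option (Fin N) :=
  if h : (t : ℕ) / 3 < N then some ⟨(t : ℕ) / 3, h⟩ else none

theorem clu_some {m N : ℕ} (j : Fin N) :
    (univ.filter fun t : Fin m => clu N t = some j).card ≤ 3 := by
  have h1 : (range 3).card = 3 := card_range 3
  rw [← h1]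
  have h2 : ∀ t : Fin m, clu N t = some j → (t : ℕ) / 3 = j := by
    intro t ht
    unfold clu at ht
    split_ifs at ht with h
    exact congrArg Fin.val (Option.some.inj ht)
  refine card_le_card_of_injOn (fun t => (t : ℕ) - 3 * j) ?_ ?_
  · intro t ht
    have h3 := h2 t (mem_filter.1 ht).2
    simp only [coe_range, Set.mem_Iio]
    omega
  · intro t ht t' ht' h
    have h3 := h2 t (mem_filter.1 ht).2
    have h4 := h2 t' (mem_filter.1 ht').2
    have h5 : (t : ℕ) - 3 * j = (t' : ℕ) - 3 * j := h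
    apply Fin.ext
    omega

theorem clu_none {m N : ℕ} :
    (univ.filter fun t : Fin m => clu N t = none).card ≤ m - 3 * N := by
  have h1 : (range (m - 3 * N)).card = m - 3 * N := card_range _
  rw [← h1]
  have h2 : ∀ t : Fin m, clu N t = none → ¬ (t : ℕ) / 3 < N := by
    intro t ht h
    unfold clu at ht
    rw [dif_pos h] at ht
    exact absurd ht (by simp)
  refine card_le_card_of_injOn (fun t => (t : ℕ) - 3 * N) ?_ ?_
  · intro t ht
    have h3 := h2 t (mem_filter.1 ht).2
    have h4 := t.2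
    simp only [coe_range, Set.mem_Iio]
    omega
  · intro t ht t' ht' h
    have h3 := h2 t (mem_filter.1 ht).2
    have h4 := h2 t' (mem_filter.1 ht').2
    have h5 : (t : ℕ) - 3 * N = (t' : ℕ) - 3 * N := h
    apply Fin.ext
    omega

/-- The sum over the lines in terms of the sum over the clusters. -/
theorem sum_lines {m N d : ℕ} (hN : 3 * N ≤ m) (G : Option (Fin N) → Option (Fin N) → ℕ)
    (hG : ∀ o o', G o o' ≤ d) :
    ∑ t : Fin m, ∑ t' : Fin m, G (clu N t) (clu N t') ≤
      9 * ∑ j, ∑ j', G (some j) (some j') + 2 * m * (m - 3 * N) * d := by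
  set w : Option (Fin N) → ℕ := fun o => (univ.filter fun t : Fin m => clu N t = o).card with hw
  have hw1 : ∀ j, w (some j) ≤ 3 := fun j => clu_some j
  have hw0 : w none ≤ m - 3 * N := clu_none
  have h1 : ∑ t : Fin m, ∑ t' : Fin m, G (clu N t) (clu N t') =
      ∑ o, w o * ∑ o', w o' * G o o' := by
    rw [sum_fib (fun t : Fin m => clu N t) fun o => ∑ t' : Fin m, G o (clu N t')]
    refine sum_congr rfl fun o _ => ?_
    rw [sum_fib (fun t : Fin m => clu N t) fun o' => G o o']
  have hin : ∀ o, ∑ o', w o' * G o o' ≤ (m - 3 * N) * d + 3 * ∑ j', G o (some j') := by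
    intro o
    rw [Fintype.sum_option, mul_sum]
    exact add_le_add (Nat.mul_le_mul hw0 (hG _ _))
      (sum_le_sum fun j' _ => Nat.mul_le_mul_right _ (hw1 j'))
  rw [h1, Fintype.sum_option]
  have h2 : w none * ∑ o', w o' * G none o' ≤ (m - 3 * N) * (m * d) := by
    refine Nat.mul_le_mul hw0 ((hin none).trans ?_)
    have h3 : ∑ j', G none (some j') ≤ N * d := by
      calc ∑ j', G none (some j') ≤ ∑ _j' : Fin N, d := sum_le_sum fun j' _ => hG _ _
        _ = N * d := by rw [sum_const, card_univ, Fintype.card_fin, smul_eq_mul]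
    calc (m - 3 * N) * d + 3 * ∑ j', G none (some j') ≤ (m - 3 * N) * d + 3 * (N * d) := by omega
      _ = ((m - 3 * N) + 3 * N) * d := by ring
      _ = m * d := by rw [Nat.sub_add_cancel hN]
  have h3 : ∑ j, w (some j) * ∑ o', w o' * G (some j) o' ≤
      9 * ∑ j, ∑ j', G (some j) (some j') + m * ((m - 3 * N) * d) := by
    calc ∑ j, w (some j) * ∑ o', w o' * G (some j) o' ≤
        ∑ j : Fin N, 3 * ((m - 3 * N) * d + 3 * ∑ j', G (some j) (some j')) :=
          sum_le_sum fun j _ => Nat.mul_le_mul (hw1 j) (hin _)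
      _ = 9 * ∑ j, ∑ j', G (some j) (some j') + 3 * N * ((m - 3 * N) * d) := by
          rw [← mul_sum, sum_add_distrib, sum_const, card_univ, Fintype.card_fin, smul_eq_mul,
            ← mul_sum]
          ring
      _ ≤ _ := Nat.add_le_add_left (Nat.mul_le_mul_right _ hN) _
  calc w none * ∑ o', w o' * G none o' + ∑ j, w (some j) * ∑ o', w o' * G (some j) o' ≤
      (m - 3 * N) * (m * d) + (9 * ∑ j, ∑ j', G (some j) (some j') + m * ((m - 3 * N) * d)) :=
        add_le_add h2 h3
    _ = _ := by ring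

/-- The vectors of the clusters are on the curve: the sum over the pairs of clusters. -/
theorem sum_clusters {B D s k N d : ℕ}
    (hcur : ∀ (F : Submodule ℂ ((Fin 2 → Fin c) → ℂ)) (τ τ' : Ty), τ.2 ≤ s → τ'.2 ≤ s →
      ∀ T T' : Finset ℂ,
      ((T ×ˢ T').filter fun z => gv F τ τ' < dm F τ τ' (kc D c z.1) (kc D c z.2)).card ≤
        B * (T.card + T'.card)) (hs : s0 c k + 1 ≤ s) (x : Fin N → Fin 2 × Fin 2)
    (E : Submodule ℂ ((Fin 2 → Fin c) → ℂ)) (hd : finrank ℂ E ≤ d) :
    ∑ j, ∑ j', dm E (ty c k (x j)) (ty c k (x j')) (kc D c (j : ℕ)) (kc D c (j' : ℕ)) ≤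
      ∑ y, ∑ y', (univ.filter fun j => x j = y).card * ((univ.filter fun j => x j = y').card *
        gv E (ty c k y) (ty c k y')) + 8 * B * N * d := by
  classical
  set bad : Fin N → Fin N → ℕ := fun j j' =>
    if gv E (ty c k (x j)) (ty c k (x j')) <
      dm E (ty c k (x j)) (ty c k (x j')) (kc D c (j : ℕ)) (kc D c (j' : ℕ)) then 1 else 0 with hbad
  have h1 : ∀ j j', dm E (ty c k (x j)) (ty c k (x j')) (kc D c (j : ℕ)) (kc D c (j' : ℕ)) ≤
      gv E (ty c k (x j)) (ty c k (x j')) + bad j j' * d := by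
    intro j j'
    by_cases h : gv E (ty c k (x j)) (ty c k (x j')) <
      dm E (ty c k (x j)) (ty c k (x j')) (kc D c (j : ℕ)) (kc D c (j' : ℕ))
    · have h2 : bad j j' = 1 := if_pos h
      rw [h2, one_mul]
      exact (dm_le _ _ _ _ _).trans (hd.trans (Nat.le_add_left _ _))
    · have h2 : bad j j' = 0 := if_neg h
      rw [h2, zero_mul]
      exact not_lt.1 h
  have h2 : ∑ j, ∑ j', bad j j' ≤ 8 * B * N := by
    have h3 : ∑ j, ∑ j', bad j j' = ∑ y, ∑ y',
        ((univ.filter fun z : Fin N × Fin N => (x z.1 = y ∧ x z.2 = y') ∧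
          gv E (ty c k y) (ty c k y') <
            dm E (ty c k y) (ty c k y') (kc D c (z.1 : ℕ)) (kc D c (z.2 : ℕ))).card) := by
      have h4 : ∀ y y', (univ.filter fun z : Fin N × Fin N => (x z.1 = y ∧ x z.2 = y') ∧
          gv E (ty c k y) (ty c k y') <
            dm E (ty c k y) (ty c k y') (kc D c (z.1 : ℕ)) (kc D c (z.2 : ℕ))).card =
          ∑ j, ∑ j', if x j = y then (if x j' = y' then bad j j' else 0) else 0 := by
        intro y y'
        rw [card_filter, Fintype.sum_prod_type]
        refine sum_congr rfl fun j _ => sum_congr rfl fun j' _ => ?_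
        by_cases e1 : x j = y
        · by_cases e2 : x j' = y'
          · rw [if_pos e1, if_pos e2]
            subst e1 e2
            show _ = if _ then 1 else 0
            simp only [true_and]
          · rw [if_pos e1, if_neg e2, if_neg (fun h => e2 h.1.2)]
        · rw [if_neg e1, if_neg (fun h => e1 h.1.1)]
      rw [sum_congr rfl fun y _ => sum_congr rfl fun y' _ => h4 y y']
      have h5 : ∀ y, ∑ y', ∑ j, ∑ j', (if x j = y then (if x j' = y' then bad j j' else 0) else 0) =
          ∑ j, ∑ j', if x j = y then bad j j' else 0 := by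
        intro y
        rw [sum_comm]
        refine sum_congr rfl fun j _ => ?_
        rw [sum_comm]
        refine sum_congr rfl fun j' _ => ?_
        by_cases e1 : x j = y
        · simp [e1]
        · simp [e1]
      simp only [h5]
      symm
      rw [sum_comm]
      refine sum_congr rfl fun j _ => ?_
      rw [sum_comm]
      refine sum_congr rfl fun j' _ => ?_
      simp
    rw [h3]
    have h6 : ∀ y y', ((univ.filter fun z : Fin N × Fin N => (x z.1 = y ∧ x z.2 = y') ∧
          gv E (ty c k y) (ty c k y') <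
            dm E (ty c k y) (ty c k y') (kc D c (z.1 : ℕ)) (kc D c (z.2 : ℕ))).card) ≤
        B * ((univ.filter fun j => x j = y).card + (univ.filter fun j => x j = y').card) := by
      intro y y'
      have hcast : Function.Injective fun j : Fin N => ((j : ℕ) : ℂ) := by
        intro j j' h
        have h' : ((j : ℕ) : ℂ) = ((j' : ℕ) : ℂ) := h
        apply Fin.ext
        exact_mod_cast h'
      have h7 := hcur E (ty c k y) (ty c k y')
        (le_trans (by show s0 c k + (y.2 : ℕ) ≤ s0 c k + 1; omega) hs)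
        (le_trans (by show s0 c k + (y'.2 : ℕ) ≤ s0 c k + 1; omega) hs)
        ((univ.filter fun j => x j = y).image fun j : Fin N => ((j : ℕ) : ℂ))
        ((univ.filter fun j => x j = y').image fun j : Fin N => ((j : ℕ) : ℂ))
      rw [card_image_of_injective _ hcast, card_image_of_injective _ hcast] at h7
      refine le_trans ?_ h7
      refine card_le_card_of_injOn (fun z => (((z.1 : ℕ) : ℂ), ((z.2 : ℕ) : ℂ))) ?_ ?_
      · intro z hz
        obtain ⟨⟨e1, e2⟩, e3⟩ := (mem_filter.1 (mem_coe.1 hz)).2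
        rw [mem_coe, mem_filter, mem_product]
        exact ⟨⟨mem_image.2 ⟨z.1, mem_filter.2 ⟨mem_univ _, e1⟩, rfl⟩,
          mem_image.2 ⟨z.2, mem_filter.2 ⟨mem_univ _, e2⟩, rfl⟩⟩, e3⟩
      · intro z _ z' _ h
        have e1 : ((z.1 : ℕ) : ℂ) = ((z'.1 : ℕ) : ℂ) := congrArg Prod.fst h
        have e2 : ((z.2 : ℕ) : ℂ) = ((z'.2 : ℕ) : ℂ) := congrArg Prod.snd h
        exact Prod.ext (hcast e1) (hcast e2)
    have h8 : ∑ y, (univ.filter fun j => x j = y).card = N := by
      rw [← Finset.card_eq_sum_card_fiberwise (f := x) (s := univ) (t := univ) fun _ _ => by simp]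
      rw [card_univ, Fintype.card_fin]
    have h9 : Fintype.card (Fin 2 × Fin 2) = 4 := by simp
    calc ∑ y, ∑ y', ((univ.filter fun z : Fin N × Fin N => (x z.1 = y ∧ x z.2 = y') ∧
          gv E (ty c k y) (ty c k y') <
            dm E (ty c k y) (ty c k y') (kc D c (z.1 : ℕ)) (kc D c (z.2 : ℕ))).card) ≤
        ∑ y, ∑ y', B * ((univ.filter fun j => x j = y).card +
          (univ.filter fun j => x j = y').card) :=
          sum_le_sum fun y _ => sum_le_sum fun y' _ => h6 y y'
      _ = 8 * B * N := by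
          simp only [← mul_sum, sum_add_distrib, sum_const, card_univ, h9, h8, smul_eq_mul]
          ring
  calc ∑ j, ∑ j', dm E (ty c k (x j)) (ty c k (x j')) (kc D c (j : ℕ)) (kc D c (j' : ℕ)) ≤
      ∑ j, ∑ j', (gv E (ty c k (x j)) (ty c k (x j')) + bad j j' * d) :=
        sum_le_sum fun j _ => sum_le_sum fun j' _ => h1 j j'
    _ = ∑ j, ∑ j', gv E (ty c k (x j)) (ty c k (x j')) + (∑ j, ∑ j', bad j j') * d := by
        simp only [sum_add_distrib, sum_mul]
    _ ≤ _ := by
        refine add_le_add (le_of_eq ?_) (Nat.mul_le_mul_right _ h2)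
        rw [sum_fib x fun y => ∑ j', gv E (ty c k y) (ty c k (x j'))]
        refine sum_congr rfl fun y _ => ?_
        rw [sum_fib x fun y' => gv E (ty c k y) (ty c k y'), mul_sum]

end Pool.Agent.KZ.BE
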